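import Mathlib

/-!
Generic 3-dimensional rigidity matroid: rows of the rigidity matrix, independence,
and the existence of a generic placement.
-/

set_option autoImplicit false

namespace Pool.Agent.Lib.MP_071ace_co

open MvPolynomial

variable {V : Type*} [DecidableEq V]

/-- The row of the 3-dimensional rigidity matrix of the placement `p` indexed by a pair:
`p u - p v` in the columns of `u`, `p v - p u` in the columns of `v`, zero elsewhere. -/
def row (p : V → Fin 3 → ℝ) : Sym2 V → (V × Fin 3 → ℝ) :=
  Sym2.lift ⟨fun u v w => if w.1 = u then p u w.2 - p v w.2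
      else if w.1 = v then p v w.2 - p u w.2 else 0, by
    intro u v
    funext w
    by_cases h1 : w.1 = u
    · by_cases h2 : w.1 = v
      · have h3 : u = v := h1.symm.trans h2
        subst h3
        rfl
      · simp [h1]
        intro h
        subst h
        simp
    · by_cases h2 : w.1 = v
      · have h3 : ¬ v = u := fun h => h1 (h2.trans h)
        simp [h2, h3]
      · simp [h1, h2]⟩

/-- A set of pairs is independent in the generic 3-dimensional rigidity matroid. -/
def Indep (E : Set (Sym2 V)) : Prop :=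
  ∃ p : V → Fin 3 → ℝ, LinearIndepOn ℝ (row p) E

theorem row_apply (p : V → Fin 3 → ℝ) (u v : V) (w : V × Fin 3) :
    row p s(u, v) w = (if w.1 = u then p u w.2 - p v w.2 else 0) +
      (if w.1 = v then p v w.2 - p u w.2 else 0) := by
  show (if w.1 = u then p u w.2 - p v w.2
      else if w.1 = v then p v w.2 - p u w.2 else 0) = _
  by_cases h1 : w.1 = u
  · by_cases h2 : w.1 = v
    · have h3 : u = v := h1.symm.trans h2
      subst h3
      simp
    · simp [h1]
      intro h
      subst h
      simp
  · simp [h1]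

theorem row_apply_self {p : V → Fin 3 → ℝ} {u v : V} (j : Fin 3) :
    row p s(u, v) (u, j) = p u j - p v j := by
  rw [row_apply]
  by_cases h : u = v
  · subst h; simp
  · simp [h]

theorem row_apply_not_mem {p : V → Fin 3 → ℝ} {e : Sym2 V} {x : V} (h : x ∉ e) (j : Fin 3) :
    row p e (x, j) = 0 := by
  induction e using Sym2.ind with
  | _ u v =>
    rw [row_apply]
    have h1 : x ≠ u := fun hh => h (hh ▸ Sym2.mem_mk_left _ _)
    have h2 : x ≠ v := fun hh => h (hh ▸ Sym2.mem_mk_right _ _)
    simp [h1, h2]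

theorem row_loop (p : V → Fin 3 → ℝ) (u : V) : row p s(u, u) = 0 := by
  funext w
  rw [row_apply]
  simp

/-- Rows only depend on the positions of the two ends. -/
theorem row_congr {p q : V → Fin 3 → ℝ} {e : Sym2 V} (h : ∀ x ∈ e, p x = q x) :
    row p e = row q e := by
  induction e using Sym2.ind with
  | _ u v =>
    funext w
    rw [row_apply, row_apply, h u (Sym2.mem_mk_left _ _), h v (Sym2.mem_mk_right _ _)]

/-- Row vectors as polynomials in the coordinates of the placement. -/
noncomputable def rowP (e : Sym2 V) (w : V × Fin 3) : MvPolynomial (V × Fin 3) ℝ :=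
  Sym2.lift ⟨fun u v => (if w.1 = u then X (u, w.2) - X (v, w.2) else 0) +
      (if w.1 = v then X (v, w.2) - X (u, w.2) else 0), by
    intro u v; exact add_comm _ _⟩ e

theorem eval_rowP (p : V → Fin 3 → ℝ) (e : Sym2 V) (w : V × Fin 3) :
    eval (fun z : V × Fin 3 => p z.1 z.2) (rowP e w) = row p e w := by
  induction e using Sym2.ind with
  | _ u v =>
    rw [row_apply]
    show eval _ ((if w.1 = u then X (u, w.2) - X (v, w.2) else 0) +
      (if w.1 = v then X (v, w.2) - X (u, w.2) else 0)) = _
    rw [map_add]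
    congr 1
    · split_ifs <;> simp
    · split_ifs <;> simp

omit [DecidableEq V] in
/-- Linear independence of the rows of a real matrix is the nonvanishing of the Gram
determinant. -/
theorem li_iff_gram {I W : Type*} [Fintype I] [DecidableEq I] [Fintype W]
    (A : Matrix I W ℝ) :
    LinearIndependent ℝ (fun i => A i) ↔ (A * A.transpose).det ≠ 0 := by
  rw [Fintype.linearIndependent_iff]
  constructor
  · intro h hd
    obtain ⟨v, hv0, hv⟩ := Matrix.exists_mulVec_eq_zero_iff.mpr hd
    apply hv0
    have h1 : Matrix.vecMul v A ⬝ᵥ Matrix.vecMul v A = 0 := by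
      have : v ⬝ᵥ ((A * A.transpose).mulVec v) = 0 := by rw [hv]; simp
      rw [← Matrix.mulVec_mulVec, Matrix.mulVec_transpose, Matrix.dotProduct_mulVec] at this
      exact this
    have h2 : Matrix.vecMul v A = 0 := dotProduct_self_eq_zero.mp h1
    funext i
    refine h v ?_ i
    funext w
    have := congrFun h2 w
    simp only [Matrix.vecMul, dotProduct, Pi.zero_apply] at this
    simpa [Finset.sum_apply] using this
  · intro h g hg
    by_contra hne
    apply h
    rw [← Matrix.exists_mulVec_eq_zero_iff]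
    refine ⟨g, fun h0 => hne (fun i => by rw [h0]; rfl), ?_⟩
    rw [← Matrix.mulVec_mulVec, Matrix.mulVec_transpose]
    have : Matrix.vecMul g A = 0 := by
      funext w
      have := congrFun hg w
      simp only [Matrix.vecMul, dotProduct, Pi.zero_apply]
      simpa [Finset.sum_apply] using this
    rw [this]
    simp

/-- The Gram determinant of a polynomial family. -/
noncomputable def gramP {σ I W : Type*} [Fintype I] [DecidableEq I] [Fintype W]
    (F : I → W → MvPolynomial σ ℝ) : MvPolynomial σ ℝ :=
  ((Matrix.of F) * (Matrix.of F).transpose).det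

omit [DecidableEq V] in
theorem eval_gramP {σ I W : Type*} [Fintype I] [DecidableEq I] [Fintype W]
    (F : I → W → MvPolynomial σ ℝ) (x : σ → ℝ) :
    eval x (gramP F) ≠ 0 ↔ LinearIndependent ℝ (fun i => fun w => eval x (F i w)) := by
  have hP : eval x (gramP F) =
      ((Matrix.of fun i w => eval x (F i w)) *
        (Matrix.of fun i w => eval x (F i w)).transpose).det := by
    show eval x (Matrix.det _) = _
    rw [RingHom.map_det]
    congr 1
    ext i j
    simp [Matrix.mul_apply]
  rw [hP]
  exact (li_iff_gram (Matrix.of fun i w => eval x (F i w))).symm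

omit [DecidableEq V] in
theorem exists_common {σ K : Type*} [Finite K] (P : K → MvPolynomial σ ℝ)
    (h : ∀ k, P k ≠ 0) : ∃ x : σ → ℝ, ∀ k, eval x (P k) ≠ 0 := by
  classical
  have := Fintype.ofFinite K
  have hprod : (∏ k, P k) ≠ 0 := Finset.prod_ne_zero_iff.mpr fun k _ => h k
  obtain ⟨x, hx⟩ : ∃ x : σ → ℝ, eval x (∏ k, P k) ≠ 0 := by
    by_contra hcon
    push Not at hcon
    exact hprod (MvPolynomial.funext fun x => by rw [hcon x, map_zero])
  refine ⟨x, fun k => ?_⟩
  rw [map_prod] at hx
  exact Finset.prod_ne_zero_iff.mp hx k (Finset.mem_univ k)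

/-- A generic placement: every set of pairs which is independent is independent at `p`, and
any at most four different points are in general position. -/
def Generic (p : V → Fin 3 → ℝ) : Prop :=
  (∀ E : Set (Sym2 V), Indep E → LinearIndepOn ℝ (row p) E) ∧
  ∀ (v : V) (N : Finset V), v ∉ N → N.card ≤ 3 →
    LinearIndepOn ℝ (fun x => p v - p x) (N : Set V)

theorem exists_generic (V : Type*) [DecidableEq V] [Finite V] :
    ∃ p : V → Fin 3 → ℝ, Generic p := by
  classical
  have := Fintype.ofFinite V
  let P1 : {E : Set (Sym2 V) // Indep E} → MvPolynomial (V × Fin 3) ℝ := fun E =>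
    gramP (fun (e : E.1) (w : V × Fin 3) => rowP e.1 w)
  let P2 : {q : V × Finset V // q.1 ∉ q.2 ∧ q.2.card ≤ 3} → MvPolynomial (V × Fin 3) ℝ :=
    fun q => gramP (fun (x : {x : V // x ∈ q.1.2}) (j : Fin 3) =>
      (X (q.1.1, j) - X (x.1, j) : MvPolynomial (V × Fin 3) ℝ))
  have h1 : ∀ (E : {E : Set (Sym2 V) // Indep E}) (p : V → Fin 3 → ℝ),
      eval (fun z : V × Fin 3 => p z.1 z.2) (P1 E) ≠ 0 ↔ LinearIndepOn ℝ (row p) E.1 := by
    intro E p
    show eval _ (gramP _) ≠ 0 ↔ _
    rw [eval_gramP]
    simp only [eval_rowP]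
    exact Iff.rfl
  have h2 : ∀ (q : {q : V × Finset V // q.1 ∉ q.2 ∧ q.2.card ≤ 3}) (p : V → Fin 3 → ℝ),
      eval (fun z : V × Fin 3 => p z.1 z.2) (P2 q) ≠ 0 ↔
        LinearIndepOn ℝ (fun x => p q.1.1 - p x) (q.1.2 : Set V) := by
    intro q p
    show eval _ (gramP _) ≠ 0 ↔ _
    rw [eval_gramP]
    simp only [map_sub, eval_X]
    exact Iff.rfl
  obtain ⟨x, hx⟩ := exists_common (Sum.elim P1 P2) (by
    rintro (E | q)
    · intro h0
      obtain ⟨p, hp⟩ := E.2
      apply (h1 E p).mpr hp
      have h0' : P1 E = 0 := h0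
      rw [h0', map_zero]
    · intro h0
      have h0' : P2 q = 0 := h0
      -- a special placement
      obtain ⟨⟨v, N⟩, hv, hN⟩ := q
      obtain ⟨g⟩ : Nonempty ({x : V // x ∈ N} ↪ Fin 3) :=
        Function.Embedding.nonempty_of_card_le (by simpa using hN)
      let p : V → Fin 3 → ℝ := fun x => if h : x ∈ N then - Pi.single (g ⟨x, h⟩) 1 else 0
      have h3 := (h2 ⟨⟨v, N⟩, hv, hN⟩ p).mpr ?_
      · apply h3
        rw [h0', map_zero]
      · show LinearIndependent ℝ (fun x : {x : V // x ∈ N} => p v - p x.1)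
        have h4 : (fun x : {x : V // x ∈ N} => p v - p x.1) =
            (fun i : Fin 3 => (Pi.single i 1 : Fin 3 → ℝ)) ∘ g := by
          funext x
          have hv' : ¬ v ∈ N := hv
          simp [p, hv', x.2]
        rw [h4]
        exact (Pi.linearIndependent_single_one (Fin 3) ℝ).comp g g.injective)
  have hxx : (fun z : V × Fin 3 => (fun (v : V) (j : Fin 3) => x (v, j)) z.1 z.2) = x := rfl
  refine ⟨fun v j => x (v, j), fun E hE => ?_, fun v N hv hN => ?_⟩
  · have h3 := hx (Sum.inl ⟨E, hE⟩)
    rw [Sum.elim_inl] at h3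
    have h4 := h1 ⟨E, hE⟩ (fun (v : V) (j : Fin 3) => x (v, j))
    rw [hxx] at h4
    exact h4.mp h3
  · have h3 := hx (Sum.inr ⟨⟨v, N⟩, hv, hN⟩)
    rw [Sum.elim_inr] at h3
    have h4 := h2 ⟨⟨v, N⟩, hv, hN⟩ (fun (v : V) (j : Fin 3) => x (v, j))
    rw [hxx] at h4
    exact h4.mp h3

end Pool.Agent.Lib.MP_071ace_co
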