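import Mathlib
import Pool.Agent.Lib.MP_071ace_co.Def

/-!
Stars, 0-extensions and 1-extensions.
-/

set_option autoImplicit false

namespace Pool.Agent.Lib.MP_071ace_co

open Submodule

variable {V : Type*} [DecidableEq V]

/-- The pairs joining `v` to the elements of `N`. -/
def star (v : V) (N : Finset V) : Set (Sym2 V) := (fun x => s(v, x)) '' (N : Set V)

/-- All pairs of different elements of `N`. -/
def pairs (N : Finset V) : Set (Sym2 V) := {e | ∃ a ∈ N, ∃ b ∈ N, a ≠ b ∧ e = s(a, b)}

/-- No pair of `E` contains `v`. -/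
def Avoids (E : Set (Sym2 V)) (v : V) : Prop := ∀ e ∈ E, v ∉ e

/-- The linear map `f ↦ f (v, ·)`. -/
noncomputable def proj (v : V) : (V × Fin 3 → ℝ) →ₗ[ℝ] (Fin 3 → ℝ) :=
  LinearMap.funLeft ℝ ℝ (fun j => (v, j))

omit [DecidableEq V] in
theorem proj_apply (v : V) (f : V × Fin 3 → ℝ) (j : Fin 3) : proj v f j = f (v, j) := rfl

theorem proj_row (p : V → Fin 3 → ℝ) (v x : V) : proj v (row p s(v, x)) = p v - p x := by
  funext j
  rw [proj_apply, row_apply_self]
  rfl

theorem proj_row_not_mem (p : V → Fin 3 → ℝ) {v : V} {e : Sym2 V} (h : v ∉ e) :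
    proj v (row p e) = 0 := by
  funext j
  rw [proj_apply, row_apply_not_mem h]
  rfl

theorem proj_span_avoids (p : V → Fin 3 → ℝ) {v : V} {E : Set (Sym2 V)} (h : Avoids E v)
    {g : V × Fin 3 → ℝ} (hg : g ∈ span ℝ (row p '' E)) : proj v g = 0 := by
  have : span ℝ (row p '' E) ≤ LinearMap.ker (proj v) := by
    rw [span_le]
    rintro _ ⟨e, he, rfl⟩
    exact proj_row_not_mem p (h e he)
  exact this hg

theorem proj_span_star (p : V → Fin 3 → ℝ) {v : V} {E : Set (Sym2 V)} (h : Avoids E v)
    (N : Finset V) {g : V × Fin 3 → ℝ} (hg : g ∈ span ℝ (row p '' (E ∪ star v N))) :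
    proj v g ∈ span ℝ ((fun x => p v - p x) '' (N : Set V)) := by
  have : span ℝ (row p '' (E ∪ star v N)) ≤
      (span ℝ ((fun x => p v - p x) '' (N : Set V))).comap (proj v) := by
    rw [span_le]
    rintro _ ⟨e, he | ⟨x, hx, rfl⟩, rfl⟩
    · rw [SetLike.mem_coe, mem_comap, proj_row_not_mem p (h e he)]
      exact zero_mem _
    · rw [SetLike.mem_coe, mem_comap]
      show proj v (row p s(v, x)) ∈ span ℝ ((fun x => p v - p x) '' (N : Set V))
      rw [proj_row]
      exact subset_span ⟨x, hx, rfl⟩
  exact this hg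

omit [DecidableEq V] in
theorem star_empty (v : V) : star v (∅ : Finset V) = ∅ := by
  simp [star]

theorem star_insert (v x : V) (N : Finset V) : star v (insert x N) = insert s(v, x) (star v N) := by
  simp [star, Set.image_insert_eq]

/-- Adding a star with rows in general position at its centre. -/
theorem star_li (p : V → Fin 3 → ℝ) {v : V} {E : Set (Sym2 V)} (h : Avoids E v)
    (hE : LinearIndepOn ℝ (row p) E) (N : Finset V)
    (hN : LinearIndepOn ℝ (fun x => p v - p x) (N : Set V)) :
    LinearIndepOn ℝ (row p) (E ∪ star v N) := by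
  induction N using Finset.induction_on with
  | empty => rwa [star_empty, Set.union_empty]
  | insert x N hx ih =>
    rw [star_insert, Set.union_insert]
    rw [Finset.coe_insert, linearIndepOn_insert (by exact_mod_cast hx)] at hN
    refine (ih hN.1).insert fun hmem => hN.2 ?_
    have := proj_span_star p h N hmem
    rwa [proj_row] at this

/-- A vector of `S` plus the star whose columns at `v` vanish is in `S`. -/
theorem mem_of_proj (p : V → Fin 3 → ℝ) {v : V} {S : Submodule ℝ (V × Fin 3 → ℝ)}
    (hS : ∀ g ∈ S, proj v g = 0) (N : Finset V)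
    (hN : LinearIndepOn ℝ (fun x => p v - p x) (N : Set V)) {g : V × Fin 3 → ℝ}
    (hg : g ∈ S ⊔ span ℝ (row p '' star v N)) (h0 : proj v g = 0) : g ∈ S := by
  obtain ⟨s, hs, t, ht, rfl⟩ := mem_sup.mp hg
  have ht0 : proj v t = 0 := by
    have := h0
    rw [map_add, hS s hs, zero_add] at this
    exact this
  have him : row p '' star v N = (fun x => row p s(v, x)) '' (N : Set V) := by
    rw [star, Set.image_image]
  rw [him, mem_span_image_finset_iff_exists_fun'] at ht
  obtain ⟨c, hc⟩ := ht
  have h1 : ∑ x ∈ N, c x • (p v - p x) = 0 := by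
    have := ht0
    rw [← hc, map_sum] at this
    simpa [proj_row] using this
  have h2 := linearIndepOn_finset_iff.mp hN c h1
  have h3 : t = 0 := by
    rw [← hc]
    exact Finset.sum_eq_zero fun x hx => by rw [h2 x hx, zero_smul]
  rw [h3, add_zero]
  exact hs

/-- 0-extension. -/
theorem Generic.zero_ext {p : V → Fin 3 → ℝ} (hp : Generic p) {v : V} {E : Set (Sym2 V)}
    (h : Avoids E v) (hE : Indep E) {N : Finset V} (hv : v ∉ N) (hN : N.card ≤ 3) :
    Indep (E ∪ star v N) :=
  ⟨p, star_li p h (hp.1 E hE) N (hp.2 v N hv hN)⟩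

/-- 1-extension. -/
theorem Generic.one_ext {p : V → Fin 3 → ℝ} (hp : Generic p) {v x y : V} {E : Set (Sym2 V)}
    (h : Avoids E v) (hxyE : s(x, y) ∉ E) (hE : Indep (insert s(x, y) E)) {N : Finset V}
    (hv : v ∉ N) (hN : N.card ≤ 4) (hx : x ∈ N) (hy : y ∈ N) (hxy : x ≠ y) :
    Indep (E ∪ star v N) := by
  -- `v` is moved to the midpoint of `x` and `y`
  let q : V → Fin 3 → ℝ := Function.update p v ((1 / 2 : ℝ) • (p x + p y))
  have hvx : x ≠ v := fun h => hv (h ▸ hx)
  have hvy : y ≠ v := fun h => hv (h ▸ hy)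
  have hqv : q v = (1 / 2 : ℝ) • (p x + p y) := by simp [q]
  have hq : ∀ z, z ≠ v → q z = p z := fun z hz => by simp [q, hz]
  have hav : Avoids (insert s(x, y) E) v := by
    rintro e (rfl | he)
    · rw [Sym2.mem_iff]
      push Not
      exact ⟨hvx.symm, hvy.symm⟩
    · exact h e he
  have hrow : ∀ e ∈ insert s(x, y) E, row q e = row p e := fun e he =>
    row_congr fun z hz => hq z fun hzv => hav e he (hzv ▸ hz)
  have hE1 : LinearIndepOn ℝ (row q) (insert s(x, y) E) := by
    have := hp.1 _ hE
    exact this.congr fun e he => (hrow e he).symm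
  let N' := N.erase y
  have hN' : N'.card ≤ 3 := by
    have : N'.card = N.card - 1 := Finset.card_erase_of_mem hy
    omega
  have hxN' : x ∈ N' := Finset.mem_erase.mpr ⟨hxy, hx⟩
  -- general position of the star at the midpoint
  have hli : LinearIndepOn ℝ (fun z => q v - q z) (N' : Set V) := by
    let N'' := N'.erase x
    have hN'' : N''.card ≤ 2 := by
      have : N''.card = N'.card - 1 := Finset.card_erase_of_mem hxN'
      omega
    have hyN'' : y ∉ N'' := fun h => (Finset.mem_erase.mp (Finset.mem_erase.mp h).2).1 rfl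
    have hxN'' : x ∉ insert y N'' := by
      rw [Finset.mem_insert]
      rintro (h | h)
      · exact hxy h
      · exact (Finset.mem_erase.mp h).1 rfl
    have h3 := hp.2 x (insert y N'') hxN'' (by
      rw [Finset.card_insert_of_notMem hyN'']; omega)
    rw [linearIndepOn_finset_iff]
    intro c hc
    have hqz : ∀ z ∈ N', q v - q z = (p x - p z) - (1 / 2 : ℝ) • (p x - p y) := by
      intro z hz
      have hzv : z ≠ v := fun h => hv (h ▸ (Finset.mem_erase.mp hz).2)
      rw [hqv, hq z hzv]
      module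
    have hc2 : ∑ z ∈ N', c z • (p x - p z) + (-(1 / 2 : ℝ) * ∑ z ∈ N', c z) • (p x - p y) = 0 := by
      have hc' : ∑ z ∈ N', c z • (q v - q z) =
          ∑ z ∈ N', (c z • (p x - p z) + (-(1 / 2 : ℝ) * c z) • (p x - p y)) := by
        refine Finset.sum_congr rfl fun z hz => ?_
        rw [hqz z hz]
        module
      rw [← hc, hc', Finset.mul_sum, Finset.sum_smul, ← Finset.sum_add_distrib]
    have hc3 : ∑ z ∈ N', c z • (p x - p z) = ∑ z ∈ N'', c z • (p x - p z) := by
      rw [← Finset.add_sum_erase _ _ hxN', sub_self, smul_zero, zero_add]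
    let d : V → ℝ := fun z => if z = y then -(1 / 2 : ℝ) * ∑ z ∈ N', c z else c z
    have hd : ∑ z ∈ insert y N'', d z • (p x - p z) = 0 := by
      rw [Finset.sum_insert hyN'', ← hc2, hc3, add_comm]
      congr 1
      · refine Finset.sum_congr rfl fun z hz => ?_
        have : z ≠ y := fun h => hyN'' (h ▸ hz)
        simp [d, this]
      · simp [d]
    have h4 := linearIndepOn_finset_iff.mp h3 d hd
    have h5 : ∀ z ∈ N'', c z = 0 := by
      intro z hz
      have : z ≠ y := fun h => hyN'' (h ▸ hz)
      have h6 := h4 z (Finset.mem_insert_of_mem hz)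
      simpa [d, this] using h6
    have h7 : c x = 0 := by
      have h8 := h4 y (Finset.mem_insert_self _ _)
      have h9 : ∑ z ∈ N', c z = 0 := by simpa [d] using h8
      rw [← Finset.add_sum_erase _ _ hxN', Finset.sum_eq_zero h5, add_zero] at h9
      exact h9
    intro z hz
    by_cases hzx : z = x
    · rw [hzx, h7]
    · exact h5 z (Finset.mem_erase.mpr ⟨hzx, hz⟩)
  have h1 := star_li q hav hE1 N' hli
  rw [Set.insert_union] at h1
  have hnot : s(x, y) ∉ E ∪ star v N' := by
    rintro (h2 | ⟨z, _, hz⟩)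
    · exact hxyE h2
    · have : v ∈ s(x, y) := hz ▸ Sym2.mem_mk_left _ _
      exact hav _ (Set.mem_insert _ _) this
  rw [linearIndepOn_insert hnot] at h1
  have hNe : N = insert y N' := (Finset.insert_erase hy).symm
  refine ⟨q, ?_⟩
  rw [hNe, star_insert, Set.union_insert]
  refine h1.1.insert fun hmem => h1.2 ?_
  have hid : row q s(x, y) = (2 : ℝ) • (row q s(v, x) + row q s(v, y)) := by
    funext w
    simp only [Pi.smul_apply, Pi.add_apply, smul_eq_mul, row_apply, hqv, hq x hvx, hq y hvy]
    by_cases h1 : w.1 = v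
    · have h2 : ¬ w.1 = x := fun h => hvx (h.symm.trans h1)
      have h3 : ¬ w.1 = y := fun h => hvy (h.symm.trans h1)
      simp [h1, hvx.symm, hvy.symm]
      ring
    · by_cases h2 : w.1 = x
      · have h3 : ¬ w.1 = y := fun h => hxy (h2.symm.trans h)
        simp [h2, hvx, hxy]
        ring
      · by_cases h3 : w.1 = y
        · simp [h3, hvy, hxy.symm]
          ring
        · simp [h1, h2, h3]
  rw [hid]
  refine smul_mem _ _ (add_mem (subset_span ⟨_, Or.inr ⟨x, hxN', rfl⟩, rfl⟩) hmem)

end Pool.Agent.Lib.MP_071ace_co
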