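import Mathlib
import Pool.Agent.Lib.MP_071ace_co.Ext

/-!
The self-stress of `K_5`, stars over cliques, and the rank of a complete graph.
-/

set_option autoImplicit false

namespace Pool.Agent.Lib.MP_071ace_co

open Submodule

variable {V : Type*} [DecidableEq V]

/-- The rank one self-stress of a complete graph coming from an affine dependency. -/
theorem stress_sum (p : V → Fin 3 → ℝ) (S : Finset V) (l : V → ℝ)
    (h0 : ∑ x ∈ S, l x = 0) (h1 : ∑ x ∈ S, l x • p x = 0) :
    ∑ x ∈ S, ∑ y ∈ S, (l x * l y) • row p s(x, y) = 0 := by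
  funext w
  obtain ⟨z, j⟩ := w
  have h1j : ∑ x ∈ S, l x * p x j = 0 := by
    have := congrFun h1 j
    simpa [Finset.sum_apply] using this
  have key : ∀ x y : V, ((l x * l y) • row p s(x, y)) (z, j) =
      (if z = x then l x * l y * (p x j - p y j) else 0) +
      (if z = y then l x * l y * (p y j - p x j) else 0) := by
    intro x y
    rw [Pi.smul_apply, row_apply, smul_eq_mul, mul_add]
    congr 1
    · split_ifs <;> simp
    · split_ifs <;> simp
  have hA : ∀ x ∈ S, ∑ y ∈ S, (if z = x then l x * l y * (p x j - p y j) else 0) = 0 := by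
    intro x _
    by_cases hzx : z = x
    · simp only [hzx, if_true]
      have : ∑ y ∈ S, l x * l y * (p x j - p y j) =
          l x * (p x j * ∑ y ∈ S, l y - ∑ y ∈ S, l y * p y j) := by
        rw [Finset.mul_sum, ← Finset.sum_sub_distrib, Finset.mul_sum]
        exact Finset.sum_congr rfl fun y _ => by ring
      rw [this, h0, h1j]
      ring
    · simp [hzx]
  have hB : ∀ y ∈ S, ∑ x ∈ S, (if z = y then l x * l y * (p y j - p x j) else 0) = 0 := by
    intro y _
    by_cases hzy : z = y
    · simp only [hzy, if_true]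
      have : ∑ x ∈ S, l x * l y * (p y j - p x j) =
          l y * (p y j * ∑ x ∈ S, l x - ∑ x ∈ S, l x * p x j) := by
        rw [Finset.mul_sum, ← Finset.sum_sub_distrib, Finset.mul_sum]
        exact Finset.sum_congr rfl fun y _ => by ring
      rw [this, h0, h1j]
      ring
    · simp [hzy]
  rw [Finset.sum_apply]
  simp only [Finset.sum_apply, key, Finset.sum_add_distrib]
  rw [Finset.sum_eq_zero hA, Finset.sum_comm, Finset.sum_eq_zero hB]
  simp

/-- Three vectors in general position span. -/
theorem Generic.span_top {p : V → Fin 3 → ℝ} (hp : Generic p) {v : V} {N : Finset V}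
    (hv : v ∉ N) (hN : N.card = 3) : span ℝ ((fun x => p v - p x) '' (N : Set V)) = ⊤ := by
  have h := hp.2 v N hv hN.le
  have h2 : LinearIndependent ℝ (fun x : (N : Set V) => p v - p x.1) := h
  have h3 := h2.span_eq_top_of_card_eq_finrank' (by simp [hN])
  rw [← h3, Set.image_eq_range]

/-- In a `K_5` in general position the row of an edge is a combination of the others. -/
theorem Generic.k5 {p : V → Fin 3 → ℝ} (hp : Generic p) {v d : V} {N : Finset V}
    (hv : v ∉ N) (hd : d ∉ N) (hvd : v ≠ d) (hN : N.card = 3) :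
    row p s(v, d) ∈ span ℝ (row p '' (pairs (insert d N) ∪ star v N)) := by
  have htop : p v - p d ∈ span ℝ ((fun x => p v - p x) '' (N : Set V)) := by
    rw [hp.span_top hv hN]; trivial
  rw [mem_span_image_finset_iff_exists_fun'] at htop
  obtain ⟨c, hc⟩ := htop
  have hvR : v ∉ insert d N := by
    rw [Finset.mem_insert]; push Not; exact ⟨hvd, hv⟩
  let l : V → ℝ := fun x => if x = v then 1 - ∑ x ∈ N, c x else if x = d then -1 else c x
  have hlN : ∀ x ∈ N, l x = c x := by
    intro x hx
    have h1 : x ≠ v := fun h => hv (h ▸ hx)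
    have h2 : x ≠ d := fun h => hd (h ▸ hx)
    simp [l, h1, h2]
  have hlv : l v = 1 - ∑ x ∈ N, c x := by simp [l]
  have hld : l d = -1 := by simp [l, hvd.symm]
  have h0 : ∑ x ∈ insert v (insert d N), l x = 0 := by
    rw [Finset.sum_insert hvR, Finset.sum_insert hd, Finset.sum_congr rfl hlN, hlv, hld]
    ring
  have h1 : ∑ x ∈ insert v (insert d N), l x • p x = 0 := by
    rw [Finset.sum_insert hvR, Finset.sum_insert hd,
      Finset.sum_congr rfl (fun x hx => by rw [hlN x hx]), hlv, hld]
    have h2 : ∑ x ∈ N, c x • (p v - p x) = (∑ x ∈ N, c x) • p v - ∑ x ∈ N, c x • p x := by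
      rw [Finset.sum_smul, ← Finset.sum_sub_distrib]
      exact Finset.sum_congr rfl fun x _ => by module
    rw [h2] at hc
    have h3 : ∑ x ∈ N, c x • p x = (∑ x ∈ N, c x) • p v - (p v - p d) := by
      rw [← hc]; module
    rw [h3]
    module
  have hlv0 : l v ≠ 0 := by
    intro h2
    rw [hlv] at h2
    have h3 : ∑ x ∈ N, c x = 1 := by linarith
    have h4 : ∑ x ∈ N, c x • (p d - p x) = 0 := by
      have h5 : ∑ x ∈ N, c x • (p d - p x) =
          ∑ x ∈ N, c x • (p v - p x) - (∑ x ∈ N, c x) • (p v - p d) := by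
        rw [Finset.sum_smul, ← Finset.sum_sub_distrib]
        exact Finset.sum_congr rfl fun x _ => by module
      rw [h5, hc, h3]
      module
    have h6 := linearIndepOn_finset_iff.mp (hp.2 d N hd hN.le) c h4
    rw [Finset.sum_eq_zero h6] at h3
    exact zero_ne_one h3
  have hst := stress_sum p _ l h0 h1
  set T := span ℝ (row p '' (pairs (insert d N) ∪ star v N)) with hT
  have hpair : ∀ x ∈ insert d N, ∀ y ∈ insert d N, row p s(x, y) ∈ T := by
    intro x hx y hy
    by_cases hxy : x = y
    · subst hxy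
      rw [row_loop]
      exact zero_mem _
    · exact subset_span ⟨_, Or.inl ⟨x, hx, y, hy, hxy, rfl⟩, rfl⟩
  have hstar : ∀ x ∈ N, row p s(v, x) ∈ T := fun x hx =>
    subset_span ⟨_, Or.inr ⟨x, hx, rfl⟩, rfl⟩
  have hexp : ∑ x ∈ insert v (insert d N), ∑ y ∈ insert v (insert d N),
      (l x * l y) • row p s(x, y) =
      (2 : ℝ) • ((l v * l d) • row p s(v, d)) + ((2 : ℝ) • ∑ y ∈ N, (l v * l y) • row p s(v, y) +
      ∑ x ∈ insert d N, ∑ y ∈ insert d N, (l x * l y) • row p s(x, y)) := by
    rw [Finset.sum_insert hvR, Finset.sum_insert hvR, row_loop, smul_zero, zero_add,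
      Finset.sum_congr rfl (fun x _ => Finset.sum_insert hvR), Finset.sum_add_distrib]
    have h5 : ∑ x ∈ insert d N, (l x * l v) • row p s(x, v) =
        ∑ y ∈ insert d N, (l v * l y) • row p s(v, y) :=
      Finset.sum_congr rfl fun x _ => by rw [mul_comm, Sym2.eq_swap]
    rw [h5, Finset.sum_insert hd]
    module
  rw [hexp] at hst
  have h6 : (2 : ℝ) • ((l v * l d) • row p s(v, d)) ∈ T := by
    rw [add_eq_zero_iff_eq_neg] at hst
    rw [hst]
    refine neg_mem (add_mem (smul_mem _ _ (sum_mem fun y hy => smul_mem _ _ (hstar y hy)))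
      (sum_mem fun x hx => sum_mem fun y hy => smul_mem _ _ (hpair x hx y hy)))
  rw [smul_smul] at h6
  have hne : (2 : ℝ) * (l v * l d) ≠ 0 := by
    rw [hld]
    simpa using hlv0
  have h7 := smul_mem T ((2 : ℝ) * (l v * l d))⁻¹ h6
  rwa [smul_smul, inv_mul_cancel₀ hne, one_smul] at h7

/-- The star of a vertex over a clique of `S` has rank at most three modulo `S`. -/
theorem Generic.star_le {p : V → Fin 3 → ℝ} (hp : Generic p) {v : V} {N N0 : Finset V}
    (hv : v ∉ N) (hsub : N0 ⊆ N) (hN0 : N0.card = 3) {S : Submodule ℝ (V × Fin 3 → ℝ)}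
    (hS : row p '' pairs N ⊆ S) :
    span ℝ (row p '' star v N) ≤ S ⊔ span ℝ (row p '' star v N0) := by
  rw [span_le]
  rintro _ ⟨_, ⟨d, hd, rfl⟩, rfl⟩
  by_cases hdN : d ∈ N0
  · exact mem_sup_right (subset_span ⟨_, ⟨d, hdN, rfl⟩, rfl⟩)
  · have h1 := hp.k5 (v := v) (d := d) (fun h => hv (hsub h)) hdN
      (fun h => hv (h ▸ hd)) hN0
    refine (span_le (p := S ⊔ span ℝ (row p '' star v N0))).mpr ?_ h1
    rintro _ ⟨e, he | he, rfl⟩
    · refine mem_sup_left (hS ⟨e, ?_, rfl⟩)
      obtain ⟨a, ha, b, hb, hab, rfl⟩ := he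
      have hin : ∀ x ∈ insert d N0, x ∈ N := by
        intro x hx
        rcases Finset.mem_insert.mp hx with rfl | hx
        · exact hd
        · exact hsub hx
      exact ⟨a, hin a ha, b, hin b hb, hab, rfl⟩
    · exact mem_sup_right (subset_span ⟨e, he, rfl⟩)

theorem pairs_insert (v : V) (W : Finset V) (hv : v ∉ W) :
    pairs (insert v W) = pairs W ∪ star v W := by
  ext e
  constructor
  · rintro ⟨a, ha, b, hb, hab, rfl⟩
    rcases Finset.mem_insert.mp ha with hav | haW
    · rcases Finset.mem_insert.mp hb with hbv | hbW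
      · exact absurd (hav.trans hbv.symm) hab
      · exact Or.inr ⟨b, hbW, by rw [hav]⟩
    · rcases Finset.mem_insert.mp hb with hbv | hbW
      · exact Or.inr ⟨a, haW, by rw [hbv]; exact Sym2.eq_swap⟩
      · exact Or.inl ⟨a, haW, b, hbW, hab, rfl⟩
  · rintro (⟨a, ha, b, hb, hab, rfl⟩ | ⟨x, hx, rfl⟩)
    · exact ⟨a, Finset.mem_insert_of_mem ha, b, Finset.mem_insert_of_mem hb, hab, rfl⟩
    · exact ⟨v, Finset.mem_insert_self _ _, x, Finset.mem_insert_of_mem hx,
        fun h => hv (h ▸ hx), rfl⟩

theorem finrank_star_le (p : V → Fin 3 → ℝ) (v : V) (N : Finset V) :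
    Module.finrank ℝ (span ℝ (row p '' star v N)) ≤ N.card := by
  classical
  have him : row p '' star v N = ((N.image fun x => row p s(v, x) : Finset _) : Set _) := by
    rw [star, Set.image_image, Finset.coe_image]
  rw [him]
  exact (finrank_span_finset_le_card _).trans Finset.card_image_le

/-- The rank of the complete graph on `W` is at most `3 |W| - 6`. -/
theorem Generic.rank_pairs [Finite V] {p : V → Fin 3 → ℝ} (hp : Generic p) (n : ℕ) :
    ∀ W : Finset V, W.card = n + 3 →
      Module.finrank ℝ (span ℝ (row p '' pairs W)) + 6 ≤ 3 * W.card := by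
  classical
  induction n with
  | zero =>
    intro W hW
    obtain ⟨a, b, c, hab, hac, hbc, rfl⟩ := Finset.card_eq_three.mp hW
    have h1 : row p '' pairs {a, b, c} ⊆
        (({row p s(a, b), row p s(a, c), row p s(b, c)} : Finset (V × Fin 3 → ℝ)) : Set _) := by
      rintro _ ⟨_, ⟨x, hx, y, hy, hxy, rfl⟩, rfl⟩
      simp only [Finset.mem_insert, Finset.mem_singleton] at hx hy
      simp only [Finset.coe_insert, Finset.coe_singleton, Set.mem_insert_iff,
        Set.mem_singleton_iff]
      rcases hx with rfl | rfl | rfl <;> rcases hy with rfl | rfl | rfl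
      · exact absurd rfl hxy
      · exact Or.inl rfl
      · exact Or.inr (Or.inl rfl)
      · exact Or.inl (by rw [Sym2.eq_swap])
      · exact absurd rfl hxy
      · exact Or.inr (Or.inr rfl)
      · exact Or.inr (Or.inl (by rw [Sym2.eq_swap]))
      · exact Or.inr (Or.inr (by rw [Sym2.eq_swap]))
      · exact absurd rfl hxy
    have h2 : Module.finrank ℝ (span ℝ (row p '' pairs {a, b, c})) ≤ 3 := by
      refine (Submodule.finrank_mono (span_mono h1)).trans
        ((finrank_span_finset_le_card _).trans Finset.card_le_three)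
    omega
  | succ n ih =>
    intro W hW
    have hne : W.Nonempty := Finset.card_pos.mp (by omega)
    obtain ⟨v, hv⟩ := hne
    have hv' : v ∉ W.erase v := Finset.notMem_erase v W
    have hc : (W.erase v).card = n + 3 := by
      rw [Finset.card_erase_of_mem hv, hW]; rfl
    have h1 := ih _ hc
    obtain ⟨N0, hN0, hN0c⟩ := Finset.exists_subset_card_eq (show 3 ≤ (W.erase v).card by omega)
    have h2 : span ℝ (row p '' pairs W) ≤
        span ℝ (row p '' pairs (W.erase v)) ⊔ span ℝ (row p '' star v N0) := by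
      rw [← Finset.insert_erase hv, pairs_insert v _ hv', Set.image_union, span_union]
      rw [Finset.insert_erase hv]
      exact sup_le le_sup_left (hp.star_le hv' hN0 hN0c subset_span)
    have h3 := Submodule.finrank_mono h2
    have h4 := Submodule.finrank_add_le_finrank_add_finrank
      (span ℝ (row p '' pairs (W.erase v))) (span ℝ (row p '' star v N0))
    have h5 := finrank_star_le p v N0
    omega

end Pool.Agent.Lib.MP_071ace_co
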