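import Mathlib
import Pool.Agent.Lib.MP_071ace_co.K5

/-!
Circuits and the reduction at a vertex whose neighbours form a clique of the closure.
-/

set_option autoImplicit false

namespace Pool.Agent.Lib.MP_071ace_co

open Submodule

variable {V : Type*} [DecidableEq V]

theorem Indep.mono {E F : Set (Sym2 V)} (h : Indep F) (hEF : E ⊆ F) : Indep E := by
  obtain ⟨p, hp⟩ := h
  exact ⟨p, hp.mono hEF⟩

/-- `E` is independent and `insert f E` is a circuit. -/
structure Circ (E : Set (Sym2 V)) (f : Sym2 V) : Prop where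
  indep : Indep E
  nmem : f ∉ E
  dep : ¬ Indep (insert f E)
  min : ∀ e ∈ E, Indep (insert f (E \ {e}))

/-- The neighbours of `x` in the set `C` of pairs. -/
noncomputable def nb [Finite V] (C : Set (Sym2 V)) (x : V) : Finset V :=
  (Set.toFinite {y | s(x, y) ∈ C}).toFinset

theorem mem_nb [Finite V] {C : Set (Sym2 V)} {x y : V} : y ∈ nb C x ↔ s(x, y) ∈ C := by
  simp [nb]

/-- The pairs of `C` which do not contain `x`. -/
def del (C : Set (Sym2 V)) (x : V) : Set (Sym2 V) := {e | e ∈ C ∧ x ∉ e}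

/-- `f` lies in a `K_5` of the closure of `E`. -/
def K5at (p : V → Fin 3 → ℝ) (E : Set (Sym2 V)) (f : Sym2 V) : Prop :=
  ∃ s : Finset V, s.card = 5 ∧ f ∈ pairs s ∧ ∀ e ∈ pairs s, row p e ∈ span ℝ (row p '' E)

theorem del_avoids (C : Set (Sym2 V)) (x : V) : Avoids (del C x) x := fun _ he => he.2

theorem del_union_star [Finite V] (C : Set (Sym2 V)) (x : V) :
    C = del C x ∪ star x (nb C x) := by
  ext e
  constructor
  · intro he
    by_cases hx : x ∈ e
    · obtain ⟨y, rfl⟩ := Sym2.mem_iff_exists.mp hx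
      exact Or.inr ⟨y, mem_nb.mpr he, rfl⟩
    · exact Or.inl ⟨he, hx⟩
  · rintro (he | ⟨y, hy, rfl⟩)
    · exact he.1
    · exact mem_nb.mp hy

theorem Indep.not_loop {E : Set (Sym2 V)} (h : Indep E) (x : V) : s(x, x) ∉ E := by
  intro hx
  obtain ⟨p, hp⟩ := h
  exact hp.ne_zero (i := s(x, x)) hx (row_loop p x)

section Circuits

variable {p : V → Fin 3 → ℝ} (hp : Generic p) {E : Set (Sym2 V)} {f : Sym2 V}

include hp in
theorem Generic.indep_insert_iff {E : Set (Sym2 V)} (hE : Indep E) {e : Sym2 V} (he : e ∉ E) :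
    Indep (insert e E) ↔ row p e ∉ span ℝ (row p '' E) := by
  constructor
  · intro h
    exact ((linearIndepOn_insert he).mp (hp.1 _ h)).2
  · intro h
    exact ⟨p, (hp.1 _ hE).insert h⟩

include hp in
theorem Circ.mem_span (h : Circ E f) : row p f ∈ span ℝ (row p '' E) := by
  by_contra hcon
  exact h.dep ((hp.indep_insert_iff h.indep h.nmem).mpr hcon)

theorem Circ.sub_indep (h : Circ E f) {e : Sym2 V} (he : e ∈ insert f E) :
    Indep (insert f E \ {e}) := by
  rcases he with rfl | he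
  · refine h.indep.mono ?_
    rintro a ⟨rfl | ha, hne⟩
    · exact absurd rfl hne
    · exact ha
  · refine (h.min e he).mono ?_
    rintro a ⟨rfl | ha, hne⟩
    · exact Or.inl rfl
    · exact Or.inr ⟨ha, hne⟩

include hp in
theorem Circ.row_mem (h : Circ E f) {e : Sym2 V} (he : e ∈ insert f E) :
    row p e ∈ span ℝ (row p '' E) := by
  rcases he with rfl | he
  · exact h.mem_span hp
  · exact subset_span ⟨e, he, rfl⟩

theorem Circ.not_loop (h : Circ E f) (hf : ¬ f.IsDiag) (x : V) : s(x, x) ∉ insert f E := by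
  rintro (hx | hx)
  · exact hf (hx ▸ (Sym2.mk_isDiag_iff.mpr rfl))
  · exact h.indep.not_loop x hx

theorem Circ.not_mem_nb [Finite V] (h : Circ E f) (hf : ¬ f.IsDiag) (x : V) :
    x ∉ nb (insert f E) x := fun hx => h.not_loop hf x (mem_nb.mp hx)

theorem Circ.del_indep [Finite V] (h : Circ E f) {x : V} (hx : (nb (insert f E) x).Nonempty) :
    Indep (del (insert f E) x) := by
  obtain ⟨y, hy⟩ := hx
  refine (h.sub_indep (mem_nb.mp hy)).mono ?_
  rintro e ⟨he, hxe⟩
  refine ⟨he, fun h1 => hxe ?_⟩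
  rw [Set.mem_singleton_iff] at h1
  rw [h1]
  exact Sym2.mem_mk_left _ _

include hp in
/-- Every vertex of a circuit has degree at least four. -/
theorem Circ.four_le [Finite V] (h : Circ E f) (hf : ¬ f.IsDiag) {x : V}
    (hx : (nb (insert f E) x).Nonempty) : 4 ≤ (nb (insert f E) x).card := by
  by_contra hcon
  apply h.dep
  rw [del_union_star (insert f E) x]
  exact hp.zero_ext (del_avoids _ x) (h.del_indep hx) (h.not_mem_nb hf x) (by omega)

include hp in
/-- The neighbours of a vertex of degree four of a circuit form a clique of the closure of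
the rest of the circuit. -/
theorem Circ.clique_four [Finite V] (h : Circ E f) (hf : ¬ f.IsDiag) {x : V}
    (hx : (nb (insert f E) x).card = 4) :
    ∀ e ∈ pairs (nb (insert f E) x), row p e ∈ span ℝ (row p '' del (insert f E) x) := by
  rintro _ ⟨a, ha, b, hb, hab, rfl⟩
  have hne : (nb (insert f E) x).Nonempty := ⟨a, ha⟩
  by_contra hcon
  have hnot : s(a, b) ∉ del (insert f E) x := fun hm => hcon (subset_span ⟨_, hm, rfl⟩)
  apply h.dep
  rw [del_union_star (insert f E) x]
  exact hp.one_ext (del_avoids _ x) hnot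
    ((hp.indep_insert_iff (h.del_indep hne) hnot).mpr hcon)
    (h.not_mem_nb hf x) hx.le ha hb hab

include hp in
theorem Circ.span_del_le (h : Circ E f) (x : V) :
    span ℝ (row p '' del (insert f E) x) ≤ span ℝ (row p '' E) := by
  rw [span_le]
  rintro _ ⟨e, he, rfl⟩
  exact h.row_mem hp he.1

include hp in
/-- If `x` and its neighbours form a clique of the closure then every edge of the clique is in
a `K_5`. -/
theorem Circ.k5_of_clique [Finite V] (h : Circ E f) (hf : ¬ f.IsDiag) {x : V}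
    (hx : (nb (insert f E) x).Nonempty)
    (hcl : ∀ e ∈ pairs (nb (insert f E) x), row p e ∈ span ℝ (row p '' E))
    {a b : V} (hab : a ≠ b) (ha : a ∈ insert x (nb (insert f E) x))
    (hb : b ∈ insert x (nb (insert f E) x)) : K5at p E s(a, b) := by
  have h4 := h.four_le hp hf hx
  have hxn := h.not_mem_nb hf x
  have hcard : 5 ≤ (insert x (nb (insert f E) x)).card := by
    rw [Finset.card_insert_of_notMem hxn]; omega
  have hsub : ({a, b} : Finset V) ⊆ insert x (nb (insert f E) x) := by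
    intro z hz
    rw [Finset.mem_insert, Finset.mem_singleton] at hz
    rcases hz with rfl | rfl
    · exact ha
    · exact hb
  obtain ⟨s, hs1, hs2, hs3⟩ := Finset.exists_subsuperset_card_eq hsub
    (show ({a, b} : Finset V).card ≤ 5 from (Finset.card_le_two).trans (by norm_num)) hcard
  refine ⟨s, hs3, ⟨a, hs1 (by simp), b, hs1 (by simp), hab, rfl⟩, ?_⟩
  rintro _ ⟨c, hc, d, hd, hcd, rfl⟩
  have hall : ∀ e ∈ pairs (insert x (nb (insert f E) x)), row p e ∈ span ℝ (row p '' E) := by
    rw [pairs_insert x _ hxn]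
    rintro e (he | ⟨y, hy, rfl⟩)
    · exact hcl e he
    · exact h.row_mem hp (mem_nb.mp hy)
  exact hall _ ⟨c, hs2 hc, d, hs2 hd, hcd, rfl⟩

/-- Extraction of a circuit. -/
theorem Generic.extract [Finite V] (hp : Generic p) (hE : Indep E) (hfE : f ∉ E)
    (hf : row p f ∈ span ℝ (row p '' E)) : ∃ E' ⊆ E, Circ E' f := by
  have hfin : {F : Set (Sym2 V) | F ⊆ E ∧ row p f ∈ span ℝ (row p '' F)}.Finite :=
    Set.toFinite _
  obtain ⟨F, ⟨hFE, hFf⟩, hmin⟩ := hfin.exists_minimal ⟨E, subset_rfl, hf⟩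
  have hfF : f ∉ F := fun h => hfE (hFE h)
  have hFi : Indep F := hE.mono hFE
  refine ⟨F, hFE, hFi, hfF, ?_, ?_⟩
  · rw [hp.indep_insert_iff hFi hfF]
    exact fun h => h hFf
  · intro e he
    have hfe : f ∉ F \ {e} := fun h => hfF h.1
    rw [hp.indep_insert_iff (hFi.mono Set.sdiff_subset) hfe]
    intro hcon
    have := hmin ⟨Set.sdiff_subset.trans hFE, hcon⟩ Set.sdiff_subset
    exact (this he).2 rfl

include hp in
/-- Reduction at a vertex whose neighbours form a clique of the closure. -/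
theorem Circ.reduce [Finite V] (h : Circ E f) (hf : ¬ f.IsDiag) {x : V} (hxf : x ∉ f)
    (hx : (nb (insert f E) x).Nonempty)
    (hcl : ∀ e ∈ pairs (nb (insert f E) x), row p e ∈ span ℝ (row p '' E))
    (hK : ¬ K5at p E f) :
    ∃ E', Circ E' f ∧ ¬ K5at p E' f ∧ span ℝ (row p '' E') ≤ span ℝ (row p '' E) ∧
      (∀ e ∈ E', e ∈ E ∨ e ∈ pairs (nb (insert f E) x)) ∧ (∀ e ∈ E', x ∉ e) := by
  have h4 := h.four_le hp hf hx
  set N := nb (insert f E) x with hN
  have hxN : x ∉ N := h.not_mem_nb hf x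
  obtain ⟨N0, hN0, hN0c⟩ := Finset.exists_subset_card_eq (show 3 ≤ N.card by omega)
  -- the span of the rest
  let S := span ℝ (row p '' (del E x ∪ pairs N))
  have hSx : Avoids (del E x ∪ pairs N) x := by
    rintro e (he | ⟨a, ha, b, hb, hab, rfl⟩)
    · exact he.2
    · rw [Sym2.mem_iff]
      push Not
      exact ⟨fun h => hxN (h ▸ ha), fun h => hxN (h ▸ hb)⟩
  have hSE : S ≤ span ℝ (row p '' E) := by
    rw [span_le]
    rintro _ ⟨e, he | he, rfl⟩
    · exact subset_span ⟨e, he.1, rfl⟩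
    · exact hcl e he
  have hstar : span ℝ (row p '' star x N) ≤ S ⊔ span ℝ (row p '' star x N0) :=
    hp.star_le hxN hN0 hN0c (by
      rintro _ ⟨e, he, rfl⟩
      exact subset_span ⟨e, Or.inr he, rfl⟩)
  have hfS : row p f ∈ S := by
    have h1 : row p f ∈ S ⊔ span ℝ (row p '' star x N0) := by
      refine (span_le (p := S ⊔ span ℝ (row p '' star x N0))).mpr ?_ (h.mem_span hp)
      rintro _ ⟨e, he, rfl⟩
      by_cases hxe : x ∈ e
      · obtain ⟨y, rfl⟩ := Sym2.mem_iff_exists.mp hxe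
        exact hstar (subset_span ⟨_, ⟨y, mem_nb.mpr (Or.inr he), rfl⟩, rfl⟩)
      · exact mem_sup_left (subset_span ⟨e, Or.inl ⟨he, hxe⟩, rfl⟩)
    exact mem_of_proj p (fun g hg => proj_span_avoids p hSx hg) N0
      (hp.2 x N0 (fun h => hxN (hN0 h)) hN0c.le) h1 (proj_row_not_mem p hxf)
  -- a base of `S` containing `del E x`
  obtain ⟨F, hF1, hF2, hF3, hF4⟩ := exists_linearIndepOn_extension
    (K := ℝ) (v := row p) (s := del E x) (t := del E x ∪ pairs N)
    ((hp.1 _ h.indep).mono fun e he => he.1) Set.subset_union_left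
  have hfF : f ∉ F := by
    intro hfF
    rcases hF1 hfF with h5 | ⟨a, ha, b, hb, hab, rfl⟩
    · exact h.nmem h5.1
    · exact hK (h.k5_of_clique hp hf hx hcl hab (Finset.mem_insert_of_mem ha)
        (Finset.mem_insert_of_mem hb))
  have hspan : S ≤ span ℝ (row p '' F) := by
    rw [span_le]
    rintro _ ⟨e, he, rfl⟩
    exact hF3 ⟨e, he, rfl⟩
  obtain ⟨E', hE'F, hE'⟩ := hp.extract ⟨p, hF4⟩ hfF (hspan hfS)
  have hle : span ℝ (row p '' E') ≤ span ℝ (row p '' E) :=
    (span_mono (Set.image_mono (hE'F.trans hF1))).trans hSE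
  refine ⟨E', hE', ?_, hle, ?_, ?_⟩
  · rintro ⟨s, hs1, hs2, hs3⟩
    exact hK ⟨s, hs1, hs2, fun e he => hle (hs3 e he)⟩
  · intro e he
    rcases hF1 (hE'F he) with h6 | h6
    · exact Or.inl h6.1
    · exact Or.inr h6
  · intro e he
    exact hSx e (hF1 (hE'F he))

end Circuits

end Pool.Agent.Lib.MP_071ace_co
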