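import Mathlib
import Pool.Agent.Lib.MP_071ace_co.Circ

/-!
The reduction at a vertex of degree four, and its iteration.
-/

set_option autoImplicit false

namespace Pool.Agent.Lib.MP_071ace_co

open Submodule

variable {V : Type*} [DecidableEq V]
variable {p : V → Fin 3 → ℝ} (hp : Generic p) {E : Set (Sym2 V)} {f : Sym2 V}

include hp in
/-- The two ends of `f` have no degree four if `f` is in no `K_5`. -/
theorem Circ.not_mem_of_four [Finite V] (h : Circ E f) (hf : ¬ f.IsDiag) {x : V}
    (hx : (nb (insert f E) x).card = 4) (hK : ¬ K5at p E f) : x ∉ f := by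
  intro hxf
  obtain ⟨y, rfl⟩ := Sym2.mem_iff_exists.mp hxf
  have hy : y ∈ nb (insert s(x, y) E) x := mem_nb.mpr (Set.mem_insert _ _)
  have hxy : x ≠ y := fun h1 => hf (Sym2.mk_isDiag_iff.mpr h1)
  exact hK (h.k5_of_clique hp hf ⟨y, hy⟩
    (fun e he => h.span_del_le hp x (h.clique_four hp hf hx e he)) hxy
    (Finset.mem_insert_self _ _) (Finset.mem_insert_of_mem hy))

include hp in
/-- Reduction at a vertex of degree four. -/
theorem Circ.reduce_four [Finite V] (h : Circ E f) (hf : ¬ f.IsDiag) {x : V}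
    (hx : (nb (insert f E) x).card = 4) (hK : ¬ K5at p E f) :
    ∃ E', Circ E' f ∧ ¬ K5at p E' f ∧ span ℝ (row p '' E') ≤ span ℝ (row p '' E) ∧
      (∀ e ∈ E', e ∈ E ∨ e ∈ pairs (nb (insert f E) x)) ∧ (∀ e ∈ E', x ∉ e) ∧
      ∀ y, (nb (insert f E') y).card ≤ (nb (insert f E) y).card := by
  have hxf := h.not_mem_of_four hp hf hx hK
  have hcl := h.clique_four hp hf hx
  set N := nb (insert f E) x with hN
  have hxN : x ∉ N := h.not_mem_nb hf x
  have hNne : N.Nonempty := Finset.card_pos.mp (by omega)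
  have hNE : ∀ y ∈ N, s(x, y) ∈ E := by
    intro y hy
    rcases mem_nb.mp hy with h1 | h1
    · exact absurd (h1 ▸ Sym2.mem_mk_left _ _) hxf
    · exact h1
  have hdel : del (insert f E) x = insert f (del E x) := by
    ext e
    constructor
    · rintro ⟨rfl | he, hxe⟩
      · exact Or.inl rfl
      · exact Or.inr ⟨he, hxe⟩
    · rintro (rfl | he)
      · exact ⟨Or.inl rfl, hxf⟩
      · exact ⟨Or.inr he.1, he.2⟩
  have hdi : Indep (del E x) := h.indep.mono fun e he => he.1
  -- some pair of neighbours is not in the closure of `del E x`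
  obtain ⟨j, hj, hjn⟩ : ∃ j ∈ pairs N, row p j ∉ span ℝ (row p '' del E x) := by
    by_contra hcon
    push Not at hcon
    obtain ⟨N0, hN0, hN0c⟩ := Finset.exists_subset_card_eq (show 3 ≤ N.card by omega)
    obtain ⟨d, hd, hdn⟩ : ∃ d ∈ N, d ∉ N0 := by
      by_contra h5
      push Not at h5
      have := Finset.card_le_card h5
      omega
    have h1 := hp.star_le hxN hN0 hN0c (S := span ℝ (row p '' del E x)) (by
      rintro _ ⟨e, he, rfl⟩
      exact hcon e he)
    have h2 : row p s(x, d) ∈ span ℝ (row p '' (E \ {s(x, d)})) := by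
      have h3 : span ℝ (row p '' del E x) ⊔ span ℝ (row p '' star x N0) ≤
          span ℝ (row p '' (E \ {s(x, d)})) := by
        refine sup_le ?_ ?_
        · refine span_mono (Set.image_mono fun e he => ⟨he.1, fun h4 => he.2 ?_⟩)
          rw [Set.mem_singleton_iff] at h4
          rw [h4]
          exact Sym2.mem_mk_left _ _
        · refine span_mono (Set.image_mono ?_)
          rintro _ ⟨y, hy, rfl⟩
          refine ⟨hNE y (hN0 hy), fun h4 => hdn ?_⟩
          have h5 : s(x, y) = s(x, d) := h4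
          rw [Sym2.congr_right] at h5
          exact h5 ▸ hy
      exact h3 (h1 (subset_span ⟨_, ⟨d, hd, rfl⟩, rfl⟩))
    have h6 := hp.1 _ h.indep
    have h7 : E = insert s(x, d) (E \ {s(x, d)}) := by
      rw [Set.insert_sdiff_singleton, Set.insert_eq_of_mem (hNE d hd)]
    rw [h7, linearIndepOn_insert (fun h => h.2 rfl)] at h6
    exact h6.2 h2
  obtain ⟨a, ha, b, hb, hab, rfl⟩ := hj
  have hjd : s(a, b) ∉ del E x := fun h1 => hjn (subset_span ⟨_, h1, rfl⟩)
  have hE1 : Indep (insert s(a, b) (del E x)) := (hp.indep_insert_iff hdi hjd).mpr hjn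
  have hfS : row p f ∈ span ℝ (row p '' insert s(a, b) (del E x)) := by
    rw [Set.image_insert_eq]
    refine mem_span_insert_exchange ?_ hjn
    rw [← Set.image_insert_eq, ← hdel]
    exact hcl _ ⟨a, ha, b, hb, hab, rfl⟩
  have hclE : ∀ e ∈ pairs N, row p e ∈ span ℝ (row p '' E) := fun e he =>
    h.span_del_le hp x (hcl e he)
  have hfE1 : f ∉ insert s(a, b) (del E x) := by
    rintro (rfl | h1)
    · exact hK (h.k5_of_clique hp hf hNne hclE hab (Finset.mem_insert_of_mem ha)
        (Finset.mem_insert_of_mem hb))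
    · exact h.nmem h1.1
  obtain ⟨E', hE'E1, hE'⟩ := hp.extract hE1 hfE1 hfS
  have hmemE1 : ∀ e ∈ E', e = s(a, b) ∨ (e ∈ E ∧ x ∉ e) := fun e he => hE'E1 he
  have hle : span ℝ (row p '' E') ≤ span ℝ (row p '' E) := by
    rw [span_le]
    rintro _ ⟨e, he, rfl⟩
    rcases hmemE1 e he with rfl | h1
    · exact hclE _ ⟨a, ha, b, hb, hab, rfl⟩
    · exact subset_span ⟨e, h1.1, rfl⟩
  have hxab : x ∉ s(a, b) := by
    rw [Sym2.mem_iff]
    push Not
    exact ⟨fun h => hxN (h ▸ ha), fun h => hxN (h ▸ hb)⟩
  refine ⟨E', hE', ?_, hle, ?_, ?_, ?_⟩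
  · rintro ⟨s, hs1, hs2, hs3⟩
    exact hK ⟨s, hs1, hs2, fun e he => hle (hs3 e he)⟩
  · intro e he
    rcases hmemE1 e he with rfl | h1
    · exact Or.inr ⟨a, ha, b, hb, hab, rfl⟩
    · exact Or.inl h1.1
  · intro e he
    rcases hmemE1 e he with rfl | h1
    · exact hxab
    · exact h1.2
  · -- degrees do not increase
    have key : ∀ y z, z ∈ nb (insert f E') y → s(y, z) = s(a, b) ∨
        (z ∈ nb (insert f E) y ∧ z ≠ x) := by
      intro y z hz
      rcases mem_nb.mp hz with h1 | h1
      · refine Or.inr ⟨mem_nb.mpr (Or.inl h1), fun h2 => hxf ?_⟩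
        rw [← h1, ← h2]
        exact Sym2.mem_mk_right _ _
      · rcases hmemE1 _ h1 with h2 | h2
        · exact Or.inl h2
        · refine Or.inr ⟨mem_nb.mpr (Or.inr h2.1), fun h3 => h2.2 ?_⟩
          rw [← h3]
          exact Sym2.mem_mk_right _ _
    have hend : ∀ a' b', a' ∈ N → s(a', b') = s(a, b) →
        (nb (insert f E') a').card ≤ (nb (insert f E) a').card := by
      intro a' b' ha' h1
      have hxa : x ∈ nb (insert f E) a' := by
        rw [mem_nb, Sym2.eq_swap]
        exact mem_nb.mp ha'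
      have hsub : nb (insert f E') a' ⊆ insert b' ((nb (insert f E) a').erase x) := by
        intro z hz
        rcases key a' z hz with h2 | h2
        · rw [← h1, Sym2.congr_right] at h2
          exact h2 ▸ Finset.mem_insert_self _ _
        · exact Finset.mem_insert_of_mem (Finset.mem_erase.mpr ⟨h2.2, h2.1⟩)
      have h3 := Finset.card_le_card hsub
      have h4 := Finset.card_insert_le b' ((nb (insert f E) a').erase x)
      have h5 := Finset.card_erase_add_one hxa
      omega
    intro y
    by_cases hya : y = a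
    · exact hya ▸ hend a b ha rfl
    · by_cases hyb : y = b
      · exact hyb ▸ hend b a hb Sym2.eq_swap
      · refine Finset.card_le_card fun z hz => ?_
        rcases key y z hz with h2 | h2
        · exfalso
          have h3 : y ∈ s(a, b) := h2 ▸ Sym2.mem_mk_left _ _
          rw [Sym2.mem_iff] at h3
          rcases h3 with h3 | h3
          · exact hya h3
          · exact hyb h3
        · exact h2.1

/-- The number of vertices of positive degree. -/
noncomputable def nv [Finite V] (C : Set (Sym2 V)) : ℕ := {x : V | (nb C x).Nonempty}.ncard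

theorem nv_lt [Finite V] {C C' : Set (Sym2 V)} {x : V} (hx : (nb C x).Nonempty)
    (hx' : ∀ e ∈ C', x ∉ e) (h : ∀ y, (nb C' y).Nonempty → (nb C y).Nonempty) :
    nv C' < nv C := by
  refine Set.ncard_lt_ncard ?_ (Set.toFinite _)
  refine ⟨fun y hy => h y hy, fun hsub => ?_⟩
  obtain ⟨z, hz⟩ : (nb C' x).Nonempty := hsub hx
  exact hx' _ (mem_nb.mp hz) (Sym2.mem_mk_left _ _)

include hp in
/-- Iterating the reduction at vertices of degree four: a circuit of minimum degree five. -/
theorem Circ.min_five [Finite V] (hf : ¬ f.IsDiag) (n : ℕ) :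
    ∀ E, nv (insert f E) ≤ n → Circ E f → ¬ K5at p E f →
      ∃ E', Circ E' f ∧ ¬ K5at p E' f ∧ span ℝ (row p '' E') ≤ span ℝ (row p '' E) ∧
        (∀ y, (nb (insert f E') y).card ≤ (nb (insert f E) y).card) ∧
        ∀ y, (nb (insert f E') y).Nonempty → 5 ≤ (nb (insert f E') y).card := by
  induction n using Nat.strong_induction_on with
  | _ n ih =>
    intro E hn h hK
    by_cases h5 : ∀ y, (nb (insert f E) y).Nonempty → 5 ≤ (nb (insert f E) y).card
    · exact ⟨E, h, hK, le_rfl, fun _ => le_rfl, h5⟩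
    · push Not at h5
      obtain ⟨x, hx, hx5⟩ := h5
      have hx4 : (nb (insert f E) x).card = 4 := by
        have := h.four_le hp hf hx
        omega
      obtain ⟨E1, h1, hK1, hle1, hsub1, hx1, hdeg1⟩ := h.reduce_four hp hf hx4 hK
      have hxf := h.not_mem_of_four hp hf hx4 hK
      have hlt : nv (insert f E1) < nv (insert f E) := by
        refine nv_lt hx ?_ ?_
        · rintro e (rfl | he)
          · exact hxf
          · exact hx1 e he
        · intro y hy
          have := hdeg1 y
          exact Finset.card_pos.mp (lt_of_lt_of_le (Finset.card_pos.mpr hy) this)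
      obtain ⟨E2, h2, hK2, hle2, hdeg2, hmin2⟩ := ih (nv (insert f E1)) (by omega) E1 le_rfl h1 hK1
      exact ⟨E2, h2, hK2, hle2.trans hle1, fun y => (hdeg2 y).trans (hdeg1 y), hmin2⟩

/-- `T` has a perfect elimination order (given by `ord`) with at most four later neighbours. -/
def Elim4 (T : Set (Sym2 V)) (ord : V → ℕ) : Prop :=
  ∀ x, {y | s(x, y) ∈ T ∧ ord x < ord y}.ncard ≤ 4 ∧
    ∀ y z, s(x, y) ∈ T → ord x < ord y → s(x, z) ∈ T → ord x < ord z → y ≠ z → s(y, z) ∈ T

include hp in
/-- If the circuit lies in a chordal graph of clique number at most five then `f` is in a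
`K_5` of the closure. -/
theorem Circ.elim [Finite V] (hf : ¬ f.IsDiag) {T : Set (Sym2 V)} {ord : V → ℕ}
    (hord : Function.Injective ord) (hT : Elim4 T ord) (n : ℕ) :
    ∀ E, nv (insert f E) ≤ n → insert f E ⊆ T → Circ E f → K5at p E f := by
  induction n using Nat.strong_induction_on with
  | _ n ih =>
    intro E hn hET h
    by_contra hK
    obtain ⟨u, hu⟩ : ∃ u, u ∈ f := ⟨_, Sym2.out_fst_mem f⟩
    obtain ⟨w, hw⟩ := Sym2.mem_iff_exists.mp hu
    have hune : (nb (insert f E) u).Nonempty := ⟨w, mem_nb.mpr (Or.inl hw.symm)⟩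
    obtain ⟨x, hx, hxmin⟩ := (Set.toFinite {x : V | (nb (insert f E) x).Nonempty}).exists_minimalFor
      ord _ ⟨u, hune⟩
    have hx : (nb (insert f E) x).Nonempty := hx
    have hlater : ∀ y ∈ nb (insert f E) x, s(x, y) ∈ T ∧ ord x < ord y := by
      intro y hy
      refine ⟨hET (mem_nb.mp hy), ?_⟩
      have hyne : (nb (insert f E) y).Nonempty :=
        ⟨x, mem_nb.mpr (by rw [Sym2.eq_swap]; exact mem_nb.mp hy)⟩
      have hxy : x ≠ y := fun h1 => h.not_mem_nb hf x (h1 ▸ hy : x ∈ _)
      rcases lt_trichotomy (ord x) (ord y) with h1 | h1 | h1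
      · exact h1
      · exact absurd (hord h1) hxy
      · exact absurd (hxmin hyne h1.le) (by omega)
    have hcard : (nb (insert f E) x).card ≤ 4 := by
      refine le_trans ?_ (hT x).1
      rw [← Set.ncard_coe_finset]
      exact Set.ncard_le_ncard (fun y hy => hlater y hy) (Set.toFinite _)
    have hx4 : (nb (insert f E) x).card = 4 := le_antisymm hcard (h.four_le hp hf hx)
    obtain ⟨E1, h1, hK1, hle1, hsub1, hx1, hdeg1⟩ := h.reduce_four hp hf hx4 hK
    have hxf := h.not_mem_of_four hp hf hx4 hK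
    have hlt : nv (insert f E1) < nv (insert f E) := by
      refine nv_lt hx ?_ ?_
      · rintro e (rfl | he)
        · exact hxf
        · exact hx1 e he
      · intro y hy
        have := hdeg1 y
        exact Finset.card_pos.mp (lt_of_lt_of_le (Finset.card_pos.mpr hy) this)
    refine hK1 (ih (nv (insert f E1)) (by omega) E1 le_rfl ?_ h1)
    rintro e (rfl | he)
    · exact hET (Or.inl rfl)
    · rcases hsub1 e he with h2 | ⟨a, ha, b, hb, hab, rfl⟩
      · exact hET (Or.inr h2)
      · exact (hT x).2 a b (hlater a ha).1 (hlater a ha).2 (hlater b hb).1 (hlater b hb).2 hab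

end Pool.Agent.Lib.MP_071ace_co
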