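import Mathlib
import Pool.Agent.Lib.MP_071ace_co.Four

/-!
Circuits which do not put `f` into a `K_5` are flexible; counting.
-/

set_option autoImplicit false

namespace Pool.Agent.Lib.MP_071ace_co

open Submodule

variable {V : Type*} [DecidableEq V]
variable {p : V → Fin 3 → ℝ} (hp : Generic p) {E : Set (Sym2 V)} {f : Sym2 V}

/-- The vertices of positive degree. -/
noncomputable def verts [Finite V] (C : Set (Sym2 V)) : Finset V :=
  (Set.toFinite {x | (nb C x).Nonempty}).toFinset

theorem mem_verts [Finite V] {C : Set (Sym2 V)} {x : V} : x ∈ verts C ↔ (nb C x).Nonempty := by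
  simp [verts]

include hp in
theorem Circ.finrank [Finite V] (h : Circ E f) :
    Module.finrank ℝ (span ℝ (row p '' E)) = E.ncard := by
  classical
  have := Fintype.ofFinite V
  have h1 : LinearIndependent ℝ (fun e : E => row p e.1) := hp.1 _ h.indep
  have := Fintype.ofFinite E
  have h2 := finrank_span_eq_card h1
  rw [← Set.image_eq_range] at h2
  rw [h2, Set.ncard_eq_toFinset_card', Set.toFinset_card]

theorem Circ.subset_pairs [Finite V] (h : Circ E f) (hf : ¬ f.IsDiag) :
    insert f E ⊆ pairs (verts (insert f E)) := by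
  intro e
  induction e using Sym2.ind with
  | _ a b =>
    intro he
    refine ⟨a, mem_verts.mpr ⟨b, mem_nb.mpr he⟩, b,
      mem_verts.mpr ⟨a, mem_nb.mpr (by rw [Sym2.eq_swap]; exact he)⟩, ?_, rfl⟩
    rintro rfl
    exact h.not_loop hf a he

include hp in
/-- A circuit whose edge `f` is in no `K_5` of the closure is flexible. -/
theorem Circ.flexible [Finite V] (h : Circ E f) (hf : ¬ f.IsDiag) (hK : ¬ K5at p E f) :
    (insert f E).ncard + 6 ≤ 3 * (verts (insert f E)).card := by
  classical
  set W := verts (insert f E) with hW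
  have hfW := h.subset_pairs hf (Set.mem_insert f E)
  obtain ⟨a, ha, b, hb, hab, hfab⟩ := hfW
  have hcard : (insert f E).ncard = E.ncard + 1 := Set.ncard_insert_of_notMem h.nmem (Set.toFinite _)
  have hane : (nb (insert f E) a).Nonempty := mem_verts.mp ha
  have h4 := h.four_le hp hf hane
  have hW5 : 5 ≤ W.card := by
    have hsub : insert a (nb (insert f E) a) ⊆ W := by
      intro z hz
      rcases Finset.mem_insert.mp hz with rfl | hz
      · exact ha
      · exact mem_verts.mpr ⟨a, mem_nb.mpr (by rw [Sym2.eq_swap]; exact mem_nb.mp hz)⟩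
    have := Finset.card_le_card hsub
    rw [Finset.card_insert_of_notMem (h.not_mem_nb hf a)] at this
    omega
  by_contra hcon
  apply hK
  have hrk := hp.rank_pairs (W.card - 3) W (by omega)
  have hle : span ℝ (row p '' E) ≤ span ℝ (row p '' pairs W) :=
    span_mono (Set.image_mono ((Set.subset_insert f E).trans (h.subset_pairs hf)))
  have heq := Submodule.eq_of_le_of_finrank_le hle (by rw [h.finrank hp]; omega)
  obtain ⟨s, hs1, hs2, hs3⟩ := Finset.exists_subsuperset_card_eq
    (show ({a, b} : Finset V) ⊆ W by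
      intro z hz
      rw [Finset.mem_insert, Finset.mem_singleton] at hz
      rcases hz with rfl | rfl
      · exact ha
      · exact hb)
    (show ({a, b} : Finset V).card ≤ 5 from (Finset.card_le_two).trans (by norm_num)) hW5
  refine ⟨s, hs3, ⟨a, hs1 (by simp), b, hs1 (by simp), hab, hfab⟩, ?_⟩
  rintro _ ⟨c, hc, d, hd, hcd, rfl⟩
  rw [heq]
  exact subset_span ⟨_, ⟨c, hs2 hc, d, hs2 hd, hcd, rfl⟩, rfl⟩

omit [DecidableEq V] in
theorem sum_nb [Fintype V] {C : Set (Sym2 V)} (hC : ∀ x, s(x, x) ∉ C) :
    ∑ x : V, (nb C x).card = 2 * C.ncard := by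
  classical
  let G := SimpleGraph.fromEdgeSet C
  have hadj : ∀ x y, G.Adj x y ↔ s(x, y) ∈ C := by
    intro x y
    rw [SimpleGraph.fromEdgeSet_adj]
    refine ⟨fun h => h.1, fun h => ⟨h, ?_⟩⟩
    rintro rfl
    exact hC x h
  have h1 : ∀ x, G.degree x = (nb C x).card := by
    intro x
    rw [← SimpleGraph.card_neighborFinset_eq_degree]
    congr 1
    ext y
    rw [SimpleGraph.mem_neighborFinset, hadj, mem_nb]
  have h2 : (G.edgeFinset : Set (Sym2 V)) = C := by
    rw [SimpleGraph.coe_edgeFinset]
    ext e
    induction e using Sym2.ind with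
    | _ x y => rw [SimpleGraph.mem_edgeSet, hadj]
  have h3 := G.sum_degrees_eq_twice_card_edges
  simp only [h1] at h3
  have h4 : C.ncard = G.edgeFinset.card :=
    (congrArg Set.ncard h2.symm).trans (Set.ncard_coe_finset _)
  rw [h3, h4]
  congr
  exact Subsingleton.elim _ _

include hp in
/-- A circuit of minimum degree five whose edge `f` is in no `K_5` has at least twelve
vertices of degree exactly five. -/
theorem Circ.twelve [Fintype V] (h : Circ E f) (hf : ¬ f.IsDiag) (hK : ¬ K5at p E f)
    (h5 : ∀ y, (nb (insert f E) y).Nonempty → 5 ≤ (nb (insert f E) y).card) :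
    12 ≤ {x : V | (nb (insert f E) x).card = 5}.ncard := by
  classical
  have h1 := h.flexible hp hf hK
  have h2 := sum_nb (C := insert f E) (h.not_loop hf)
  set W := verts (insert f E) with hW
  have h3 : ∑ x : V, (nb (insert f E) x).card = ∑ x ∈ W, (nb (insert f E) x).card := by
    symm
    refine Finset.sum_subset (Finset.subset_univ _) fun x _ hx => ?_
    rw [Finset.card_eq_zero]
    by_contra hne
    exact hx (mem_verts.mpr (Finset.nonempty_iff_ne_empty.mpr hne))
  have h4 : {x : V | (nb (insert f E) x).card = 5} =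
      ((W.filter fun x => (nb (insert f E) x).card = 5 : Finset V) : Set V) := by
    ext x
    rw [Finset.mem_coe, Finset.mem_filter]
    refine ⟨fun hx => ⟨mem_verts.mpr (Finset.card_pos.mp ?_), hx⟩, fun hx => hx.2⟩
    have : (nb (insert f E) x).card = 5 := hx
    omega
  rw [h4, Set.ncard_coe_finset]
  have h6 : ∑ x ∈ W, (nb (insert f E) x).card + (W.filter fun x =>
      (nb (insert f E) x).card = 5).card ≥ 6 * W.card := by
    rw [Finset.card_filter, ← Finset.sum_add_distrib]
    have : 6 * W.card = ∑ _x ∈ W, 6 := by simp [mul_comm]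
    rw [this]
    refine Finset.sum_le_sum fun x hx => ?_
    have := h5 x (mem_verts.mp hx)
    split_ifs with h7
    · omega
    · omega
  omega

end Pool.Agent.Lib.MP_071ace_co
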