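import Mathlib
import Pool.Agent.Lib.MP_071ace_co.Circ

/-!
Gluing along a triangle: two sides which are independent together with complementary parts
of the triangle have an independent union. The proof moves one side by a projective map.
-/

set_option autoImplicit false

namespace Pool.Agent.Lib.MP_071ace_co

open Submodule

variable {V : Type*} [DecidableEq V]

/-- A combination of rows which vanishes outside `T` is a combination of the rows of `T`. -/
theorem Generic.restrict {p : V → Fin 3 → ℝ} (hp : Generic p) {T : Finset V}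
    (hT : 3 ≤ T.card) (D : Finset V) (hTD : Disjoint T D) {g : V × Fin 3 → ℝ}
    (hg : g ∈ span ℝ (row p '' pairs (D ∪ T))) (h0 : ∀ x ∈ D, proj x g = 0) :
    g ∈ span ℝ (row p '' pairs T) := by
  induction D using Finset.induction_on with
  | empty => simpa using hg
  | insert x D hx ih =>
    have hxT : x ∉ T := fun h => (Finset.disjoint_left.mp hTD) h (Finset.mem_insert_self _ _)
    have hxW : x ∉ D ∪ T := by
      rw [Finset.mem_union]; push Not; exact ⟨hx, hxT⟩
    refine ih ?_ ?_ fun y hy => h0 y (Finset.mem_insert_of_mem hy)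
    · exact Finset.disjoint_of_subset_right (Finset.subset_insert _ _) hTD
    · obtain ⟨N0, hN0, hN0c⟩ := Finset.exists_subset_card_eq
        (show 3 ≤ (D ∪ T).card from hT.trans (Finset.card_le_card Finset.subset_union_right))
      rw [Finset.insert_union, pairs_insert x _ hxW, Set.image_union, span_union] at hg
      have h1 := sup_le le_sup_left (hp.star_le hxW hN0 hN0c
        (S := span ℝ (row p '' pairs (D ∪ T))) subset_span) hg
      refine mem_of_proj p (fun g hg => proj_span_avoids p ?_ hg) N0
        (hp.2 x N0 (fun h => hxW (hN0 h)) hN0c.le) h1 (h0 x (Finset.mem_insert_self _ _))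
      rintro _ ⟨a, ha, b, hb, hab, rfl⟩
      rw [Sym2.mem_iff]
      push Not
      exact ⟨fun h => hxW (h ▸ ha), fun h => hxW (h ▸ hb)⟩

theorem pairs_triple {a b c : V} (hab : a ≠ b) (hac : a ≠ c) (hbc : b ≠ c) :
    pairs {a, b, c} = {s(a, b), s(b, c), s(c, a)} := by
  ext e
  constructor
  · rintro ⟨x, hx, y, hy, hxy, rfl⟩
    simp only [Finset.mem_insert, Finset.mem_singleton] at hx hy
    simp only [Set.mem_insert_iff, Set.mem_singleton_iff]
    rcases hx with rfl | rfl | rfl <;> rcases hy with rfl | rfl | rfl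
    · exact absurd rfl hxy
    · exact Or.inl rfl
    · exact Or.inr (Or.inr Sym2.eq_swap)
    · exact Or.inl Sym2.eq_swap
    · exact absurd rfl hxy
    · exact Or.inr (Or.inl rfl)
    · exact Or.inr (Or.inr rfl)
    · exact Or.inr (Or.inl Sym2.eq_swap)
    · exact absurd rfl hxy
  · rintro (rfl | rfl | rfl)
    · exact ⟨a, by simp, b, by simp, hab, rfl⟩
    · exact ⟨b, by simp, c, by simp, hbc, rfl⟩
    · exact ⟨c, by simp, a, by simp, hac.symm, rfl⟩

/-- Prescribed values of a linear functional on three vectors in general position. -/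
theorem Generic.dual {p : V → Fin 3 → ℝ} (hp : Generic p) {c : V} {N : Finset V}
    (hc : c ∉ N) (hN : N.card = 3) (val : V → ℝ) :
    ∃ L : (Fin 3 → ℝ) →ₗ[ℝ] ℝ, ∀ x ∈ N, L (p c - p x) = val x := by
  have hli : LinearIndependent ℝ (fun x : (N : Set V) => p c - p x.1) := hp.2 c N hc hN.le
  have hsp : ⊤ ≤ span ℝ (Set.range fun x : (N : Set V) => p c - p x.1) := by
    have h := hp.span_top hc hN
    rw [Set.image_eq_range] at h
    exact h.ge
  refine ⟨(Module.Basis.mk hli hsp).constr ℝ (fun x => val x.1), fun x hx => ?_⟩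
  have h1 : (Module.Basis.mk hli hsp) ⟨x, hx⟩ = p c - p x := by
    rw [Module.Basis.mk_apply]
  rw [← h1, Module.Basis.constr_basis]

/-- A linear functional with value `1` on `p a - p c` and `p b - p c` and value different from
`-1` on all `p x - p c`. -/
theorem Generic.functional [Finite V] {p : V → Fin 3 → ℝ} (hp : Generic p) {a b c d : V}
    (hab : a ≠ b) (hac : a ≠ c) (hbc : b ≠ c) (hda : d ≠ a) (hdb : d ≠ b) (hdc : d ≠ c) :
    ∃ L : (Fin 3 → ℝ) →ₗ[ℝ] ℝ, L (p a - p c) = 1 ∧ L (p b - p c) = 1 ∧
      ∀ x, 1 + L (p x - p c) ≠ 0 := by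
  have hcN : ∀ x, x ≠ c → c ∉ ({a, b, x} : Finset V) := by
    intro x hx
    simp only [Finset.mem_insert, Finset.mem_singleton]
    push Not
    exact ⟨hac.symm, hbc.symm, hx.symm⟩
  have hN : ∀ x, x ≠ a → x ≠ b → ({a, b, x} : Finset V).card = 3 := by
    intro x hxa hxb
    rw [Finset.card_eq_three]
    exact ⟨a, b, x, hab, hxa.symm, hxb.symm, rfl⟩
  obtain ⟨L0, hL0⟩ := hp.dual (hcN d hdc) (hN d hda hdb) (fun x => if x = d then 0 else -1)
  obtain ⟨M, hM⟩ := hp.dual (hcN d hdc) (hN d hda hdb) (fun x => if x = d then 1 else 0)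
  have hneg : ∀ (K : (Fin 3 → ℝ) →ₗ[ℝ] ℝ) (x : V), K (p x - p c) = - K (p c - p x) := by
    intro K x
    rw [← map_neg, neg_sub]
  have hL0a : L0 (p a - p c) = 1 := by
    rw [hneg, hL0 a (by simp)]; simp [hda.symm]
  have hL0b : L0 (p b - p c) = 1 := by
    rw [hneg, hL0 b (by simp)]; simp [hdb.symm]
  have hMa : M (p a - p c) = 0 := by
    rw [hneg, hM a (by simp)]; simp [hda.symm]
  have hMb : M (p b - p c) = 0 := by
    rw [hneg, hM b (by simp)]; simp [hdb.symm]
  have hMx : ∀ x, x ≠ a → x ≠ b → x ≠ c → M (p x - p c) ≠ 0 := by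
    intro x hxa hxb hxc h0
    have h1 := hp.span_top (hcN x hxc) (hN x hxa hxb)
    have h2 : span ℝ ((fun y => p c - p y) '' (({a, b, x} : Finset V) : Set V)) ≤
        LinearMap.ker M := by
      rw [span_le]
      rintro _ ⟨y, hy, rfl⟩
      rw [SetLike.mem_coe, LinearMap.mem_ker]
      have hy' : y = a ∨ y = b ∨ y = x := by simpa using hy
      have h4 : ∀ z, M (p z - p c) = 0 → M (p c - p z) = 0 := by
        intro z hz
        rw [← neg_sub, map_neg, hz, neg_zero]
      rcases hy' with rfl | rfl | rfl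
      · exact h4 _ hMa
      · exact h4 _ hMb
      · exact h4 _ h0
    rw [h1] at h2
    have h3 : M (p c - p d) = 0 := h2 trivial
    rw [hM d (by simp)] at h3
    simp at h3
  obtain ⟨t, ht⟩ := (Set.toFinite (Set.range fun x : V =>
    -(1 + L0 (p x - p c)) / M (p x - p c))).exists_notMem
  refine ⟨L0 + t • M, ?_, ?_, fun x => ?_⟩
  · simp [hL0a, hMa]
  · simp [hL0b, hMb]
  · rw [LinearMap.add_apply, LinearMap.smul_apply, smul_eq_mul]
    by_cases hxa : x = a
    · rw [hxa, hL0a, hMa]; norm_num
    by_cases hxb : x = b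
    · rw [hxb, hL0b, hMb]; norm_num
    by_cases hxc : x = c
    · rw [hxc, sub_self, map_zero, map_zero]; norm_num
    intro h0
    have hm := hMx x hxa hxb hxc
    apply ht
    refine ⟨x, ?_⟩
    show -(1 + L0 (p x - p c)) / M (p x - p c) = t
    rw [div_eq_iff hm]
    linarith

/-- The blockwise linear map which corresponds to a projective transformation. -/
noncomputable def projMap (p : V → Fin 3 → ℝ) (c : V) (L : (Fin 3 → ℝ) →ₗ[ℝ] ℝ) :
    (V × Fin 3 → ℝ) →ₗ[ℝ] (V × Fin 3 → ℝ) where
  toFun f := fun w => (1 + L (p w.1 - p c)) * f w - L (proj w.1 f) * (p w.1 w.2 - p c w.2)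
  map_add' f g := by
    funext w
    simp only [map_add, Pi.add_apply]
    ring
  map_smul' r f := by
    funext w
    simp only [map_smul, Pi.smul_apply, smul_eq_mul, RingHom.id_apply]
    ring

omit [DecidableEq V] in
theorem projMap_apply (p : V → Fin 3 → ℝ) (c : V) (L : (Fin 3 → ℝ) →ₗ[ℝ] ℝ)
    (f : V × Fin 3 → ℝ) (z : V) (j : Fin 3) : projMap p c L f (z, j) =
      (1 + L (p z - p c)) * proj z f j - L (proj z f) * (p z j - p c j) := rfl

omit [DecidableEq V] in
theorem projMap_injective (p : V → Fin 3 → ℝ) (c : V) (L : (Fin 3 → ℝ) →ₗ[ℝ] ℝ)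
    (hL : ∀ x, 1 + L (p x - p c) ≠ 0) : LinearMap.ker (projMap p c L) = ⊥ := by
  rw [LinearMap.ker_eq_bot']
  intro f hf
  funext w
  obtain ⟨x, j⟩ := w
  have h1 : ∀ j, (1 + L (p x - p c)) * proj x f j - L (proj x f) * (p x j - p c j) = 0 :=
    fun j => congrFun hf (x, j)
  have h2 : (1 + L (p x - p c)) • proj x f - L (proj x f) • (p x - p c) = 0 := by
    funext j
    have := h1 j
    simpa using this
  have h3 := congrArg L h2
  rw [map_sub, map_smul, map_smul, map_zero, smul_eq_mul, smul_eq_mul] at h3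
  have h4 : L (proj x f) = 0 := by linarith
  have h5 := h1 j
  rw [h4, zero_mul, sub_zero] at h5
  rcases mul_eq_zero.mp h5 with h6 | h6
  · exact absurd h6 (hL x)
  · exact h6

/-- The image of a placement under the projective map which fixes `p c`, and the points where
`L (p x - p c) = 1`. -/
noncomputable def moved (p : V → Fin 3 → ℝ) (c : V) (L : (Fin 3 → ℝ) →ₗ[ℝ] ℝ) (x : V) :
    Fin 3 → ℝ := p c + (2 / (1 + L (p x - p c))) • (p x - p c)

theorem row_moved (p : V → Fin 3 → ℝ) (c : V) (L : (Fin 3 → ℝ) →ₗ[ℝ] ℝ)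
    (hL : ∀ x, 1 + L (p x - p c) ≠ 0) (x y : V) :
    row (moved p c L) s(x, y) =
      (2 / ((1 + L (p x - p c)) * (1 + L (p y - p c)))) • projMap p c L (row p s(x, y)) := by
  funext w
  obtain ⟨z, j⟩ := w
  have hx := hL x
  have hy := hL y
  have hLxy : L (p x - p y) = L (p x - p c) - L (p y - p c) := by
    rw [← map_sub]; congr 1; module
  have hLyx : L (p y - p x) = L (p y - p c) - L (p x - p c) := by
    rw [← map_sub]; congr 1; module
  rw [Pi.smul_apply, smul_eq_mul, projMap_apply]
  by_cases hxy : x = y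
  · subst hxy
    rw [row_loop, row_loop, map_zero, map_zero]
    simp
  by_cases hzx : z = x
  · subst hzx
    rw [proj_row, row_apply_self, hLxy]
    simp only [moved, Pi.add_apply, Pi.smul_apply, Pi.sub_apply, smul_eq_mul]
    field_simp
    ring
  · by_cases hzy : z = y
    · subst hzy
      have hr2 : proj z (row p s(x, z)) = p z - p x := by
        rw [Sym2.eq_swap]; exact proj_row p z x
      have hr3 : row (moved p c L) s(x, z) (z, j) = moved p c L z j - moved p c L x j := by
        rw [Sym2.eq_swap]; exact row_apply_self j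
      rw [hr2, hr3, hLyx]
      simp only [moved, Pi.add_apply, Pi.smul_apply, Pi.sub_apply, smul_eq_mul]
      field_simp
      ring
    · have hn : z ∉ s(x, y) := by
        rw [Sym2.mem_iff]; push Not; exact ⟨hzx, hzy⟩
      rw [row_apply_not_mem hn, proj_row_not_mem p hn, map_zero]
      simp

/-- Gluing along the triangle `abc`. -/
theorem Generic.glue [Finite V] {p : V → Fin 3 → ℝ} (hp : Generic p) {a b c d : V}
    (hab : a ≠ b) (hac : a ≠ c) (hbc : b ≠ c) (hda : d ≠ a) (hdb : d ≠ b) (hdc : d ≠ c)
    {CA CB : Set (Sym2 V)} {A B : Set V} (hA : ∀ e ∈ CA, ∀ x ∈ e, x ∈ A)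
    (hB : ∀ e ∈ CB, ∀ x ∈ e, x ∈ B) (hAB : ∀ x, x ∈ A → x ∈ B → x = a ∨ x = b ∨ x = c)
    (hCA : Indep CA) (hCB : Indep CB)
    (h1 : row p s(a, b) ∉ span ℝ (row p '' CA))
    (h2 : ∀ β γ : ℝ, β • row p s(b, c) + γ • row p s(c, a) ∈ span ℝ (row p '' CB) →
      β • row p s(b, c) + γ • row p s(c, a) = 0) :
    Indep (CA ∪ CB) := by
  classical
  obtain ⟨L, hLa, hLb, hL⟩ := hp.functional hab hac hbc hda hdb hdc
  by_contra hcon
  have hcT : ({a, b, c} : Finset V).card = 3 :=
    Finset.card_eq_three.mpr ⟨a, b, c, hab, hac, hbc, rfl⟩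
  -- the second placement
  let q : V → Fin 3 → ℝ := fun x => if x ∈ A then moved p c L x else p x
  have hma : moved p c L a = p a := by
    rw [moved, hLa]; norm_num
  have hmb : moved p c L b = p b := by
    rw [moved, hLb]; norm_num
  have hmc : moved p c L c = p c := by
    rw [moved]; simp
  have hqa : q a = p a := by
    by_cases h : a ∈ A
    · simp [q, h, hma]
    · simp [q, h]
  have hqb : q b = p b := by
    by_cases h : b ∈ A
    · simp [q, h, hmb]
    · simp [q, h]
  have hqc : q c = p c := by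
    by_cases h : c ∈ A
    · simp [q, h, hmc]
    · simp [q, h]
  have hqB : ∀ x ∈ B, q x = p x := by
    intro x hx
    by_cases h : x ∈ A
    · rcases hAB x h hx with rfl | rfl | rfl
      · exact hqa
      · exact hqb
      · exact hqc
    · simp [q, h]
  have hrB : ∀ e ∈ CB, row q e = row p e := fun e he =>
    row_congr fun x hx => hqB x (hB e he x hx)
  have hrBim : row q '' CB = row p '' CB := Set.image_congr hrB
  have hrA : ∀ e ∈ CA, row q e = row (moved p c L) e := fun e he =>
    row_congr fun x hx => by simp [q, hA e he x hx]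
  have hrAmem : span ℝ (row q '' CA) ≤ (span ℝ (row p '' CA)).map (projMap p c L) := by
    rw [span_le]
    rintro _ ⟨e, he, rfl⟩
    rw [hrA e he]
    induction e using Sym2.ind with
    | _ x y =>
      rw [row_moved p c L hL x y]
      exact smul_mem _ _ (mem_map_of_mem (subset_span ⟨_, he, rfl⟩))
  have hliB : LinearIndepOn ℝ (row q) CB := (hp.1 _ hCB).congr fun e he => (hrB e he).symm
  have hliA : LinearIndepOn ℝ (row q) CA := by
    have h3 : LinearIndependent ℝ (fun e : CA => projMap p c L (row p e.1)) :=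
      (hp.1 _ hCA).map' (projMap p c L) (projMap_injective p c L hL)
    have hcf : ∀ e : Sym2 V, ∃ r : ℝˣ, row (moved p c L) e = (r : ℝ) • projMap p c L (row p e) := by
      intro e
      induction e using Sym2.ind with
      | _ x y =>
        have hne : (2 / ((1 + L (p x - p c)) * (1 + L (p y - p c)))) ≠ 0 :=
          div_ne_zero two_ne_zero (mul_ne_zero (hL x) (hL y))
        exact ⟨Units.mk0 _ hne, row_moved p c L hL x y⟩
    choose r hr using hcf
    have h4 := h3.units_smul (fun e => r e.1)
    have h5 : (fun e : CA => row q e.1) =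
        (fun e : CA => r e.1) • fun e : CA => projMap p c L (row p e.1) := by
      funext e
      rw [hrA e.1 e.2, hr e.1]
      rfl
    show LinearIndependent ℝ (fun e : CA => row q e.1)
    rw [h5]
    exact h4
  -- a common vector of both spans, in both placements
  have key : ∀ q' : V → Fin 3 → ℝ, LinearIndepOn ℝ (row q') CA → LinearIndepOn ℝ (row q') CB →
      row q' '' CB = row p '' CB →
      ∃ β γ : ℝ, row p s(a, b) + β • row p s(b, c) + γ • row p s(c, a) ∈
        span ℝ (row q' '' CA) ∧ row p s(a, b) + β • row p s(b, c) + γ • row p s(c, a) ∈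
        span ℝ (row p '' CB) := by
    intro q' hli1 hli2 him
    have hnd : ¬ Disjoint (span ℝ (row q' '' CA)) (span ℝ (row q' '' CB)) := fun hd =>
      hcon ⟨q', hli1.union hli2 hd⟩
    rw [Submodule.disjoint_def] at hnd
    push Not at hnd
    obtain ⟨w, hwA, hwB, hw0⟩ := hnd
    rw [him] at hwB
    have hout : ∀ x, x ∉ ({a, b, c} : Finset V) → proj x w = 0 := by
      intro x hx
      have hx' : ¬ (x = a ∨ x = b ∨ x = c) := by simpa using hx
      by_cases hxA : x ∈ A
      · have hxB : x ∉ B := fun h => hx' (hAB x hxA h)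
        exact proj_span_avoids p (fun e he hxe => hxB (hB e he x hxe)) hwB
      · exact proj_span_avoids q' (fun e he hxe => hxA (hA e he x hxe)) hwA
    have hwT : w ∈ span ℝ (row p '' pairs {a, b, c}) := by
      have := Fintype.ofFinite V
      have huniv : (Finset.univ \ {a, b, c}) ∪ {a, b, c} = (Finset.univ : Finset V) :=
        Finset.sdiff_union_of_subset (Finset.subset_univ _)
      refine hp.restrict hcT.ge (Finset.univ \ {a, b, c}) Finset.disjoint_sdiff ?_
        fun x hx => hout x (Finset.mem_sdiff.mp hx).2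
      rw [huniv]
      refine span_mono (Set.image_mono ?_) hwB
      intro e
      induction e using Sym2.ind with
      | _ x y =>
        intro he
        refine ⟨x, Finset.mem_univ x, y, Finset.mem_univ y, ?_, rfl⟩
        rintro rfl
        exact hCB.not_loop x he
    rw [pairs_triple hab hac hbc, Set.image_insert_eq, Set.image_insert_eq,
      Set.image_singleton, mem_span_triple] at hwT
    obtain ⟨α, β, γ, rfl⟩ := hwT
    have hα : α ≠ 0 := by
      rintro rfl
      rw [zero_smul, zero_add] at hwB hw0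
      exact hw0 (h2 β γ hwB)
    refine ⟨α⁻¹ * β, α⁻¹ * γ, ?_, ?_⟩
    · have h3 := smul_mem _ α⁻¹ hwA
      rw [smul_add, smul_add, smul_smul, smul_smul, smul_smul, inv_mul_cancel₀ hα,
        one_smul] at h3
      exact h3
    · have h3 := smul_mem _ α⁻¹ hwB
      rw [smul_add, smul_add, smul_smul, smul_smul, smul_smul, inv_mul_cancel₀ hα,
        one_smul] at h3
      exact h3
  obtain ⟨β, γ, hA0, hB0⟩ := key p (hp.1 _ hCA) (hp.1 _ hCB) rfl
  obtain ⟨β', γ', hA1, hB1⟩ := key q hliA hliB hrBim
  -- the two vectors agree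
  have heq : β • row p s(b, c) + γ • row p s(c, a) = β' • row p s(b, c) + γ' • row p s(c, a) := by
    have h3 : (β - β') • row p s(b, c) + (γ - γ') • row p s(c, a) ∈ span ℝ (row p '' CB) := by
      have h4 := sub_mem hB0 hB1
      have h5 : (row p s(a, b) + β • row p s(b, c) + γ • row p s(c, a)) -
          (row p s(a, b) + β' • row p s(b, c) + γ' • row p s(c, a)) =
          (β - β') • row p s(b, c) + (γ - γ') • row p s(c, a) := by module
      rwa [h5] at h4
    have h6 := h2 _ _ h3
    rw [sub_smul, sub_smul] at h6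
    rw [← sub_eq_zero, ← h6]
    abel
  have heqw : row p s(a, b) + β' • row p s(b, c) + γ' • row p s(c, a) =
      row p s(a, b) + β • row p s(b, c) + γ • row p s(c, a) := by
    rw [add_assoc, ← heq, ← add_assoc]
  rw [heqw] at hA1
  obtain ⟨u, hu, hue⟩ := hrAmem hA1
  -- the vector in terms of the projective map
  have hrow : ∀ x y, moved p c L x = p x → moved p c L y = p y → row p s(x, y) =
      (2 / ((1 + L (p x - p c)) * (1 + L (p y - p c)))) • projMap p c L (row p s(x, y)) := by
    intro x y hx hy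
    rw [← row_moved p c L hL x y]
    refine row_congr fun z hz => ?_
    rcases Sym2.mem_iff.mp hz with rfl | rfl
    · exact hx.symm
    · exact hy.symm
  have hLc : L (p c - p c) = 0 := by rw [sub_self, map_zero]
  have hr1 := hrow a b hma hmb
  have hr2 := hrow b c hmb hmc
  have hr3 := hrow c a hmc hma
  rw [hLa, hLb] at hr1
  rw [hLb, hLc] at hr2
  rw [hLc, hLa] at hr3
  have hw : row p s(a, b) + β • row p s(b, c) + γ • row p s(c, a) =
      projMap p c L ((1 / 2 : ℝ) • row p s(a, b) + β • row p s(b, c) + γ • row p s(c, a)) := by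
    rw [map_add, map_add, map_smul, map_smul, map_smul]
    have e1 : row p s(a, b) = (1 / 2 : ℝ) • projMap p c L (row p s(a, b)) :=
      hr1.trans (by congr 1; norm_num)
    have e2 : row p s(b, c) = projMap p c L (row p s(b, c)) :=
      hr2.trans (by norm_num)
    have e3 : row p s(c, a) = projMap p c L (row p s(c, a)) :=
      hr3.trans (by norm_num)
    rw [← e1, ← e2, ← e3]
  rw [hw] at hue
  have hinj := LinearMap.ker_eq_bot.mp (projMap_injective p c L hL)
  have hu2 := hinj hue
  rw [hu2] at hu
  apply h1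
  have h7 := sub_mem hA0 hu
  have h8 : (row p s(a, b) + β • row p s(b, c) + γ • row p s(c, a)) -
      ((1 / 2 : ℝ) • row p s(a, b) + β • row p s(b, c) + γ • row p s(c, a)) =
      (1 / 2 : ℝ) • row p s(a, b) := by module
  rw [h8] at h7
  have h9 := smul_mem _ (2 : ℝ) h7
  rw [smul_smul] at h9
  norm_num at h9
  exact h9

end Pool.Agent.Lib.MP_071ace_co
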