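import Mathlib
import Pool.Agent.Lib.MP_071ace_co.Glue
import Pool.Agent.Lib.MP_071ace_co.Flex

/-!
A smallest counterexample is 4-connected.
-/

set_option autoImplicit false

namespace Pool.Agent.Lib.MP_071ace_co

open Submodule

variable {V : Type*} [DecidableEq V]
variable {p : V → Fin 3 → ℝ} (hp : Generic p) {E : Set (Sym2 V)} {f : Sym2 V}

/-- Every circuit through `f` in the closure of `E` has at least as many vertices. -/
def Smallest [Finite V] (p : V → Fin 3 → ℝ) (E : Set (Sym2 V)) (f : Sym2 V) : Prop :=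
  ∀ E', Circ E' f → span ℝ (row p '' E') ≤ span ℝ (row p '' E) →
    nv (insert f E) ≤ nv (insert f E')

include hp in
theorem Generic.sub_ne_zero {x y : V} (hxy : x ≠ y) : p x - p y ≠ 0 := by
  have h := hp.2 x {y} (by simpa using hxy) (by simp)
  exact h.ne_zero (i := y) (by simp)

include hp in
/-- A smaller circuit from a dependency which avoids a vertex of the circuit. -/
theorem Circ.small [Finite V] (h : Circ E f) (hf : ¬ f.IsDiag) {F0 : Set (Sym2 V)}
    (hfF : f ∉ F0) (hspan : row p f ∈ span ℝ (row p '' F0))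
    (hF0 : ∀ e ∈ F0, row p e ∈ span ℝ (row p '' E)) {z : V}
    (hz : (nb (insert f E) z).Nonempty) (hzF : ∀ e ∈ F0, z ∉ e) : ¬ Smallest p E f := by
  intro hmin
  obtain ⟨F, hF1, -, hF3, hF4⟩ := exists_linearIndepOn_extension
    (K := ℝ) (v := row p) (s := ∅) (t := F0) (linearIndepOn_empty ℝ (row p)) (Set.empty_subset _)
  have hfF' : f ∉ F := fun h => hfF (hF1 h)
  have hsp : span ℝ (row p '' F0) ≤ span ℝ (row p '' F) := span_le.mpr hF3
  obtain ⟨E', hE'F, hE'⟩ := hp.extract ⟨p, hF4⟩ hfF' (hsp hspan)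
  have hle : span ℝ (row p '' E') ≤ span ℝ (row p '' E) := by
    rw [span_le]
    rintro _ ⟨e, he, rfl⟩
    exact hF0 e (hF1 (hE'F he))
  have h1 := hmin E' hE' hle
  have hzf : z ∉ f := by
    intro hzf
    obtain ⟨y, rfl⟩ := Sym2.mem_iff_exists.mp hzf
    have h2 := proj_span_avoids p (v := z) (fun e he => hzF e he) hspan
    rw [proj_row] at h2
    exact hp.sub_ne_zero (fun h => hf (Sym2.mk_isDiag_iff.mpr h)) h2
  have h3 : nv (insert f E') < nv (insert f E) := by
    refine nv_lt hz ?_ ?_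
    · rintro e (rfl | he)
      · exact hzf
      · exact hzF e (hF1 (hE'F he))
    · rintro t ⟨y, hy⟩
      by_contra hne
      have hav : Avoids E t := by
        intro e he hte
        obtain ⟨u, rfl⟩ := Sym2.mem_iff_exists.mp hte
        exact hne ⟨u, mem_nb.mpr (Or.inr he)⟩
      have hty : t ≠ y := by
        rintro rfl
        exact hE'.not_mem_nb hf t hy
      have h4 : row p s(t, y) ∈ span ℝ (row p '' E) := by
        rcases mem_nb.mp hy with h5 | h5
        · exact absurd ⟨y, mem_nb.mpr (Or.inl h5)⟩ hne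
        · exact hle (subset_span ⟨_, h5, rfl⟩)
      have h6 := proj_span_avoids p hav h4
      rw [proj_row] at h6
      exact hp.sub_ne_zero hty h6
  omega

theorem K5at_mono {E E' : Set (Sym2 V)} (hle : span ℝ (row p '' E') ≤ span ℝ (row p '' E))
    (h : K5at p E' f) : K5at p E f := by
  obtain ⟨s, hs1, hs2, hs3⟩ := h
  exact ⟨s, hs1, hs2, fun e he => hle (hs3 e he)⟩

/-- Existence of a smallest circuit. -/
theorem exists_smallest [Finite V] (h : Circ E f) :
    ∃ E', Circ E' f ∧ span ℝ (row p '' E') ≤ span ℝ (row p '' E) ∧ Smallest p E' f := by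
  classical
  let P : ℕ → Prop := fun n => ∃ E', Circ E' f ∧ span ℝ (row p '' E') ≤ span ℝ (row p '' E) ∧
    nv (insert f E') = n
  have hP : ∃ n, P n := ⟨_, E, h, le_rfl, rfl⟩
  obtain ⟨E', hE', hle, hn⟩ := Nat.find_spec hP
  refine ⟨E', hE', hle, fun E'' hE'' hle' => ?_⟩
  rw [hn]
  exact Nat.find_min' hP ⟨E'', hE'', hle'.trans hle, rfl⟩

include hp in
/-- Vertices of a smallest circuit have degree at least five. -/
theorem Circ.five_le [Finite V] (h : Circ E f) (hf : ¬ f.IsDiag) (hK : ¬ K5at p E f)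
    (hmin : Smallest p E f) {x : V} (hx : (nb (insert f E) x).Nonempty) :
    5 ≤ (nb (insert f E) x).card := by
  by_contra hcon
  have hx4 : (nb (insert f E) x).card = 4 := by
    have := h.four_le hp hf hx
    omega
  obtain ⟨E1, h1, hK1, hle1, hsub1, hx1, hdeg1⟩ := h.reduce_four hp hf hx4 hK
  have hxf := h.not_mem_of_four hp hf hx4 hK
  have hlt : nv (insert f E1) < nv (insert f E) := by
    refine nv_lt hx ?_ ?_
    · rintro e (rfl | he)
      · exact hxf
      · exact hx1 e he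
    · intro y hy
      have := hdeg1 y
      exact Finset.card_pos.mp (lt_of_lt_of_le (Finset.card_pos.mpr hy) this)
  have := hmin E1 h1 hle1
  omega

include hp in
/-- In a smallest circuit no vertex is simplicial in the closure. -/
theorem Circ.not_simplicial [Finite V] (h : Circ E f) (hf : ¬ f.IsDiag) (hK : ¬ K5at p E f)
    (hmin : Smallest p E f) {x : V} (hx : (nb (insert f E) x).Nonempty) :
    ∃ e ∈ pairs (nb (insert f E) x), row p e ∉ span ℝ (row p '' E) := by
  by_contra hcl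
  push Not at hcl
  have hxf : x ∉ f := by
    intro hxf
    obtain ⟨y, rfl⟩ := Sym2.mem_iff_exists.mp hxf
    exact hK (h.k5_of_clique hp hf hx hcl (fun h1 => hf (Sym2.mk_isDiag_iff.mpr h1))
      (Finset.mem_insert_self _ _)
      (Finset.mem_insert_of_mem (mem_nb.mpr (Set.mem_insert _ _))))
  obtain ⟨E1, h1, hK1, hle1, hsub1, hx1⟩ := h.reduce hp hf hxf hx hcl hK
  have hlt : nv (insert f E1) < nv (insert f E) := by
    refine nv_lt hx ?_ ?_
    · rintro e (rfl | he)
      · exact hxf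
      · exact hx1 e he
    · rintro y ⟨z, hz⟩
      rcases mem_nb.mp hz with h2 | h2
      · exact ⟨z, mem_nb.mpr (Or.inl h2)⟩
      · rcases hsub1 _ h2 with h3 | ⟨a, ha, b, hb, hab, h4⟩
        · exact ⟨z, mem_nb.mpr (Or.inr h3)⟩
        · refine ⟨x, ?_⟩
          rw [mem_nb, Sym2.eq_swap]
          have h5 : y ∈ s(a, b) := h4 ▸ Sym2.mem_mk_left _ _
          rcases Sym2.mem_iff.mp h5 with rfl | rfl
          · exact mem_nb.mp ha
          · exact mem_nb.mp hb
  have := hmin E1 h1 hle1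
  omega

/-- The data of a 3-separation of the circuit `insert f E`. -/
structure Sep (E : Set (Sym2 V)) (f : Sym2 V) (CA CB : Set (Sym2 V)) (A B : Set V)
    (a b c : V) : Prop where
  hab : a ≠ b
  hac : a ≠ c
  hbc : b ≠ c
  union : CA ∪ CB = insert f E
  disj : Disjoint CA CB
  hA : ∀ e ∈ CA, ∀ x ∈ e, x ∈ A
  hB : ∀ e ∈ CB, ∀ x ∈ e, x ∈ B
  hAB : ∀ x, x ∈ A → x ∈ B → x = a ∨ x = b ∨ x = c
  aA : a ∈ A
  bA : b ∈ A
  cA : c ∈ A
  aB : a ∈ B
  bB : b ∈ B
  cB : c ∈ B
  neA : ∃ e ∈ CA, ∃ x ∈ e, x ∉ B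
  neB : ∃ e ∈ CB, ∃ x ∈ e, x ∉ A

omit [DecidableEq V] in
theorem Sep.symm {CA CB : Set (Sym2 V)} {A B : Set V} {a b c : V} (h : Sep E f CA CB A B a b c) :
    Sep E f CB CA B A a b c :=
  ⟨h.hab, h.hac, h.hbc, by rw [Set.union_comm]; exact h.union, h.disj.symm, h.hB, h.hA,
    fun x hx hy => h.hAB x hy hx, h.aB, h.bB, h.cB, h.aA, h.bA, h.cA, h.neB, h.neA⟩

omit [DecidableEq V] in
theorem Sep.rotate {CA CB : Set (Sym2 V)} {A B : Set V} {a b c : V}
    (h : Sep E f CA CB A B a b c) : Sep E f CA CB A B b c a :=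
  ⟨h.hbc, h.hab.symm, h.hac.symm, h.union, h.disj, h.hA, h.hB,
    fun x hx hy => by rcases h.hAB x hx hy with h | h | h <;> simp [h],
    h.bA, h.cA, h.aA, h.bB, h.cB, h.aB, h.neA, h.neB⟩

theorem Sep.indepA {CA CB : Set (Sym2 V)} {A B : Set V} {a b c : V} (hc : Circ E f)
    (h : Sep E f CA CB A B a b c) : Indep CA := by
  obtain ⟨e, he, -⟩ := h.neB
  have heC : e ∈ insert f E := h.union ▸ Or.inr he
  refine (hc.sub_indep heC).mono fun e' he' => ⟨h.union ▸ Or.inl he', ?_⟩
  rintro rfl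
  exact Set.disjoint_left.mp h.disj he' he

include hp in
theorem Sep.row_mem {CA CB : Set (Sym2 V)} {A B : Set V} {a b c : V} (hc : Circ E f)
    (h : Sep E f CA CB A B a b c) {e : Sym2 V} (he : e ∈ CA) :
    row p e ∈ span ℝ (row p '' E) :=
  hc.row_mem hp (h.union ▸ Or.inl he)

include hp in
/-- Independence of the three rows of a triangle. -/
theorem Generic.triangle {a b c : V} (hab : a ≠ b) (hac : a ≠ c) (hbc : b ≠ c) {α β γ : ℝ}
    (h : α • row p s(a, b) + β • row p s(b, c) + γ • row p s(c, a) = 0) :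
    α = 0 ∧ β = 0 ∧ γ = 0 := by
  have h1 := congrArg (proj a) h
  have hna : a ∉ s(b, c) := by
    rw [Sym2.mem_iff]; push Not; exact ⟨hab, hac⟩
  have hnb : b ∉ s(c, a) := by
    rw [Sym2.mem_iff]; push Not; exact ⟨hbc, hab.symm⟩
  have hca : proj a (row p s(c, a)) = p a - p c := by rw [Sym2.eq_swap]; exact proj_row p a c
  rw [map_add, map_add, map_smul, map_smul, map_smul, proj_row, hca, proj_row_not_mem p hna,
    smul_zero, add_zero, map_zero] at h1
  have h2 := hp.2 a {b, c} (by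
    rw [Finset.mem_insert, Finset.mem_singleton]; push Not; exact ⟨hab, hac⟩)
    ((Finset.card_le_two).trans (by norm_num))
  have h3 := linearIndepOn_finset_iff.mp h2 (fun x => if x = b then α else γ) (by
    rw [Finset.sum_pair hbc]
    simp [hbc.symm, h1])
  have hα : α = 0 := by simpa using h3 b (by simp)
  have hγ : γ = 0 := by simpa [hbc.symm] using h3 c (by simp)
  refine ⟨hα, ?_, hγ⟩
  have h4 := congrArg (proj b) h
  rw [map_add, map_add, map_smul, map_smul, map_smul, hα, hγ, zero_smul, zero_smul, zero_add,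
    add_zero, proj_row, map_zero] at h4
  rcases smul_eq_zero.mp h4 with h5 | h5
  · exact h5
  · exact absurd h5 (hp.sub_ne_zero hbc)

include hp in
/-- A combination of rows supported on `a, b, c` is a combination of the triangle. -/
theorem Generic.supported [Finite V] {a b c : V} (hab : a ≠ b) (hac : a ≠ c) (hbc : b ≠ c)
    {CB : Set (Sym2 V)} (hCB : Indep CB) {w : V × Fin 3 → ℝ}
    (hw : w ∈ span ℝ (row p '' CB)) (hout : ∀ x, ¬ (x = a ∨ x = b ∨ x = c) → proj x w = 0) :
    ∃ α β γ : ℝ, α • row p s(a, b) + β • row p s(b, c) + γ • row p s(c, a) = w := by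
  classical
  have := Fintype.ofFinite V
  have hcT : ({a, b, c} : Finset V).card = 3 :=
    Finset.card_eq_three.mpr ⟨a, b, c, hab, hac, hbc, rfl⟩
  have huniv : (Finset.univ \ {a, b, c}) ∪ {a, b, c} = (Finset.univ : Finset V) :=
    Finset.sdiff_union_of_subset (Finset.subset_univ _)
  have hwT : w ∈ span ℝ (row p '' pairs {a, b, c}) := by
    refine hp.restrict hcT.ge (Finset.univ \ {a, b, c}) Finset.disjoint_sdiff ?_
      fun x hx => hout x (by simpa using (Finset.mem_sdiff.mp hx).2)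
    rw [huniv]
    refine span_mono (Set.image_mono ?_) hw
    intro e
    induction e using Sym2.ind with
    | _ x y =>
      intro he
      refine ⟨x, Finset.mem_univ x, y, Finset.mem_univ y, ?_, rfl⟩
      rintro rfl
      exact hCB.not_loop x he
  rw [pairs_triple hab hac hbc, Set.image_insert_eq, Set.image_insert_eq,
    Set.image_singleton, mem_span_triple] at hwT
  exact hwT

include hp in
theorem Sep.disjoint {CA CB : Set (Sym2 V)} {A B : Set V} {a b c : V} (hc : Circ E f)
    (h : Sep E f CA CB A B a b c) (hfA : f ∈ CA) :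
    Disjoint (span ℝ (row p '' (CA \ {f}))) (span ℝ (row p '' CB)) := by
  have hd : Disjoint (CA \ {f}) CB := h.disj.mono_left Set.sdiff_subset
  refine ((linearIndepOn_union_iff hd).mp ((hp.1 _ hc.indep).mono ?_)).2.2
  rintro e (he | he)
  · have h1 : e ∈ insert f E := h.union ▸ Or.inl he.1
    rcases h1 with h1 | h1
    · exact absurd h1 he.2
    · exact h1
  · have h1 : e ∈ insert f E := h.union ▸ Or.inr he
    rcases h1 with h1 | h1
    · exact absurd (h1 ▸ he) (Set.disjoint_left.mp h.disj hfA)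
    · exact h1

include hp in
/-- The two spans meet in a line. -/
theorem Sep.line {CA CB : Set (Sym2 V)} {A B : Set V} {a b c : V} (hc : Circ E f)
    (h : Sep E f CA CB A B a b c) {v w : V × Fin 3 → ℝ} (hvA : v ∈ span ℝ (row p '' CA))
    (hvB : v ∈ span ℝ (row p '' CB)) (hwA : w ∈ span ℝ (row p '' CA))
    (hwB : w ∈ span ℝ (row p '' CB)) (hw0 : w ≠ 0) : ∃ t : ℝ, v = t • w := by
  have main : ∀ {CA CB : Set (Sym2 V)} {A B : Set V}, Sep E f CA CB A B a b c → f ∈ CA →
      v ∈ span ℝ (row p '' CA) → v ∈ span ℝ (row p '' CB) → w ∈ span ℝ (row p '' CA) →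
      w ∈ span ℝ (row p '' CB) → ∃ t : ℝ, v = t • w := by
    intro CA CB A B h hfA hvA hvB hwA hwB
    have hd := h.disjoint hp hc hfA
    rw [Submodule.disjoint_def] at hd
    have hCA : row p '' CA = insert (row p f) (row p '' (CA \ {f})) := by
      rw [← Set.image_insert_eq, Set.insert_sdiff_singleton, Set.insert_eq_of_mem hfA]
    rw [hCA, mem_span_insert] at hvA hwA
    obtain ⟨r, z, hz, rfl⟩ := hvA
    obtain ⟨r', z', hz', rfl⟩ := hwA
    have hr' : r' ≠ 0 := by
      rintro rfl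
      rw [zero_smul, zero_add] at hwB hw0
      exact hw0 (hd _ hz' hwB)
    refine ⟨r / r', ?_⟩
    have h1 : z - (r / r') • z' ∈ span ℝ (row p '' CB) := by
      have h2 := sub_mem hvB (smul_mem _ (r / r') hwB)
      have h3 : r • row p f + z - (r / r') • (r' • row p f + z') = z - (r / r') • z' := by
        rw [smul_add, smul_smul, div_mul_cancel₀ _ hr']
        abel
      rwa [h3] at h2
    have h4 := hd _ (sub_mem hz (smul_mem _ _ hz')) h1
    rw [smul_add, smul_smul, div_mul_cancel₀ _ hr', ← sub_eq_zero, ← h4]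
    abel
  have hf : f ∈ CA ∪ CB := h.union ▸ Set.mem_insert f E
  rcases hf with hf | hf
  · exact main h hf hvA hvB hwA hwB
  · exact main h.symm hf hvB hvA hwB hwA

include hp in
/-- The case where some edge of the support is not implied. -/
theorem Sep.not_implied [Finite V] {CA CB : Set (Sym2 V)} {A B : Set V} {a b c : V}
    (hc : Circ E f) (h : Sep E f CA CB A B a b c) {α β γ : ℝ}
    (hwA : α • row p s(a, b) + β • row p s(b, c) + γ • row p s(c, a) ∈ span ℝ (row p '' CA))
    (hwB : α • row p s(a, b) + β • row p s(b, c) + γ • row p s(c, a) ∈ span ℝ (row p '' CB))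
    (hα : α ≠ 0) : row p s(a, b) ∈ span ℝ (row p '' E) := by
  by_contra hn
  have hspA : span ℝ (row p '' CA) ≤ span ℝ (row p '' E) := by
    rw [span_le]
    rintro _ ⟨e, he, rfl⟩
    exact h.row_mem hp hc he
  have hspB : span ℝ (row p '' CB) ≤ span ℝ (row p '' E) := by
    rw [span_le]
    rintro _ ⟨e, he, rfl⟩
    exact h.symm.row_mem hp hc he
  obtain ⟨eA, heA, x, hxe, hxB⟩ := h.neA
  obtain ⟨eB, heB, y, hye, hyA⟩ := h.neB
  by_cases h2 : ∀ β γ : ℝ, β • row p s(b, c) + γ • row p s(c, a) ∈ span ℝ (row p '' CB) →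
      β • row p s(b, c) + γ • row p s(c, a) = 0
  · apply hc.dep
    rw [← h.union]
    exact hp.glue h.hab h.hac h.hbc (d := x) (fun h1 => hxB (h1 ▸ h.aB))
      (fun h1 => hxB (h1 ▸ h.bB)) (fun h1 => hxB (h1 ▸ h.cB)) h.hA h.hB h.hAB
      (h.indepA hc) (h.symm.indepA hc) (fun h1 => hn (hspA h1)) h2
  by_cases h3 : ∀ β γ : ℝ, β • row p s(b, c) + γ • row p s(c, a) ∈ span ℝ (row p '' CA) →
      β • row p s(b, c) + γ • row p s(c, a) = 0
  · apply hc.dep
    rw [← h.symm.union]
    exact hp.glue h.hab h.hac h.hbc (d := y) (fun h1 => hyA (h1 ▸ h.aA))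
      (fun h1 => hyA (h1 ▸ h.bA)) (fun h1 => hyA (h1 ▸ h.cA)) h.hB h.hA h.symm.hAB
      (h.symm.indepA hc) (h.indepA hc) (fun h1 => hn (hspB h1)) h3
  push Not at h2 h3
  obtain ⟨β2, γ2, hu2, hu20⟩ := h2
  obtain ⟨β1, γ1, hu1, hu10⟩ := h3
  by_cases hD : β1 * γ2 = β2 * γ1
  · obtain ⟨t, ht⟩ : ∃ t : ℝ, β1 • row p s(b, c) + γ1 • row p s(c, a) =
        t • (β2 • row p s(b, c) + γ2 • row p s(c, a)) := by
      by_cases hβ2 : β2 = 0
      · have hγ2 : γ2 ≠ 0 := by
          rintro rfl
          apply hu20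
          rw [hβ2]
          simp
        have hβ1 : β1 = 0 := by
          rw [hβ2, zero_mul] at hD
          rcases mul_eq_zero.mp hD with h1 | h1
          · exact h1
          · exact absurd h1 hγ2
        refine ⟨γ1 / γ2, ?_⟩
        rw [hβ1, hβ2, zero_smul, zero_add, zero_add, smul_smul, div_mul_cancel₀ _ hγ2]
      · refine ⟨β1 / β2, ?_⟩
        rw [smul_add, smul_smul, smul_smul, div_mul_cancel₀ _ hβ2]
        have : γ1 = β1 / β2 * γ2 := by
          field_simp
          linarith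
        rw [← this]
    have hu1B : β1 • row p s(b, c) + γ1 • row p s(c, a) ∈ span ℝ (row p '' CB) := by
      rw [ht]
      exact smul_mem _ _ hu2
    obtain ⟨s, hs⟩ := h.line hp hc hwA hwB hu1 hu1B hu10
    have h5 : α • row p s(a, b) + (β - s * β1) • row p s(b, c) +
        (γ - s * γ1) • row p s(c, a) = 0 := by
      have h6 : α • row p s(a, b) + (β - s * β1) • row p s(b, c) +
        (γ - s * γ1) • row p s(c, a) =
        (α • row p s(a, b) + β • row p s(b, c) + γ • row p s(c, a)) -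
          s • (β1 • row p s(b, c) + γ1 • row p s(c, a)) := by module
      rw [h6, hs]
      module
    exact hα (hp.triangle h.hab h.hac h.hbc h5).1
  · have hD' : β1 * γ2 - β2 * γ1 ≠ 0 := sub_ne_zero.mpr hD
    have hu1E := hspA hu1
    have hu2E := hspB hu2
    have hbc : row p s(b, c) ∈ span ℝ (row p '' E) := by
      have h5 := sub_mem (smul_mem _ γ2 hu1E) (smul_mem _ γ1 hu2E)
      have h6 : γ2 • (β1 • row p s(b, c) + γ1 • row p s(c, a)) -
          γ1 • (β2 • row p s(b, c) + γ2 • row p s(c, a)) =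
          (β1 * γ2 - β2 * γ1) • row p s(b, c) := by module
      rw [h6] at h5
      have h7 := smul_mem _ (β1 * γ2 - β2 * γ1)⁻¹ h5
      rwa [smul_smul, inv_mul_cancel₀ hD', one_smul] at h7
    have hca : row p s(c, a) ∈ span ℝ (row p '' E) := by
      have h5 := sub_mem (smul_mem _ β1 hu2E) (smul_mem _ β2 hu1E)
      have h6 : β1 • (β2 • row p s(b, c) + γ2 • row p s(c, a)) -
          β2 • (β1 • row p s(b, c) + γ1 • row p s(c, a)) =
          (β1 * γ2 - β2 * γ1) • row p s(c, a) := by module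
      rw [h6] at h5
      have h7 := smul_mem _ (β1 * γ2 - β2 * γ1)⁻¹ h5
      rwa [smul_smul, inv_mul_cancel₀ hD', one_smul] at h7
    apply hn
    have h8 := sub_mem (sub_mem (hspA hwA) (smul_mem _ β hbc)) (smul_mem _ γ hca)
    have h9 : α • row p s(a, b) + β • row p s(b, c) + γ • row p s(c, a) -
        β • row p s(b, c) - γ • row p s(c, a) = α • row p s(a, b) := by abel
    rw [h9] at h8
    have h10 := smul_mem _ α⁻¹ h8
    rwa [smul_smul, inv_mul_cancel₀ hα, one_smul] at h10

include hp in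
/-- The case where the exceptional edge is an edge of the support. -/
theorem Sep.supp_edge [Finite V] {CA CB : Set (Sym2 V)} {A B : Set V} {a b c : V}
    (hc : Circ E f) (hf : ¬ f.IsDiag) (hmin : Smallest p E f)
    (h : Sep E f CA CB A B a b c) (hfA : f ∈ CA) (hfe : f = s(a, b)) {α β γ : ℝ}
    (hwB : α • row p s(a, b) + β • row p s(b, c) + γ • row p s(c, a) ∈ span ℝ (row p '' CB))
    (hα : α ≠ 0) (h2 : β ≠ 0 → row p s(b, c) ∈ span ℝ (row p '' E))
    (h3 : γ ≠ 0 → row p s(c, a) ∈ span ℝ (row p '' E)) : False := by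
  obtain ⟨eA, heA, x, hxe, hxB⟩ := h.neA
  let S : Set (Sym2 V) := {e | (β ≠ 0 ∧ e = s(b, c)) ∨ (γ ≠ 0 ∧ e = s(c, a))}
  have hSB : ∀ e ∈ S, x ∉ e := by
    rintro e (⟨-, rfl⟩ | ⟨-, rfl⟩) hx
    · rcases Sym2.mem_iff.mp hx with rfl | rfl
      · exact hxB h.bB
      · exact hxB h.cB
    · rcases Sym2.mem_iff.mp hx with rfl | rfl
      · exact hxB h.cB
      · exact hxB h.aB
  refine hc.small hp hf (F0 := CB ∪ S) (z := x) ?_ ?_ ?_ ?_ ?_ hmin
  · rintro (h4 | ⟨-, h4⟩ | ⟨-, h4⟩)
    · exact Set.disjoint_left.mp h.disj hfA h4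
    · rw [hfe] at h4
      have h5 : a ∈ s(b, c) := h4 ▸ Sym2.mem_mk_left a b
      rcases Sym2.mem_iff.mp h5 with h5 | h5
      · exact h.hab h5
      · exact h.hac h5
    · rw [hfe] at h4
      have h5 : b ∈ s(c, a) := h4 ▸ Sym2.mem_mk_right a b
      rcases Sym2.mem_iff.mp h5 with h5 | h5
      · exact h.hbc h5
      · exact h.hab h5.symm
  · have hB' : span ℝ (row p '' CB) ≤ span ℝ (row p '' (CB ∪ S)) :=
      span_mono (Set.image_mono Set.subset_union_left)
    have hb1 : β • row p s(b, c) ∈ span ℝ (row p '' (CB ∪ S)) := by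
      by_cases hβ : β = 0
      · rw [hβ, zero_smul]; exact zero_mem _
      · exact smul_mem _ _ (subset_span ⟨_, Or.inr (Or.inl ⟨hβ, rfl⟩), rfl⟩)
    have hc1 : γ • row p s(c, a) ∈ span ℝ (row p '' (CB ∪ S)) := by
      by_cases hγ : γ = 0
      · rw [hγ, zero_smul]; exact zero_mem _
      · exact smul_mem _ _ (subset_span ⟨_, Or.inr (Or.inr ⟨hγ, rfl⟩), rfl⟩)
    have h8 := sub_mem (sub_mem (hB' hwB) hb1) hc1
    have h9 : α • row p s(a, b) + β • row p s(b, c) + γ • row p s(c, a) -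
        β • row p s(b, c) - γ • row p s(c, a) = α • row p s(a, b) := by abel
    rw [h9] at h8
    have h10 := smul_mem _ α⁻¹ h8
    rw [smul_smul, inv_mul_cancel₀ hα, one_smul] at h10
    rw [hfe]
    exact h10
  · rintro e (he | ⟨hβ, rfl⟩ | ⟨hγ, rfl⟩)
    · exact h.symm.row_mem hp hc he
    · exact h2 hβ
    · exact h3 hγ
  · obtain ⟨y, rfl⟩ := Sym2.mem_iff_exists.mp hxe
    exact ⟨y, mem_nb.mpr (h.union ▸ Or.inl heA)⟩
  · rintro e (he | he) hx
    · exact hxB (h.hB e he x hx)
    · exact hSB e he hx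

include hp in
/-- The case where all edges of the support are implied. -/
theorem Sep.supp [Finite V] {CA CB : Set (Sym2 V)} {A B : Set V} {a b c : V}
    (hc : Circ E f) (hf : ¬ f.IsDiag) (hmin : Smallest p E f)
    (h : Sep E f CA CB A B a b c) (hfA : f ∈ CA) {α β γ : ℝ}
    (hwA : α • row p s(a, b) + β • row p s(b, c) + γ • row p s(c, a) ∈ span ℝ (row p '' CA))
    (hwB : α • row p s(a, b) + β • row p s(b, c) + γ • row p s(c, a) ∈ span ℝ (row p '' CB))
    (hw0 : α • row p s(a, b) + β • row p s(b, c) + γ • row p s(c, a) ≠ 0)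
    (h1 : α ≠ 0 → row p s(a, b) ∈ span ℝ (row p '' E))
    (h2 : β ≠ 0 → row p s(b, c) ∈ span ℝ (row p '' E))
    (h3 : γ ≠ 0 → row p s(c, a) ∈ span ℝ (row p '' E)) : False := by
  let S : Set (Sym2 V) :=
    {e | (α ≠ 0 ∧ e = s(a, b)) ∨ (β ≠ 0 ∧ e = s(b, c)) ∨ (γ ≠ 0 ∧ e = s(c, a))}
  by_cases hfS : f ∈ S
  · rcases hfS with ⟨hα, hfe⟩ | ⟨hβ, hfe⟩ | ⟨hγ, hfe⟩
    · exact h.supp_edge hp hc hf hmin hfA hfe hwB hα h2 h3
    · refine h.rotate.supp_edge hp hc hf hmin hfA hfe (α := β) (β := γ) (γ := α) ?_ hβ h3 h1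
      have h4 : β • row p s(b, c) + γ • row p s(c, a) + α • row p s(a, b) =
        α • row p s(a, b) + β • row p s(b, c) + γ • row p s(c, a) := by abel
      rw [h4]
      exact hwB
    · refine h.rotate.rotate.supp_edge hp hc hf hmin hfA hfe (α := γ) (β := α) (γ := β) ?_ hγ h1 h2
      have h4 : γ • row p s(c, a) + α • row p s(a, b) + β • row p s(b, c) =
        α • row p s(a, b) + β • row p s(b, c) + γ • row p s(c, a) := by abel
      rw [h4]
      exact hwB
  · obtain ⟨eB, heB, x, hxe, hxA⟩ := h.neB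
    have hd := h.disjoint hp hc hfA
    rw [Submodule.disjoint_def] at hd
    have hCA : row p '' CA = insert (row p f) (row p '' (CA \ {f})) := by
      rw [← Set.image_insert_eq, Set.insert_sdiff_singleton, Set.insert_eq_of_mem hfA]
    have hwA' := hwA
    rw [hCA, mem_span_insert] at hwA'
    obtain ⟨r, z, hz, hrz⟩ := hwA'
    have hr : r ≠ 0 := by
      rintro rfl
      rw [zero_smul, zero_add] at hrz
      rw [hrz] at hwB hw0
      exact hw0 (hd _ hz hwB)
    refine hc.small hp hf (F0 := CA \ {f} ∪ S) (z := x) ?_ ?_ ?_ ?_ ?_ hmin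
    · rintro (h4 | h4)
      · exact h4.2 rfl
      · exact hfS h4
    · have hw : α • row p s(a, b) + β • row p s(b, c) + γ • row p s(c, a) ∈
          span ℝ (row p '' (CA \ {f} ∪ S)) := by
        refine add_mem (add_mem ?_ ?_) ?_
        · by_cases hα : α = 0
          · rw [hα, zero_smul]; exact zero_mem _
          · exact smul_mem _ _ (subset_span ⟨_, Or.inr (Or.inl ⟨hα, rfl⟩), rfl⟩)
        · by_cases hβ : β = 0
          · rw [hβ, zero_smul]; exact zero_mem _
          · exact smul_mem _ _ (subset_span ⟨_, Or.inr (Or.inr (Or.inl ⟨hβ, rfl⟩)), rfl⟩)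
        · by_cases hγ : γ = 0
          · rw [hγ, zero_smul]; exact zero_mem _
          · exact smul_mem _ _ (subset_span ⟨_, Or.inr (Or.inr (Or.inr ⟨hγ, rfl⟩)), rfl⟩)
      have hz' : z ∈ span ℝ (row p '' (CA \ {f} ∪ S)) :=
        span_mono (Set.image_mono Set.subset_union_left) hz
      have h5 := sub_mem hw hz'
      rw [hrz, add_sub_cancel_right] at h5
      have h6 := smul_mem _ r⁻¹ h5
      rwa [smul_smul, inv_mul_cancel₀ hr, one_smul] at h6
    · rintro e (he | ⟨hα, rfl⟩ | ⟨hβ, rfl⟩ | ⟨hγ, rfl⟩)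
      · exact h.row_mem hp hc he.1
      · exact h1 hα
      · exact h2 hβ
      · exact h3 hγ
    · obtain ⟨y, rfl⟩ := Sym2.mem_iff_exists.mp hxe
      exact ⟨y, mem_nb.mpr (h.union ▸ Or.inr heB)⟩
    · rintro e (he | ⟨-, rfl⟩ | ⟨-, rfl⟩ | ⟨-, rfl⟩) hx
      · exact hxA (h.hA e he.1 x hx)
      · rcases Sym2.mem_iff.mp hx with rfl | rfl
        · exact hxA h.aA
        · exact hxA h.bA
      · rcases Sym2.mem_iff.mp hx with rfl | rfl
        · exact hxA h.bA
        · exact hxA h.cA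
      · rcases Sym2.mem_iff.mp hx with rfl | rfl
        · exact hxA h.cA
        · exact hxA h.aA

include hp in
/-- A smallest circuit has no 3-separation. -/
theorem Sep.false [Finite V] {CA CB : Set (Sym2 V)} {A B : Set V} {a b c : V}
    (hc : Circ E f) (hf : ¬ f.IsDiag) (hmin : Smallest p E f)
    (h : Sep E f CA CB A B a b c) : False := by
  have main : ∀ {CA CB : Set (Sym2 V)} {A B : Set V}, Sep E f CA CB A B a b c → f ∈ CA →
      False := by
    intro CA CB A B h hfA
    have hIA := h.indepA hc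
    have hIB := h.symm.indepA hc
    have hnd : ¬ Disjoint (span ℝ (row p '' CA)) (span ℝ (row p '' CB)) := by
      intro hd
      apply hc.dep
      rw [← h.union]
      exact ⟨p, (hp.1 _ hIA).union (hp.1 _ hIB) hd⟩
    rw [Submodule.disjoint_def] at hnd
    push Not at hnd
    obtain ⟨w, hwA, hwB, hw0⟩ := hnd
    have hout : ∀ x, ¬ (x = a ∨ x = b ∨ x = c) → proj x w = 0 := by
      intro x hx
      by_cases hxA : x ∈ A
      · have hxB : x ∉ B := fun hxB => hx (h.hAB x hxA hxB)
        exact proj_span_avoids p (fun e he hxe => hxB (h.hB e he x hxe)) hwB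
      · exact proj_span_avoids p (fun e he hxe => hxA (h.hA e he x hxe)) hwA
    obtain ⟨α, β, γ, rfl⟩ := hp.supported h.hab h.hac h.hbc hIB hwB hout
    have e1 : β • row p s(b, c) + γ • row p s(c, a) + α • row p s(a, b) =
        α • row p s(a, b) + β • row p s(b, c) + γ • row p s(c, a) := by abel
    have e2 : γ • row p s(c, a) + α • row p s(a, b) + β • row p s(b, c) =
        α • row p s(a, b) + β • row p s(b, c) + γ • row p s(c, a) := by abel
    refine h.supp hp hc hf hmin hfA hwA hwB hw0 ?_ ?_ ?_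
    · intro hα
      exact h.not_implied hp hc hwA hwB hα
    · intro hβ
      exact h.rotate.not_implied hp hc (e1 ▸ hwA) (e1 ▸ hwB) hβ
    · intro hγ
      exact h.rotate.rotate.not_implied hp hc (e2 ▸ hwA) (e2 ▸ hwB) hγ
  have hf' : f ∈ CA ∪ CB := h.union ▸ Set.mem_insert f E
  rcases hf' with hf' | hf'
  · exact main h hf'
  · exact main h.symm hf'

end Pool.Agent.Lib.MP_071ace_co
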