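import Mathlib
import Pool.Agent.Lib.MP_071ace_co.Conn

/-!
A smallest counterexample is 4-connected: general separations.
-/

set_option autoImplicit false

namespace Pool.Agent.Lib.MP_071ace_co

open Submodule

variable {V : Type*} [DecidableEq V]
variable {p : V → Fin 3 → ℝ} (hp : Generic p) {E : Set (Sym2 V)} {f : Sym2 V}

include hp in
theorem Circ.four_connected [Finite V] (hc : Circ E f) (hf : ¬ f.IsDiag)
    (hK : ¬ K5at p E f) (hmin : Smallest p E f) {A B : Set V}
    (hAB : ∀ e ∈ insert f E, (∀ x ∈ e, x ∈ A) ∨ (∀ x ∈ e, x ∈ B))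
    (hcard : (A ∩ B).ncard ≤ 3) {x y : V} (hx : (nb (insert f E) x).Nonempty) (hxB : x ∉ B)
    (hy : (nb (insert f E) y).Nonempty) (hyA : y ∉ A) : False := by
  classical
  have := Fintype.ofFinite V
  have h5 := hc.five_le hp hf hK hmin hx
  have hNA : ∀ u ∈ nb (insert f E) x, u ∈ A := by
    intro u hu
    rcases hAB _ (mem_nb.mp hu) with h | h
    · exact h u (Sym2.mem_mk_right x u)
    · exact absurd (h x (Sym2.mem_mk_left x u)) hxB
  let T : Finset V := (A ∩ B).toFinset
  have hT : ∀ z, z ∈ T ↔ z ∈ A ∧ z ∈ B := by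
    intro z
    simp [T]
  have hTc : T.card ≤ 3 := by
    have h1 : T.card = (A ∩ B).ncard := (Set.ncard_eq_toFinset_card' _).symm
    omega
  have h6 : 3 - T.card ≤ (nb (insert f E) x \ T).card := by
    have := Finset.le_card_sdiff T (nb (insert f E) x)
    omega
  obtain ⟨U, hU, hUc⟩ := Finset.exists_subset_card_eq h6
  have hUB : ∀ u ∈ U, u ∉ B := by
    intro u hu huB
    have h7 := Finset.mem_sdiff.mp (hU hu)
    exact h7.2 ((hT u).mpr ⟨hNA u h7.1, huB⟩)
  have hUN : ∀ u ∈ U, u ∈ nb (insert f E) x := fun u hu => (Finset.mem_sdiff.mp (hU hu)).1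
  have hd : Disjoint T U := by
    rw [Finset.disjoint_left]
    intro u hu hu'
    exact hUB u hu' ((hT u).mp hu).2
  have hTU : (T ∪ U).card = 3 := by
    rw [Finset.card_union_of_disjoint hd, hUc]
    omega
  obtain ⟨a, b, c, hab, hac, hbc, habc⟩ := Finset.card_eq_three.mp hTU
  have hmem : ∀ z, z ∈ T ∪ U → z ∈ A ∧ z ∈ B ∪ (U : Set V) := by
    intro z hz
    rcases Finset.mem_union.mp hz with h | h
    · exact ⟨((hT z).mp h).1, Or.inl ((hT z).mp h).2⟩
    · exact ⟨hNA z (hUN z h), Or.inr h⟩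
  have ha := hmem a (by rw [habc]; simp)
  have hb := hmem b (by rw [habc]; simp)
  have hc' := hmem c (by rw [habc]; simp)
  let CA : Set (Sym2 V) := {e | e ∈ insert f E ∧ ∀ x ∈ e, x ∈ A}
  refine Sep.false hp hc hf hmin (CA := CA) (CB := insert f E \ CA) (A := A)
    (B := B ∪ (U : Set V)) (a := a) (b := b) (c := c)
    { hab := hab, hac := hac, hbc := hbc, union := ?_, disj := Set.disjoint_sdiff_right,
      hA := fun e he => he.2, hB := ?_, hAB := ?_, aA := ha.1, bA := hb.1, cA := hc'.1,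
      aB := ha.2, bB := hb.2, cB := hc'.2, neA := ?_, neB := ?_ }
  · exact Set.union_sdiff_cancel fun e he => he.1
  · rintro e ⟨he, heA⟩ z hz
    rcases hAB e he with h | h
    · exact absurd ⟨he, h⟩ heA
    · exact Or.inl (h z hz)
  · intro z hzA hzB
    have hz : z ∈ T ∪ U := by
      rcases hzB with h | h
      · exact Finset.mem_union_left _ ((hT z).mpr ⟨hzA, h⟩)
      · exact Finset.mem_union_right _ h
    rw [habc] at hz
    simpa using hz
  · obtain ⟨u, hu⟩ := hx
    refine ⟨s(x, u), ⟨mem_nb.mp hu, ?_⟩, x, Sym2.mem_mk_left x u, ?_⟩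
    · rcases hAB _ (mem_nb.mp hu) with h | h
      · exact h
      · exact absurd (h x (Sym2.mem_mk_left x u)) hxB
    · rintro (h | h)
      · exact hxB h
      · exact hc.not_mem_nb hf x (hUN x h)
  · obtain ⟨u, hu⟩ := hy
    refine ⟨s(y, u), ⟨mem_nb.mp hu, fun h => hyA (h.2 y (Sym2.mem_mk_left y u))⟩, y,
      Sym2.mem_mk_left y u, hyA⟩

end Pool.Agent.Lib.MP_071ace_co
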