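import Mathlib
import Pool.Agent.Lib.MP_071ace_co.Four2

/-!
Local structure of a smallest counterexample: cuts and neighbourhoods.
-/

set_option autoImplicit false

namespace Pool.Agent.Lib.MP_071ace_co

open Submodule

variable {V : Type*} [DecidableEq V]
variable {p : V → Fin 3 → ℝ} (hp : Generic p) {E : Set (Sym2 V)} {f : Sym2 V}

/-- Pairs inside `K` which are implied by `E`. -/
def inner (p : V → Fin 3 → ℝ) (E : Set (Sym2 V)) (K : Finset V) : Set (Sym2 V) :=
  {e | e ∈ pairs K ∧ row p e ∈ span ℝ (row p '' E)}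

include hp in
theorem Circ.no_cut [Finite V] (hc : Circ E f) (hf : ¬ f.IsDiag) (hmin : Smallest p E f)
    {CA CB : Set (Sym2 V)} {K : Finset V} {A B : Set V}
    (hunion : CA ∪ CB = insert f E) (hfA : f ∈ CA) (hfB : f ∉ CB)
    (hA : ∀ e ∈ CA, ∀ x ∈ e, x ∈ A) (hB : ∀ e ∈ CB, ∀ x ∈ e, x ∈ B)
    (hK : ∀ x, x ∈ A → x ∈ B → x ∈ K) (hKA : ∀ x ∈ K, x ∈ A) (hKB : ∀ x ∈ K, x ∈ B)
    (h3 : 3 ≤ K.card)
    (neA : ∃ e ∈ CA, ∃ x ∈ e, x ∉ B) (neB : ∃ e ∈ CB, ∃ x ∈ e, x ∉ A) (g : Sym2 V)
    (hg : ∀ e ∈ pairs K, row p e ∈ span ℝ (row p '' insert g (inner p E K))) : False := by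
  classical
  have := Fintype.ofFinite V
  have hCE : ∀ e ∈ insert f E, row p e ∈ span ℝ (row p '' E) := fun e he => hc.row_mem hp he
  have hspB : span ℝ (row p '' CB) ≤ span ℝ (row p '' E) := by
    rw [span_le]
    rintro _ ⟨e, he, rfl⟩
    exact hCE e (hunion ▸ Or.inr he)
  have hEsub : E ⊆ (CA \ {f}) ∪ CB := by
    intro e he
    have h1 : e ∈ CA ∪ CB := hunion ▸ Or.inr he
    rcases h1 with h1 | h1
    · exact Or.inl ⟨h1, fun h2 => hc.nmem (h2 ▸ he)⟩
    · exact Or.inr h1
  have hfs := span_mono (R := ℝ) (Set.image_mono hEsub) (hc.mem_span hp)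
  rw [Set.image_union, span_union, mem_sup] at hfs
  obtain ⟨y, hy, w, hw, hyw⟩ := hfs
  have hwA : w ∈ span ℝ (row p '' CA) := by
    have h1 : w = row p f - y := by rw [← hyw]; abel
    rw [h1]
    exact sub_mem (subset_span ⟨f, hfA, rfl⟩)
      (span_mono (Set.image_mono Set.sdiff_subset) hy)
  have hwK : w ∈ span ℝ (row p '' pairs K) := by
    have huniv : (Finset.univ \ K) ∪ K = (Finset.univ : Finset V) :=
      Finset.sdiff_union_of_subset (Finset.subset_univ _)
    refine hp.restrict h3 (Finset.univ \ K) Finset.disjoint_sdiff ?_ fun x hx => ?_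
    · rw [huniv]
      refine span_mono (Set.image_mono ?_) hw
      intro e he
      induction e using Sym2.ind with
      | _ x y =>
        refine ⟨x, Finset.mem_univ x, y, Finset.mem_univ y, ?_, rfl⟩
        rintro rfl
        exact hc.not_loop hf x (hunion ▸ Or.inr he)
    · have hxK : x ∉ K := (Finset.mem_sdiff.mp hx).2
      by_cases hxA : x ∈ A
      · have hxB : x ∉ B := fun hxB => hxK (hK x hxA hxB)
        exact proj_span_avoids p (fun e he hxe => hxB (hB e he x hxe)) hw
      · exact proj_span_avoids p (fun e he hxe => hxA (hA e he x hxe)) hwA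
  have hPE : span ℝ (row p '' inner p E K) ≤ span ℝ (row p '' E) := by
    rw [span_le]
    rintro _ ⟨e, he, rfl⟩
    exact he.2
  have hwP : w ∈ span ℝ (row p '' inner p E K) := by
    by_cases hgE : row p g ∈ span ℝ (row p '' E)
    · refine span_mono (Set.image_mono ?_) hwK
      intro e he
      refine ⟨he, ?_⟩
      have h1 : span ℝ (row p '' insert g (inner p E K)) ≤ span ℝ (row p '' E) := by
        rw [Set.image_insert_eq, span_insert, sup_le_iff]
        exact ⟨(span_singleton_le_iff_mem _ _).mpr hgE, hPE⟩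
      exact h1 (hg e he)
    · have h1 : w ∈ span ℝ (row p '' insert g (inner p E K)) := by
        have h2 : span ℝ (row p '' pairs K) ≤ span ℝ (row p '' insert g (inner p E K)) := by
          rw [span_le]
          rintro _ ⟨e, he, rfl⟩
          exact hg e he
        exact h2 hwK
      rw [Set.image_insert_eq, mem_span_insert] at h1
      obtain ⟨t, z, hz, hwz⟩ := h1
      have h2 : t • row p g ∈ span ℝ (row p '' E) := by
        have h3 : t • row p g = w - z := by rw [hwz]; abel
        rw [h3]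
        exact sub_mem (hspB hw) (hPE hz)
      have ht : t = 0 := by
        by_contra ht
        apply hgE
        have h4 := smul_mem _ t⁻¹ h2
        rwa [smul_smul, inv_mul_cancel₀ ht, one_smul] at h4
      rw [hwz, ht, zero_smul, zero_add]
      exact hz
  have hxA : ∀ e ∈ inner p E K, ∀ x ∈ e, x ∈ K := by
    rintro e ⟨⟨u, hu, v, hv, -, rfl⟩, -⟩ x hx
    rcases Sym2.mem_iff.mp hx with rfl | rfl
    · exact hu
    · exact hv
  obtain ⟨eA, heA, x, hxe, hxB⟩ := neA
  obtain ⟨eB, heB, x', hxe', hxA'⟩ := neB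
  have hnx : (nb (insert f E) x).Nonempty := by
    obtain ⟨y, rfl⟩ := Sym2.mem_iff_exists.mp hxe
    exact ⟨y, mem_nb.mpr (hunion ▸ Or.inl heA)⟩
  have hnx' : (nb (insert f E) x').Nonempty := by
    obtain ⟨y, rfl⟩ := Sym2.mem_iff_exists.mp hxe'
    exact ⟨y, mem_nb.mpr (hunion ▸ Or.inr heB)⟩
  -- the two candidate sets
  have first : row p f ∈ span ℝ (row p '' (CA \ {f} ∪ inner p E K \ {f})) → False := by
    intro hsp
    refine hc.small hp hf (F0 := CA \ {f} ∪ inner p E K \ {f}) (z := x') ?_ hsp ?_ hnx' ?_ hmin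
    · rintro (h | h) <;> exact h.2 rfl
    · rintro e (he | he)
      · exact hCE e (hunion ▸ Or.inl he.1)
      · exact he.1.2
    · rintro e (he | he) hx
      · exact hxA' (hA e he.1 x' hx)
      · exact hxA' (hKA x' (hxA e he.1 x' hx))
  have second : row p f ∈ span ℝ (row p '' (CB ∪ inner p E K \ {f})) → False := by
    intro hsp
    refine hc.small hp hf (F0 := CB ∪ inner p E K \ {f}) (z := x) ?_ hsp ?_ hnx ?_ hmin
    · rintro (h | h)
      · exact hfB h
      · exact h.2 rfl
    · rintro e (he | he)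
      · exact hCE e (hunion ▸ Or.inr he)
      · exact he.1.2
    · rintro e (he | he) hx
      · exact hxB (hB e he x hx)
      · exact hxB (hKB x (hxA e he.1 x hx))
  have hy' : y ∈ span ℝ (row p '' (CA \ {f} ∪ inner p E K \ {f})) :=
    span_mono (Set.image_mono Set.subset_union_left) hy
  by_cases hfP : f ∈ inner p E K
  · have hins : row p '' inner p E K = insert (row p f) (row p '' (inner p E K \ {f})) := by
      rw [← Set.image_insert_eq, Set.insert_sdiff_singleton, Set.insert_eq_of_mem hfP]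
    rw [hins, mem_span_insert] at hwP
    obtain ⟨τ, z, hz, hwz⟩ := hwP
    by_cases hτ : τ = 1
    · apply second
      have h1 : row p f = w - z := by rw [hwz, hτ, one_smul]; abel
      rw [h1]
      exact sub_mem (span_mono (Set.image_mono Set.subset_union_left) hw)
        (span_mono (Set.image_mono Set.subset_union_right) hz)
    · apply first
      have h1 : (1 - τ) • row p f = y + z := by
        have h2 : y = row p f - w := by rw [← hyw]; abel
        rw [h2, hwz]
        module
      have h3 : y + z ∈ span ℝ (row p '' (CA \ {f} ∪ inner p E K \ {f})) :=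
        add_mem hy' (span_mono (Set.image_mono Set.subset_union_right) hz)
      rw [← h1] at h3
      have h4 := smul_mem _ (1 - τ)⁻¹ h3
      rwa [smul_smul, inv_mul_cancel₀ (sub_ne_zero.mpr (Ne.symm hτ)), one_smul] at h4
  · apply first
    rw [← hyw, Set.sdiff_singleton_eq_self hfP]
    exact add_mem (span_mono (Set.image_mono Set.subset_union_left) hy)
      (span_mono (Set.image_mono Set.subset_union_right) hwP)

include hp in
/-- General separations. -/
theorem Circ.cut [Finite V] (hc : Circ E f) (hf : ¬ f.IsDiag)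
    (hK5 : ¬ K5at p E f) (hmin : Smallest p E f) {A B : Set V} {K : Finset V}
    (hAB : ∀ e ∈ insert f E, (∀ x ∈ e, x ∈ A) ∨ (∀ x ∈ e, x ∈ B))
    (hK : ∀ x, x ∈ K ↔ x ∈ A ∧ x ∈ B) {x y : V} (hx : (nb (insert f E) x).Nonempty) (hxB : x ∉ B)
    (hy : (nb (insert f E) y).Nonempty) (hyA : y ∉ A) :
    4 ≤ K.card ∧ ∀ g, ∃ e ∈ pairs K, row p e ∉ span ℝ (row p '' insert g (inner p E K)) := by
  classical
  have hK' : A ∩ B = (K : Set V) := by
    ext z
    simp [hK]
  have h4 : 4 ≤ K.card := by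
    by_contra hlt
    refine hc.four_connected hp hf hK5 hmin hAB ?_ hx hxB hy hyA
    rw [hK', Set.ncard_coe_finset]
    omega
  refine ⟨h4, fun g => ?_⟩
  by_contra hcon
  push Not at hcon
  obtain ⟨u, hu⟩ := hx
  obtain ⟨v, hv⟩ := hy
  let CA : Set (Sym2 V) := {e | e ∈ insert f E ∧ ∀ x ∈ e, x ∈ A}
  have hun : CA ∪ (insert f E \ CA) = insert f E := Set.union_sdiff_cancel fun e he => he.1
  have hBB : ∀ e ∈ insert f E \ CA, ∀ x ∈ e, x ∈ B := by
    rintro e ⟨he, heA⟩
    rcases hAB e he with h | h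
    · exact absurd ⟨he, h⟩ heA
    · exact h
  have hneA : ∃ e ∈ CA, ∃ x ∈ e, x ∉ B := by
    refine ⟨s(x, u), ⟨mem_nb.mp hu, ?_⟩, x, Sym2.mem_mk_left x u, hxB⟩
    rcases hAB _ (mem_nb.mp hu) with h | h
    · exact h
    · exact absurd (h x (Sym2.mem_mk_left x u)) hxB
  have hneB : ∃ e ∈ insert f E \ CA, ∃ x ∈ e, x ∉ A :=
    ⟨s(y, v), ⟨mem_nb.mp hv, fun h => hyA (h.2 y (Sym2.mem_mk_left y v))⟩, y,
      Sym2.mem_mk_left y v, hyA⟩
  by_cases hfA : f ∈ CA
  · exact hc.no_cut hp hf hmin hun hfA (fun h => h.2 hfA) (fun e he => he.2) hBB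
      (fun x h1 h2 => (hK x).mpr ⟨h1, h2⟩) (fun x h => ((hK x).mp h).1)
      (fun x h => ((hK x).mp h).2) (by omega) hneA hneB g hcon
  · refine hc.no_cut hp hf hmin (CA := insert f E \ CA) (CB := CA) ?_
      ⟨Set.mem_insert f E, hfA⟩ hfA hBB (fun e he => he.2)
      (fun x h1 h2 => (hK x).mpr ⟨h2, h1⟩) (fun x h => ((hK x).mp h).2)
      (fun x h => ((hK x).mp h).1) (by omega) hneB hneA g hcon
    rw [Set.union_comm]
    exact hun

theorem Circ.K5_of_inner [Finite V] (hp : Generic p) (hc : Circ E f) (hf : ¬ f.IsDiag)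
    {x : V} {N : Finset V} (hN : N ⊆ nb (insert f E) x) (h4 : 4 ≤ N.card)
    (hcl : ∀ e ∈ pairs N, row p e ∈ span ℝ (row p '' E))
    {a b : V} (hab : a ≠ b) (ha : a ∈ insert x N) (hb : b ∈ insert x N) :
    K5at p E s(a, b) := by
  classical
  have hxN : x ∉ N := fun h => hc.not_mem_nb hf x (hN h)
  have hcard : 5 ≤ (insert x N).card := by
    rw [Finset.card_insert_of_notMem hxN]
    omega
  have hcl' : ∀ e ∈ pairs (insert x N), row p e ∈ span ℝ (row p '' E) := by
    intro e he
    rw [pairs_insert x N hxN] at he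
    rcases he with he | ⟨y, hy, rfl⟩
    · exact hcl e he
    · exact hc.row_mem hp (mem_nb.mp (hN hy))
  have hsub : ({a, b} : Finset V) ⊆ insert x N := by
    intro z hz
    rcases Finset.mem_insert.mp hz with rfl | hz
    · exact ha
    · rw [Finset.mem_singleton.mp hz]
      exact hb
  have hc2 : ({a, b} : Finset V).card ≤ 5 := by
    rw [Finset.card_pair hab]
    omega
  obtain ⟨T, hT1, hT2, hT3⟩ := Finset.exists_subsuperset_card_eq hsub hc2 hcard
  refine ⟨T, hT3, ?_, ?_⟩
  · exact ⟨a, hT1 (by simp), b, hT1 (by simp), hab, rfl⟩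
  · rintro e ⟨u, hu, v, hv, huv, rfl⟩
    exact hcl' _ ⟨u, hT2 hu, v, hT2 hv, huv, rfl⟩

theorem finrank_image_le [Finite V] (p : V → Fin 3 → ℝ) (S : Set (Sym2 V)) :
    Module.finrank ℝ (span ℝ (row p '' S)) ≤ S.ncard := by
  classical
  have hS := Set.toFinite S
  have him : row p '' S = ((hS.toFinset.image (row p) : Finset _) : Set _) := by simp
  rw [him]
  refine (finrank_span_finset_le_card _).trans (Finset.card_image_le.trans ?_)
  rw [Set.ncard_eq_toFinset_card S hS]

include hp in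
/-- No vertex has all its neighbours but one in a clique of the closure. -/
theorem Circ.no_near [Finite V] (hc : Circ E f) (hf : ¬ f.IsDiag)
    (hK5 : ¬ K5at p E f) (hmin : Smallest p E f) {x : V}
    (hx : (nb (insert f E) x).Nonempty) (w : V) :
    ∃ e ∈ pairs ((nb (insert f E) x).erase w), row p e ∉ span ℝ (row p '' E) := by
  classical
  by_contra hcl
  push Not at hcl
  set N := nb (insert f E) x with hNdef
  have h5 : 5 ≤ N.card := hc.five_le hp hf hK5 hmin hx
  have hxN : x ∉ N := hc.not_mem_nb hf x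
  have h4 : 4 ≤ (N.erase w).card := by
    have := Finset.pred_card_le_card_erase (s := N) (a := w)
    omega
  have hsubN : N.erase w ⊆ N := Finset.erase_subset w N
  obtain ⟨N0, hN0, hN0c⟩ := Finset.exists_subset_card_eq (s := N.erase w) (n := 3) (by omega)
  have hN1 : (insert w N0).card ≤ 4 := (Finset.card_insert_le w N0).trans (by omega)
  -- f is not a pair of the clique on x and N \ w
  have hfp : f ∉ pairs (N.erase w) := by
    rintro ⟨a, ha, b, hb, hab, rfl⟩
    exact hK5 (hc.K5_of_inner hp hf hsubN h4 hcl hab (Finset.mem_insert_of_mem ha)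
      (Finset.mem_insert_of_mem hb))
  have hfx : ∀ y ∈ N.erase w, f ≠ s(x, y) := by
    rintro y hy rfl
    exact hK5 (hc.K5_of_inner hp hf hsubN h4 hcl (fun h => hxN (h ▸ hsubN hy))
      (Finset.mem_insert_self x _) (Finset.mem_insert_of_mem hy))
  let D : Set (Sym2 V) := (del (insert f E) x ∪ pairs (N.erase w) ∪ star x (N ∩ insert w N0)) \ {f}
  have hDE : ∀ e ∈ D, row p e ∈ span ℝ (row p '' E) := by
    rintro e ⟨(he | he) | ⟨y, hy, rfl⟩, -⟩
    · exact hc.row_mem hp he.1
    · exact hcl e he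
    · exact hc.row_mem hp (mem_nb.mp (Finset.mem_inter.mp hy).1)
  have hspan : row p f ∈ span ℝ (row p '' D) := by
    have hpD : row p '' pairs (N.erase w) ⊆ span ℝ (row p '' D) := by
      rintro _ ⟨e, he, rfl⟩
      exact subset_span ⟨e, ⟨Or.inl (Or.inr he), fun h => hfp (h ▸ he)⟩, rfl⟩
    have hst := hp.star_le (v := x) (N := N.erase w) (N0 := N0) (fun h => hxN (hsubN h)) hN0 hN0c hpD
    have hst0 : span ℝ (row p '' star x N0) ≤ span ℝ (row p '' D) := by
      rw [span_le]
      rintro _ ⟨_, ⟨y, hy, rfl⟩, rfl⟩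
      refine subset_span ⟨s(x, y), ⟨Or.inr ⟨y, ?_, rfl⟩, ?_⟩, rfl⟩
      · exact Finset.mem_inter.mpr ⟨hsubN (hN0 hy), Finset.mem_insert_of_mem hy⟩
      · exact fun h => hfx y (hN0 hy) h.symm
    have hst1 : span ℝ (row p '' star x (N.erase w)) ≤ span ℝ (row p '' D) :=
      hst.trans (sup_le le_rfl hst0)
    have hED : span ℝ (row p '' E) ≤ span ℝ (row p '' D) := by
      rw [span_le]
      rintro _ ⟨e, he, rfl⟩
      have hef : e ≠ f := fun h => hc.nmem (h ▸ he)
      by_cases hxe : x ∈ e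
      · obtain ⟨y, rfl⟩ := Sym2.mem_iff_exists.mp hxe
        have hyN : y ∈ N := mem_nb.mpr (Or.inr he)
        by_cases hyw : y = w
        · subst hyw
          exact subset_span ⟨s(x, y), ⟨Or.inr ⟨y, Finset.mem_inter.mpr
            ⟨hyN, Finset.mem_insert_self y N0⟩, rfl⟩, hef⟩, rfl⟩
        · exact hst1 (subset_span ⟨s(x, y), ⟨y, Finset.mem_erase.mpr ⟨hyw, hyN⟩, rfl⟩, rfl⟩)
      · exact subset_span ⟨e, ⟨Or.inl (Or.inl ⟨Or.inr he, hxe⟩), hef⟩, rfl⟩
    exact hED (hc.mem_span hp)
  obtain ⟨F, hF1, -, hF3, hF4⟩ := exists_linearIndepOn_extension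
    (K := ℝ) (v := row p) (s := ∅) (t := D) (linearIndepOn_empty ℝ (row p)) (Set.empty_subset _)
  have hfF : f ∉ F := fun h => (hF1 h).2 rfl
  obtain ⟨E', hE'F, hE'⟩ := hp.extract ⟨p, hF4⟩ hfF (span_le.mpr hF3 hspan)
  have hle : span ℝ (row p '' E') ≤ span ℝ (row p '' E) := by
    rw [span_le]
    rintro _ ⟨e, he, rfl⟩
    exact hDE e (hF1 (hE'F he))
  by_cases hne : (nb (insert f E') x).Nonempty
  · have hle4 : (nb (insert f E') x).card ≤ 4 := by
      refine (Finset.card_le_card ?_).trans hN1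
      intro y hy
      rcases mem_nb.mp hy with h | h
      · have hyN : y ∈ N := mem_nb.mpr (Or.inl h)
        by_contra hyw
        have : y ∈ N.erase w :=
          Finset.mem_erase.mpr ⟨fun h1 => hyw (h1 ▸ Finset.mem_insert_self y N0), hyN⟩
        exact hfx y this h.symm
      · rcases (hF1 (hE'F h)).1 with (h1 | ⟨u, hu, v, hv, -, h1⟩) | ⟨z, hz, h1⟩
        · exact absurd (Sym2.mem_mk_left x y) h1.2
        · have h2 : x ∈ s(u, v) := h1 ▸ Sym2.mem_mk_left x y
          rcases Sym2.mem_iff.mp h2 with h2 | h2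
          · exact absurd (h2 ▸ hsubN hu) hxN
          · exact absurd (h2 ▸ hsubN hv) hxN
        · have h2 : z = y := Sym2.congr_right.mp h1
          exact h2 ▸ (Finset.mem_inter.mp hz).2
    have hx4 : (nb (insert f E') x).card = 4 := by
      have := hE'.four_le hp hf hne
      omega
    have hK' : ¬ K5at p E' f := fun h => hK5 (K5at_mono hle h)
    obtain ⟨E1, h1, -, hle1, -, hx1, -⟩ := hE'.reduce_four hp hf hx4 hK'
    exact hc.small hp hf h1.nmem (h1.mem_span hp)
      (fun e he => hle (hle1 (subset_span ⟨e, he, rfl⟩))) hx hx1 hmin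
  · have hav : ∀ e ∈ E', x ∉ e := by
      intro e he hxe
      obtain ⟨y, rfl⟩ := Sym2.mem_iff_exists.mp hxe
      exact hne ⟨y, mem_nb.mpr (Or.inr he)⟩
    exact hc.small hp hf hE'.nmem (hE'.mem_span hp)
      (fun e he => hle (subset_span ⟨e, he, rfl⟩)) hx hav hmin

include hp in
/-- At a vertex of degree five the neighbourhood has two degrees of freedom. -/
theorem Circ.codim_two [Finite V] (hc : Circ E f) (hf : ¬ f.IsDiag)
    (hK5 : ¬ K5at p E f) (hmin : Smallest p E f) {x : V}
    (hx : (nb (insert f E) x).card = 5) :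
    ∃ g ∈ pairs (nb (insert f E) x), ∃ g' ∈ pairs (nb (insert f E) x),
      g ∉ insert g' (del (insert f E) x) ∧ g' ∉ del (insert f E) x ∧
      Indep (insert g (insert g' (del (insert f E) x))) := by
  classical
  set N := nb (insert f E) x with hNdef
  have hne : N.Nonempty := Finset.card_pos.mp (by omega)
  have hxN : x ∉ N := hc.not_mem_nb hf x
  have hY := hc.del_indep hne
  have hYE := hc.span_del_le hp x
  obtain ⟨g', hg', hg'E⟩ := hc.not_simplicial hp hf hK5 hmin hne
  have hg'Y : row p g' ∉ span ℝ (row p '' del (insert f E) x) := fun h => hg'E (hYE h)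
  have hg'm : g' ∉ del (insert f E) x := fun h => hg'Y (subset_span ⟨g', h, rfl⟩)
  have hI1 : Indep (insert g' (del (insert f E) x)) :=
    (hp.indep_insert_iff hY hg'm).mpr hg'Y
  by_contra hcon
  push Not at hcon
  have hall : row p '' pairs N ⊆ span ℝ (row p '' insert g' (del (insert f E) x)) := by
    rintro _ ⟨g, hg, rfl⟩
    by_contra hgn
    have hgm : g ∉ insert g' (del (insert f E) x) := fun h => hgn (subset_span ⟨g, h, rfl⟩)
    exact hcon g hg g' hg' hgm hg'm ((hp.indep_insert_iff hI1 hgm).mpr hgn)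
  obtain ⟨N0, hN0, hN0c⟩ := Finset.exists_subset_card_eq (s := N) (n := 3) (by omega)
  have hst := hp.star_le hxN hN0 hN0c hall
  set Z := span ℝ (row p '' insert g' (del (insert f E) x)) ⊔ span ℝ (row p '' star x N0) with hZ
  have hEZ : span ℝ (row p '' E) ≤ Z := by
    rw [span_le]
    rintro _ ⟨e, he, rfl⟩
    by_cases hxe : x ∈ e
    · obtain ⟨y, rfl⟩ := Sym2.mem_iff_exists.mp hxe
      exact hst (subset_span ⟨s(x, y), ⟨y, mem_nb.mpr (Or.inr he), rfl⟩, rfl⟩)
    · exact (le_sup_left : _ ≤ Z) (subset_span ⟨e, Or.inr ⟨Or.inr he, hxe⟩, rfl⟩)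
  have hfin : ∀ s : Set (Sym2 V), s.Finite := fun s => Set.toFinite s
  have hZdim : Module.finrank ℝ Z ≤ (del (insert f E) x).ncard + 4 := by
    have h1 : Module.finrank ℝ Z ≤ _ := Submodule.finrank_add_le_finrank_add_finrank
      (span ℝ (row p '' insert g' (del (insert f E) x))) (span ℝ (row p '' star x N0))
    have h2 := finrank_image_le p (insert g' (del (insert f E) x))
    have h4 := Set.ncard_insert_of_notMem hg'm
    have h5 := finrank_star_le p x N0
    omega
  have hEdim : (del (insert f E) x).ncard + 4 ≤ Module.finrank ℝ (span ℝ (row p '' E)) := by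
    rw [hc.finrank hp]
    have h1 := Set.ncard_insert_of_notMem hc.nmem
    have h2 : (insert f E).ncard = (del (insert f E) x).ncard + (star x N).ncard := by
      rw [← Set.ncard_union_eq, ← del_union_star]
      rw [Set.disjoint_left]
      rintro _ ⟨-, h3⟩ ⟨y, -, rfl⟩
      exact h3 (Sym2.mem_mk_left x y)
    have h3 : (star x N).ncard = 5 := by
      rw [star, Set.ncard_image_of_injective, Set.ncard_coe_finset, hx]
      intro y z hyz
      exact Sym2.congr_right.mp hyz
    omega
  have hEq : span ℝ (row p '' E) = Z :=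
    Submodule.eq_of_le_of_finrank_le hEZ (hZdim.trans hEdim)
  apply hg'E
  rw [hEq]
  exact (le_sup_left : _ ≤ Z) (subset_span ⟨g', Set.mem_insert _ _, rfl⟩)

end Pool.Agent.Lib.MP_071ace_co


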