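import Mathlib
import Pool.Agent.Lib.MP_071ace_co.Local

/-!
Graph language for the generic 3-dimensional rigidity matroid and the link to rows of a
generic placement.
-/

set_option autoImplicit false

namespace Pool.Agent.Lib.MP_071ace_co

open Submodule

variable {V : Type*} [DecidableEq V]

/-- A graph is independent in the generic 3-dimensional rigidity matroid. -/
def Independent (G : SimpleGraph V) : Prop := Indep G.edgeSet

/-- The rank of a graph in the generic 3-dimensional rigidity matroid. -/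
noncomputable def rk (G : SimpleGraph V) : ℕ :=
  sSup {n | ∃ I : SimpleGraph V, I ≤ G ∧ Independent I ∧ I.edgeSet.ncard = n}

/-- The closure of `G`: the pairs whose addition does not change the rank. -/
def CL (G : SimpleGraph V) : SimpleGraph V where
  Adj a b := a ≠ b ∧ rk (G ⊔ SimpleGraph.edge a b) = rk G
  symm := ⟨by
    intro a b h
    refine ⟨h.1.symm, ?_⟩
    rw [SimpleGraph.edge_comm]
    exact h.2⟩
  loopless := ⟨fun a h => h.1 rfl⟩

/-- `u` and `v` lie in a `K_5` of the closure of `G`. -/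
def InK5 (G : SimpleGraph V) (u v : V) : Prop :=
  ∃ s : Finset V, s.card = 5 ∧ u ∈ s ∧ v ∈ s ∧ ∀ a ∈ s, ∀ b ∈ s, a ≠ b → (CL G).Adj a b

/-- `uv` is an implied nonedge of the independent graph `G`. -/
structure Implied (G : SimpleGraph V) (u v : V) : Prop where
  indep : Independent G
  nadj : ¬ G.Adj u v
  mem : (CL G).Adj u v

/-- A circuit of the matroid: dependent, but independent after deletion of any edge. -/
def IsCircuit (C : SimpleGraph V) : Prop :=
  ¬ Independent C ∧ ∀ e ∈ C.edgeSet, Independent (C.deleteEdges {e})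

/-- The edges of `G` with both ends in `K`. -/
def within (G : SimpleGraph V) (K : Set V) : SimpleGraph V where
  Adj a b := a ∈ K ∧ b ∈ K ∧ G.Adj a b
  symm := ⟨fun _ _ h => ⟨h.2.1, h.1, h.2.2.symm⟩⟩
  loopless := ⟨fun a h => G.loopless.irrefl a h.2.2⟩

variable {p : V → Fin 3 → ℝ}

theorem finrank_indep [Finite V] (hp : Generic p) {E : Set (Sym2 V)} (h : Indep E) :
    Module.finrank ℝ (span ℝ (row p '' E)) = E.ncard := by
  classical
  have := Fintype.ofFinite V
  have h1 : LinearIndependent ℝ (fun e : E => row p e.1) := hp.1 _ h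
  have := Fintype.ofFinite E
  have h2 := finrank_span_eq_card h1
  rw [← Set.image_eq_range] at h2
  rw [h2, Set.ncard_eq_toFinset_card', Set.toFinset_card]

omit [DecidableEq V] in
theorem edgeSet_from {F : Set (Sym2 V)} (h : ∀ x, s(x, x) ∉ F) :
    (SimpleGraph.fromEdgeSet F).edgeSet = F := by
  rw [SimpleGraph.edgeSet_fromEdgeSet]
  ext e
  constructor
  · exact fun h => h.1
  · intro he
    refine ⟨he, ?_⟩
    intro hd
    induction e using Sym2.ind with
    | _ a b =>
      have : a = b := hd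
      exact h a (this ▸ he)

omit [DecidableEq V] in
theorem edgeSet_sup_edge (G : SimpleGraph V) {a b : V} (hab : a ≠ b) :
    (G ⊔ SimpleGraph.edge a b).edgeSet = insert s(a, b) G.edgeSet := by
  rw [SimpleGraph.edgeSet_sup, SimpleGraph.edge, SimpleGraph.edgeSet_fromEdgeSet]
  ext e
  constructor
  · rintro (h | h)
    · exact Or.inr h
    · exact Or.inl h.1
  · rintro (rfl | h)
    · exact Or.inr ⟨rfl, fun h => hab (Sym2.mk_isDiag_iff.mp h)⟩
    · exact Or.inl h

theorem rk_eq [Finite V] (hp : Generic p) (G : SimpleGraph V) :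
    rk G = Module.finrank ℝ (span ℝ (row p '' G.edgeSet)) := by
  have := Fintype.ofFinite V
  refine IsGreatest.csSup_eq ⟨?_, ?_⟩
  · obtain ⟨F, hF1, -, hF3, hF4⟩ := exists_linearIndepOn_extension
      (K := ℝ) (v := row p) (s := ∅) (t := G.edgeSet) (linearIndepOn_empty ℝ (row p))
      (Set.empty_subset _)
    have hloop : ∀ x, s(x, x) ∉ F := fun x hx => G.loopless.irrefl x (hF1 hx)
    have hed := edgeSet_from hloop
    have hI : Independent (SimpleGraph.fromEdgeSet F) := by
      rw [Independent, hed]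
      exact ⟨p, hF4⟩
    refine ⟨SimpleGraph.fromEdgeSet F, ?_, hI, ?_⟩
    · rw [← SimpleGraph.edgeSet_subset_edgeSet, hed]
      exact hF1
    · have hsp : span ℝ (row p '' F) = span ℝ (row p '' G.edgeSet) :=
        le_antisymm (span_mono (Set.image_mono hF1)) (span_le.mpr hF3)
      rw [← finrank_indep hp hI, hed, hsp]
  · rintro n ⟨I, hIG, hI, rfl⟩
    rw [← finrank_indep hp hI]
    exact Submodule.finrank_mono
      (span_mono (Set.image_mono (SimpleGraph.edgeSet_subset_edgeSet.mpr hIG)))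

theorem mem_CL [Finite V] (hp : Generic p) {G : SimpleGraph V} {a b : V} :
    (CL G).Adj a b ↔ a ≠ b ∧ row p s(a, b) ∈ span ℝ (row p '' G.edgeSet) := by
  have := Fintype.ofFinite V
  have h0 : (CL G).Adj a b ↔ a ≠ b ∧ rk (G ⊔ SimpleGraph.edge a b) = rk G := Iff.rfl
  rw [h0]
  refine and_congr_right fun hab => ?_
  rw [rk_eq hp, rk_eq hp, edgeSet_sup_edge G hab]
  constructor
  · intro h
    have hle : span ℝ (row p '' G.edgeSet) ≤ span ℝ (row p '' insert s(a, b) G.edgeSet) :=
      span_mono (Set.image_mono (Set.subset_insert _ _))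
    rw [Submodule.eq_of_le_of_finrank_le hle h.le]
    exact subset_span ⟨_, Set.mem_insert _ _, rfl⟩
  · intro h
    rw [Set.image_insert_eq, span_insert, sup_eq_right.mpr]
    exact (span_singleton_le_iff_mem _ _).mpr h

theorem inK5_iff [Finite V] (hp : Generic p) {G : SimpleGraph V} {u v : V} (huv : u ≠ v) :
    InK5 G u v ↔ K5at p G.edgeSet s(u, v) := by
  constructor
  · rintro ⟨s, hs, hu, hv, h⟩
    refine ⟨s, hs, ⟨u, hu, v, hv, huv, rfl⟩, ?_⟩
    rintro _ ⟨a, ha, b, hb, hab, rfl⟩
    exact ((mem_CL hp).mp (h a ha b hb hab)).2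
  · rintro ⟨s, hs, ⟨a, ha, b, hb, hab, h1⟩, h⟩
    have h2 : u ∈ s(a, b) := h1 ▸ Sym2.mem_mk_left u v
    have h3 : v ∈ s(a, b) := h1 ▸ Sym2.mem_mk_right u v
    refine ⟨s, hs, ?_, ?_, fun a ha b hb hab =>
      (mem_CL hp).mpr ⟨hab, h _ ⟨a, ha, b, hb, hab, rfl⟩⟩⟩
    · rcases Sym2.mem_iff.mp h2 with rfl | rfl
      · exact ha
      · exact hb
    · rcases Sym2.mem_iff.mp h3 with rfl | rfl
      · exact ha
      · exact hb

theorem CL_le_iff [Finite V] (hp : Generic p) {G H : SimpleGraph V} :
    CL G ≤ CL H ↔ span ℝ (row p '' G.edgeSet) ≤ span ℝ (row p '' H.edgeSet) := by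
  constructor
  · intro h
    rw [span_le]
    rintro _ ⟨e, he, rfl⟩
    induction e using Sym2.ind with
    | _ a b =>
      have hab : a ≠ b := G.ne_of_adj he
      exact ((mem_CL hp).mp (h ((mem_CL hp).mpr ⟨hab, subset_span ⟨_, he, rfl⟩⟩))).2
  · intro h a b hab
    have h1 := (mem_CL hp).mp hab
    exact (mem_CL hp).mpr ⟨h1.1, h h1.2⟩

theorem IsCircuit.circ {C : SimpleGraph V} (h : IsCircuit C) {u v : V} (huv : C.Adj u v) :
    Circ (C.edgeSet \ {s(u, v)}) s(u, v) := by
  have hmem : s(u, v) ∈ C.edgeSet := huv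
  refine ⟨?_, fun h => h.2 rfl, ?_, ?_⟩
  · have := h.2 _ hmem
    rwa [Independent, SimpleGraph.edgeSet_deleteEdges] at this
  · rw [Set.insert_sdiff_singleton, Set.insert_eq_of_mem hmem]
    exact h.1
  · rintro e ⟨he, hne⟩
    have h1 := h.2 e he
    rw [Independent, SimpleGraph.edgeSet_deleteEdges] at h1
    refine h1.mono ?_
    rintro g (rfl | hg)
    · exact ⟨hmem, fun h => hne h.symm⟩
    · exact ⟨hg.1.1, hg.2⟩

theorem Circ.isCircuit {E : Set (Sym2 V)} {f : Sym2 V} (h : Circ E f) (hf : ¬ f.IsDiag) :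
    (SimpleGraph.fromEdgeSet (insert f E)).edgeSet = insert f E ∧
      IsCircuit (SimpleGraph.fromEdgeSet (insert f E)) := by
  have hed := edgeSet_from (h.not_loop hf)
  refine ⟨hed, ?_, ?_⟩
  · rw [Independent, hed]
    exact h.dep
  · intro e he
    rw [hed] at he
    rw [Independent, SimpleGraph.edgeSet_deleteEdges, hed]
    exact h.sub_indep he

theorem Circ.span_insert [Finite V] (hp : Generic p) {E : Set (Sym2 V)} {f : Sym2 V}
    (h : Circ E f) : span ℝ (row p '' insert f E) = span ℝ (row p '' E) := by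
  rw [Set.image_insert_eq, Submodule.span_insert, sup_eq_right.mpr]
  exact (span_singleton_le_iff_mem _ _).mpr (h.mem_span hp)

theorem nb_card [Finite V] (C : SimpleGraph V) (x : V) :
    (nb C.edgeSet x).card = (C.neighborSet x).ncard := by
  rw [nb, ← Set.ncard_eq_toFinset_card _ (Set.toFinite _)]
  rfl

theorem nb_nonempty [Finite V] (C : SimpleGraph V) (x : V) :
    (nb C.edgeSet x).Nonempty ↔ x ∈ C.support := by
  constructor
  · rintro ⟨y, hy⟩
    exact ⟨y, mem_nb.mp hy⟩
  · rintro ⟨y, hy⟩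
    exact ⟨y, mem_nb.mpr hy⟩

theorem nv_eq [Finite V] (C : SimpleGraph V) : nv C.edgeSet = C.support.ncard := by
  rw [nv]
  congr 1
  ext x
  exact nb_nonempty C x

theorem verts_card [Finite V] (C : SimpleGraph V) :
    (verts C.edgeSet).card = C.support.ncard := by
  rw [← nv_eq, nv, verts, ← Set.ncard_eq_toFinset_card _ (Set.toFinite _)]

end Pool.Agent.Lib.MP_071ace_co
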