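import Mathlib
import Pool.Agent.Lib.MP_071ace_co.Stmt

/-!
The three theorems in graph language.
-/

set_option autoImplicit false

namespace Pool.Agent.Lib.MP_071ace_co

open Submodule

variable {V : Type*} [DecidableEq V]

/-- The structure of a smallest circuit through `uv` in no `K_5` of the closure. -/
structure Critical (C : SimpleGraph V) (u v : V) : Prop where
  circuit : IsCircuit C
  adj : C.Adj u v
  not_in : ¬ InK5 C u v
  implied : Implied (C.deleteEdges {s(u, v)}) u v
  closure : CL (C.deleteEdges {s(u, v)}) = CL C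
  smallest : ∀ D : SimpleGraph V, IsCircuit D → D.Adj u v → CL D ≤ CL C →
    C.support.ncard ≤ D.support.ncard
  flexible : C.edgeSet.ncard + 6 ≤ 3 * C.support.ncard
  degree : ∀ x ∈ C.support, 5 ≤ (C.neighborSet x).ncard
  twelve : 12 ≤ {x : V | (C.neighborSet x).ncard = 5}.ncard
  near : ∀ x ∈ C.support, ∀ w : V, ∃ a b : V, C.Adj x a ∧ C.Adj x b ∧ a ≠ w ∧ b ≠ w ∧ a ≠ b ∧
    ¬ (CL C).Adj a b
  two : ∀ x : V, (C.neighborSet x).ncard = 5 → ∃ a b c d : V, C.Adj x a ∧ C.Adj x b ∧
    C.Adj x c ∧ C.Adj x d ∧ a ≠ b ∧ c ≠ d ∧ s(a, b) ≠ s(c, d) ∧ ¬ C.Adj a b ∧ ¬ C.Adj c d ∧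
    Independent (C.deleteIncidenceSet x ⊔ SimpleGraph.edge a b ⊔ SimpleGraph.edge c d)
  cut : ∀ A B : Set V, (∀ a b : V, C.Adj a b → (a ∈ A ∧ b ∈ A) ∨ (a ∈ B ∧ b ∈ B)) →
    (∃ x ∈ C.support, x ∉ A) → (∃ x ∈ C.support, x ∉ B) →
    4 ≤ (A ∩ B).ncard ∧ rk (within (CL C) (A ∩ B)) + 8 ≤ 3 * (A ∩ B).ncard

/-- A circuit through an implied nonedge. -/
theorem Implied.circuit [Finite V] {p : V → Fin 3 → ℝ} (hp : Generic p) {G : SimpleGraph V}
    {u v : V} (h : Implied G u v) : ∃ E ⊆ G.edgeSet, Circ E s(u, v) :=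
  hp.extract h.indep h.nadj ((mem_CL hp).mp h.mem).2

theorem not_diag {u v : V} (h : u ≠ v) : ¬ (s(u, v)).IsDiag := fun h' =>
  h (Sym2.mk_isDiag_iff.mp h')

theorem nb_mono [Finite V] {C D : Set (Sym2 V)} (h : C ⊆ D) (x : V) : nb C x ⊆ nb D x := by
  intro y hy
  exact mem_nb.mpr (h (mem_nb.mp hy))

/-- At most eleven vertices of degree at least five. -/
theorem few_large [Finite V] (G : SimpleGraph V) (u v : V) (h : Implied G u v)
    (hdeg : {x : V | 5 ≤ ((G ⊔ SimpleGraph.edge u v).neighborSet x).ncard}.ncard ≤ 11) :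
    InK5 G u v := by
  classical
  have := Fintype.ofFinite V
  obtain ⟨p, hp⟩ := exists_generic V
  have huv : u ≠ v := h.mem.1
  have hf := not_diag huv
  obtain ⟨E, hEG, hE⟩ := h.circuit hp
  rw [inK5_iff hp huv]
  have hle : span ℝ (row p '' E) ≤ span ℝ (row p '' G.edgeSet) :=
    span_mono (Set.image_mono hEG)
  by_contra hK
  have hK1 : ¬ K5at p E s(u, v) := fun h1 => hK (K5at_mono hle h1)
  obtain ⟨E', h1, hK', hle', hdeg', hmin'⟩ := Circ.min_five hp hf _ E le_rfl hE hK1
  have h12 := h1.twelve hp hf hK' hmin'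
  have hsub : {x : V | (nb (insert s(u, v) E') x).card = 5} ⊆
      {x : V | 5 ≤ ((G ⊔ SimpleGraph.edge u v).neighborSet x).ncard} := by
    intro x hx
    have hx' : (nb (insert s(u, v) E') x).card = 5 := hx
    have h2 := hdeg' x
    have h3 : (nb (insert s(u, v) E) x).card ≤
        (nb (G ⊔ SimpleGraph.edge u v).edgeSet x).card := by
      refine Finset.card_le_card (nb_mono ?_ x)
      rw [edgeSet_sup_edge G huv]
      exact Set.insert_subset_insert hEG
    rw [nb_card] at h3
    change 5 ≤ _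
    omega
  have := Set.ncard_le_ncard hsub (Set.toFinite _)
  omega

/-- The graph has a perfect elimination order with at most four later neighbours. -/
def Order4 (T : SimpleGraph V) (ord : V → ℕ) : Prop :=
  Function.Injective ord ∧ ∀ x, {y | T.Adj x y ∧ ord x < ord y}.ncard ≤ 4 ∧
    ∀ y z, T.Adj x y → ord x < ord y → T.Adj x z → ord x < ord z → y ≠ z → T.Adj y z

/-- Treewidth at most four. -/
theorem width_four [Finite V] (G : SimpleGraph V) (u v : V) (h : Implied G u v)
    (T : SimpleGraph V) (ord : V → ℕ) (hT : Order4 T ord)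
    (hGT : G ⊔ SimpleGraph.edge u v ≤ T) : InK5 G u v := by
  classical
  obtain ⟨p, hp⟩ := exists_generic V
  have huv : u ≠ v := h.mem.1
  have hf := not_diag huv
  obtain ⟨E, hEG, hE⟩ := h.circuit hp
  rw [inK5_iff hp huv]
  have hle : span ℝ (row p '' E) ≤ span ℝ (row p '' G.edgeSet) :=
    span_mono (Set.image_mono hEG)
  refine K5at_mono hle ?_
  refine Circ.elim hp hf (T := T.edgeSet) (ord := ord) hT.1 hT.2 _ E le_rfl ?_ hE
  refine (Set.insert_subset_insert hEG).trans ?_
  rw [← edgeSet_sup_edge G huv]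
  exact SimpleGraph.edgeSet_subset_edgeSet.mpr hGT

theorem edgeSet_del (C : SimpleGraph V) (x : V) :
    (C.deleteIncidenceSet x).edgeSet = del C.edgeSet x := by
  rw [SimpleGraph.deleteIncidenceSet, SimpleGraph.edgeSet_deleteEdges]
  ext e
  constructor
  · rintro ⟨h1, h2⟩
    exact ⟨h1, fun h3 => h2 ⟨h1, h3⟩⟩
  · rintro ⟨h1, h2⟩
    exact ⟨h1, fun h3 => h2 h3.2⟩

theorem edgeSet_within [Finite V] {p : V → Fin 3 → ℝ} (hp : Generic p) (C : SimpleGraph V)
    {E : Set (Sym2 V)} (hsp : span ℝ (row p '' C.edgeSet) = span ℝ (row p '' E))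
    {S : Set V} {K : Finset V} (hK : ∀ x, x ∈ K ↔ x ∈ S) :
    (within (CL C) S).edgeSet = inner p E K := by
  ext e
  induction e using Sym2.ind with
  | _ a b =>
    constructor
    · rintro ⟨ha, hb, hab⟩
      have h1 := (mem_CL hp).mp hab
      exact ⟨⟨a, (hK a).mpr ha, b, (hK b).mpr hb, h1.1, rfl⟩, hsp ▸ h1.2⟩
    · rintro ⟨⟨c, hc, d, hd, hcd, h1⟩, h2⟩
      have hS : ∀ z ∈ s(a, b), z ∈ S := by
        intro z hz
        rw [h1] at hz
        rcases Sym2.mem_iff.mp hz with rfl | rfl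
        · exact (hK _).mp hc
        · exact (hK _).mp hd
      have hab : a ≠ b := by
        rintro rfl
        rcases Sym2.eq_iff.mp h1 with ⟨h3, h4⟩ | ⟨h3, h4⟩
        · exact hcd (h3.symm.trans h4)
        · exact hcd (h4.symm.trans h3)
      refine ⟨hS a (Sym2.mem_mk_left a b), hS b (Sym2.mem_mk_right a b),
        (mem_CL hp).mpr ⟨hab, ?_⟩⟩
      rw [hsp]
      exact h2

/-- Structure of a smallest counterexample. -/
theorem critical [Finite V] (G : SimpleGraph V) (u v : V) (h : Implied G u v)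
    (hn : ¬ InK5 G u v) : ∃ C : SimpleGraph V, Critical C u v ∧ CL C ≤ CL G ∧
      (CL G = G ⊔ SimpleGraph.edge u v → CL C = C ∧ C ≤ G ⊔ SimpleGraph.edge u v) := by
  classical
  have := Fintype.ofFinite V
  obtain ⟨p, hp⟩ := exists_generic V
  have huv : u ≠ v := h.mem.1
  have hf := not_diag huv
  obtain ⟨E0, hEG, hE0⟩ := h.circuit hp
  rw [inK5_iff hp huv] at hn
  have hle : span ℝ (row p '' E0) ≤ span ℝ (row p '' G.edgeSet) :=
    span_mono (Set.image_mono hEG)
  obtain ⟨E, hE, hleE, hmin⟩ := exists_smallest (p := p) hE0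
  have hK : ¬ K5at p E s(u, v) := fun h1 => hn (K5at_mono (hleE.trans hle) h1)
  obtain ⟨hed, hcirc⟩ := hE.isCircuit hf
  set C : SimpleGraph V := SimpleGraph.fromEdgeSet (insert s(u, v) E) with hC
  have hspI := hE.span_insert hp
  have hsp : span ℝ (row p '' C.edgeSet) = span ℝ (row p '' E) := by rw [hed, hspI]
  have hadj : C.Adj u v := by
    rw [← SimpleGraph.mem_edgeSet, hed]
    exact Set.mem_insert _ _
  have hdel : (C.deleteEdges {s(u, v)}).edgeSet = E := by
    rw [SimpleGraph.edgeSet_deleteEdges, hed]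
    exact Set.insert_sdiff_self_of_notMem hE.nmem
  have hsup : ∀ x, x ∈ C.support → (nb (insert s(u, v) E) x).Nonempty := by
    intro x hx
    rw [← hed]
    exact (nb_nonempty C x).mpr hx
  have hnbc : ∀ x, (C.neighborSet x).ncard = (nb (insert s(u, v) E) x).card := by
    intro x
    rw [← nb_card, hed]
  have hadj' : ∀ {x y : V}, y ∈ nb (insert s(u, v) E) x → C.Adj x y := by
    intro x y hy
    rw [← SimpleGraph.mem_edgeSet, hed]
    exact mem_nb.mp hy
  have hCL : ∀ {a b : V}, (CL C).Adj a b → row p s(a, b) ∈ span ℝ (row p '' E) := by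
    intro a b hab
    rw [← hsp]
    exact ((mem_CL hp).mp hab).2
  have hCG : CL C ≤ CL G := by
    rw [CL_le_iff hp, hsp]
    exact hleE.trans hle
  refine ⟨C, ⟨hcirc, hadj, ?_, ⟨?_, ?_, ?_⟩, ?_, ?_, ?_, ?_, ?_, ?_, ?_, ?_⟩, hCG, ?_⟩
  · rw [inK5_iff hp huv, hed]
    exact fun h1 => hK (K5at_mono hspI.le h1)
  · exact hcirc.2 _ (by rw [hed]; exact Set.mem_insert _ _)
  · rw [← SimpleGraph.mem_edgeSet, hdel]
    exact hE.nmem
  · rw [mem_CL hp, hdel]
    exact ⟨huv, hE.mem_span hp⟩
  · refine le_antisymm ((CL_le_iff hp).mpr ?_) ((CL_le_iff hp).mpr ?_)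
    · rw [hdel, hsp]
    · rw [hdel, hsp]
  · intro D hD hDuv hDC
    have h1 := hD.circ hDuv
    have hmemD : s(u, v) ∈ D.edgeSet := hDuv
    have h2 := hmin _ h1 (by
      rw [← hsp]
      exact (span_mono (Set.image_mono Set.sdiff_subset)).trans ((CL_le_iff hp).mp hDC))
    rw [Set.insert_sdiff_singleton, Set.insert_eq_of_mem hmemD, nv_eq, ← hed, nv_eq] at h2
    exact h2
  · have h1 := hE.flexible hp hf hK
    rw [← hed, verts_card] at h1
    exact h1
  · intro x hx
    rw [hnbc]
    exact hE.five_le hp hf hK hmin (hsup x hx)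
  · have h1 := hE.twelve hp hf hK (fun y hy => hE.five_le hp hf hK hmin hy)
    simpa only [hnbc] using h1
  · intro x hx w
    obtain ⟨e, ⟨a, ha, b, hb, hab, rfl⟩, he⟩ := hE.no_near hp hf hK hmin (hsup x hx) w
    rw [Finset.mem_erase] at ha hb
    exact ⟨a, b, hadj' ha.2, hadj' hb.2, ha.1, hb.1, hab, fun h1 => he (hCL h1)⟩
  · intro x hx
    rw [hnbc] at hx
    obtain ⟨g, ⟨c, hc, d, hd, hcd, rfl⟩, g', ⟨a, ha, b, hb, hab, rfl⟩, hg, hg', hI⟩ :=
      hE.codim_two hp hf hK hmin hx
    have hx1 : ∀ {y : V}, y ∈ nb (insert s(u, v) E) x → y ≠ x := by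
      rintro y hy rfl
      exact hE.not_mem_nb hf _ hy
    have hnadj : ∀ {y z : V}, y ∈ nb (insert s(u, v) E) x → z ∈ nb (insert s(u, v) E) x →
        s(y, z) ∉ del (insert s(u, v) E) x → ¬ C.Adj y z := by
      intro y z hy hz hn hyz
      apply hn
      rw [← SimpleGraph.mem_edgeSet, hed] at hyz
      refine ⟨hyz, fun h1 => ?_⟩
      rcases Sym2.mem_iff.mp h1 with h1 | h1
      · exact hx1 hy h1.symm
      · exact hx1 hz h1.symm
    refine ⟨a, b, c, d, hadj' ha, hadj' hb, hadj' hc, hadj' hd, hab, hcd, ?_,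
      hnadj ha hb hg', hnadj hc hd (fun h1 => hg (Or.inr h1)), ?_⟩
    · intro h1
      exact hg (Or.inl h1.symm)
    · rw [Independent, edgeSet_sup_edge _ hcd, edgeSet_sup_edge _ hab, edgeSet_del, hed]
      exact hI
  · rintro A B hAB ⟨x, hx, hxA⟩ ⟨y, hy, hyB⟩
    obtain ⟨K, hKc⟩ : ∃ K : Finset V, ∀ z, z ∈ K ↔ z ∈ A ∩ B :=
      ⟨(Set.toFinite (A ∩ B)).toFinset, fun z => Set.Finite.mem_toFinset _⟩
    have hncard : (A ∩ B).ncard = K.card := by
      rw [← Set.ncard_coe_finset]
      congr 1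
      ext z
      exact (hKc z).symm
    have hAB' : ∀ e ∈ insert s(u, v) E, (∀ x ∈ e, x ∈ A) ∨ (∀ x ∈ e, x ∈ B) := by
      intro e he
      induction e using Sym2.ind with
      | _ a b =>
        have hab : C.Adj a b := by
          rw [← SimpleGraph.mem_edgeSet, hed]
          exact he
        rcases hAB a b hab with ⟨h1, h2⟩ | ⟨h1, h2⟩
        · left
          intro z hz
          rcases Sym2.mem_iff.mp hz with rfl | rfl
          · exact h1
          · exact h2
        · right
          intro z hz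
          rcases Sym2.mem_iff.mp hz with rfl | rfl
          · exact h1
          · exact h2
    obtain ⟨h4, hcut⟩ := hE.cut hp hf hK hmin (K := K) hAB' (fun z => hKc z) (hsup y hy) hyB
      (hsup x hx) hxA
    rw [hncard]
    refine ⟨h4, ?_⟩
    rw [rk_eq hp, edgeSet_within hp C hsp hKc]
    have hrank := hp.rank_pairs (K.card - 3) K (by omega)
    have hsub : span ℝ (row p '' inner p E K) ≤ span ℝ (row p '' pairs K) :=
      span_mono (Set.image_mono fun e he => he.1)
    by_contra hcon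
    by_cases hall : ∀ e ∈ pairs K, row p e ∈ span ℝ (row p '' inner p E K)
    · obtain ⟨e, he, hne⟩ := hcut s(u, v)
      exact hne (span_mono (Set.image_mono (Set.subset_insert _ _)) (hall e he))
    · push Not at hall
      obtain ⟨g, hg, hgn⟩ := hall
      obtain ⟨e, he, hne⟩ := hcut g
      apply hne
      have h1 : span ℝ (row p '' inner p E K) < span ℝ (row p '' insert g (inner p E K)) := by
        refine lt_of_le_of_ne (span_mono (Set.image_mono (Set.subset_insert _ _))) ?_
        intro h2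
        apply hgn
        rw [h2]
        exact subset_span ⟨g, Set.mem_insert _ _, rfl⟩
      have h2 := Submodule.finrank_lt_finrank_of_lt h1
      have h3 : span ℝ (row p '' insert g (inner p E K)) ≤ span ℝ (row p '' pairs K) := by
        refine span_mono (Set.image_mono ?_)
        rintro e (rfl | he)
        · exact hg
        · exact he.1
      have h4 : span ℝ (row p '' insert g (inner p E K)) = span ℝ (row p '' pairs K) :=
        Submodule.eq_of_le_of_finrank_le h3 (by omega)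
      rw [h4]
      exact subset_span ⟨e, he, rfl⟩
  · intro hclosed
    have hCle : C ≤ CL C := by
      intro a b hab
      exact (mem_CL hp).mpr ⟨C.ne_of_adj hab, subset_span ⟨s(a, b), hab, rfl⟩⟩
    have hCG' : C ≤ G ⊔ SimpleGraph.edge u v := hclosed ▸ hCle.trans hCG
    refine ⟨le_antisymm ?_ hCle, hCG'⟩
    have hEF : E ⊆ G.edgeSet := by
      intro e he
      have h1 : e ∈ C.edgeSet := by rw [hed]; exact Or.inr he
      have h2 := SimpleGraph.edgeSet_subset_edgeSet.mpr hCG' h1
      rw [edgeSet_sup_edge G huv] at h2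
      rcases h2 with h2 | h2
      · exact absurd (h2 ▸ he) hE.nmem
      · exact h2
    intro a b hab
    have h1 : s(a, b) ∈ (G ⊔ SimpleGraph.edge u v).edgeSet := by
      rw [← hclosed]
      exact hCG hab
    rw [edgeSet_sup_edge G huv] at h1
    rw [← SimpleGraph.mem_edgeSet, hed]
    rcases h1 with h1 | h1
    · exact Or.inl h1
    · right
      by_contra hnE
      refine (hp.indep_insert_iff hE.indep hnE).mp (h.indep.mono ?_) (hCL hab)
      exact Set.insert_subset h1 hEF

end Pool.Agent.Lib.MP_071ace_co
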